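import Pool.Agent.MSD.Base

/-!
# Growth of the windows
-/

set_option autoImplicit false

namespace Pool.Agent.MSD.Ar

open Finset

theorem W_pos (s : ℕ) : 0 < W s := Nat.two_pow_pos _

theorem lt_W (s : ℕ) : s < W s := by
  have h1 : s ^ 2 < 2 ^ s ^ 2 := Nat.lt_two_pow_self
  have h2 : s ≤ s ^ 2 := Nat.le_self_pow two_ne_zero s
  exact lt_of_le_of_lt h2 h1

theorem W_mono : Monotone W := by
  intro a b h
  exact Nat.pow_le_pow_right two_pos (Nat.pow_le_pow_left h 2)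

theorem W_lt_N (s : ℕ) : W s < N s := Nat.lt_two_pow_self

theorem lt_N (s : ℕ) : s < N s := (lt_W s).trans (W_lt_N s)

theorem N_pos (s : ℕ) : 0 < N s := Nat.two_pow_pos _

theorem N_mono : Monotone N := by
  intro a b h
  exact Nat.pow_le_pow_right two_pos (W_mono h)

theorem N_le {a b : ℕ} (h : a ≤ b) : N a ≤ N b := N_mono h

theorem W_lt_succ (s : ℕ) : W s < W (s + 1) :=
  Nat.pow_lt_pow_right (by norm_num) (Nat.pow_lt_pow_left (Nat.lt_succ_self s) two_ne_zero)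

theorem N_succ (s : ℕ) : N s + s ≤ N (s + 1) := by
  have h1 : N s * 2 ≤ N (s + 1) := by
    unfold N
    rw [← pow_succ]
    exact Nat.pow_le_pow_right two_pos (W_lt_succ s)
  have h2 := lt_N s
  omega

theorem N_strictMono : StrictMono N := by
  refine strictMono_nat_of_lt_succ fun s => ?_
  exact Nat.pow_lt_pow_right (by norm_num) (W_lt_succ s)

theorem size_test {s i : ℕ} (hi : i < N s) : (N s + i).size = W s + 1 := by
  apply le_antisymm
  · rw [Nat.size_le, pow_succ]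
    unfold N at hi ⊢
    omega
  · rw [Nat.succ_le_iff, Nat.lt_size]
    unfold N
    omega

namespace Arith_aux

lemma pow_le_two_pow (q : ℕ) : ∃ L₀ : ℕ, ∀ L ≥ L₀, L ^ q ≤ 2 ^ L := by
  have h := tendsto_pow_const_div_const_pow_of_one_lt q (one_lt_two : (1 : ℝ) < 2)
  have h1 := h.eventually (gt_mem_nhds (zero_lt_one : (0 : ℝ) < 1))
  obtain ⟨L₀, hL⟩ := Filter.eventually_atTop.1 h1
  refine ⟨L₀, fun L hLL => ?_⟩
  have h2 := hL L hLL
  rw [div_lt_one (by positivity)] at h2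
  exact_mod_cast h2.le

lemma A_bound {s q : ℕ} (hs : 1 ≤ s) (hq : q ≤ s) : N (s - 1) ^ q ≤ 2 ^ W s := by
  unfold N
  rw [← pow_mul]
  apply Nat.pow_le_pow_right two_pos
  unfold W
  obtain ⟨u, rfl⟩ : ∃ u, s = u + 1 := ⟨s - 1, by omega⟩
  rw [Nat.add_sub_cancel]
  have h1 : (u + 1) ^ 2 = u ^ 2 + (2 * u + 1) := by ring
  rw [h1, pow_add]
  apply Nat.mul_le_mul_left
  have h2 : u + 1 < 2 ^ (u + 1) := Nat.lt_two_pow_self
  have h3 : 2 ^ (u + 1) ≤ 2 ^ (2 * u + 1) := Nat.pow_le_pow_right two_pos (by omega)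
  omega

lemma D_bound {σ L q : ℕ} (h : σ ^ (2 * q) ≤ 2 ^ (L + 1)) (hL : 2 * q + 1 ≤ L) :
    (σ + 2) ^ q ≤ 2 ^ L := by
  have h1 : (σ + 2) ^ (2 * q) ≤ 2 ^ (2 * L) := by
    rcases Nat.lt_or_ge σ 2 with h2 | h2
    · calc (σ + 2) ^ (2 * q) ≤ 4 ^ (2 * q) := Nat.pow_le_pow_left (by omega) _
        _ = 2 ^ (2 * (2 * q)) := by rw [pow_mul 2 2 (2 * q)]; norm_num
        _ ≤ 2 ^ (2 * L) := Nat.pow_le_pow_right two_pos (by omega)
    · calc (σ + 2) ^ (2 * q) ≤ (2 * σ) ^ (2 * q) := Nat.pow_le_pow_left (by omega) _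
        _ = 2 ^ (2 * q) * σ ^ (2 * q) := by rw [mul_pow]
        _ ≤ 2 ^ (2 * q) * 2 ^ (L + 1) := Nat.mul_le_mul_left _ h
        _ = 2 ^ (2 * q + (L + 1)) := (pow_add 2 (2 * q) (L + 1)).symm
        _ ≤ 2 ^ (2 * L) := Nat.pow_le_pow_right two_pos (by omega)
  rw [mul_comm 2 q, mul_comm 2 L, pow_mul, pow_mul] at h1
  exact (Nat.pow_le_pow_iff_left two_ne_zero).1 h1

lemma X_bound {X y k q L : ℕ} (hX : 2 ≤ X) (hy : y ≤ 16 * X ^ 2) (hq : 6 * k ≤ q)
    (h : X ^ q ≤ 2 ^ L) : y ^ k ≤ 2 ^ L := by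
  have h1 : 16 ≤ X ^ 4 := by
    calc 16 = 2 ^ 4 := by norm_num
      _ ≤ X ^ 4 := Nat.pow_le_pow_left hX 4
  calc y ^ k ≤ (X ^ 6) ^ k := by
        apply Nat.pow_le_pow_left
        calc y ≤ 16 * X ^ 2 := hy
          _ ≤ X ^ 4 * X ^ 2 := Nat.mul_le_mul_right _ h1
          _ = X ^ 6 := by ring
    _ = X ^ (6 * k) := by rw [pow_mul]
    _ ≤ X ^ q := Nat.pow_le_pow_right (by omega) hq
    _ ≤ 2 ^ L := h

end Arith_aux

open Arith_aux

theorem ARITH_thm : ARITH_stmt := by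
  intro t ht k
  obtain ⟨q, hq⟩ : ∃ q, q = 6 * k + 1 := ⟨_, rfl⟩
  obtain ⟨m₀, hm₀⟩ := ht (2 * q)
  obtain ⟨L₀, hL₀⟩ := pow_le_two_pow q
  refine ⟨m₀ + L₀ + 2 * q + 2, fun s hs => ?_⟩
  have hW : s < W s := lt_W s
  set L := W s with hL
  set σ := t (L + 1) with hσ
  have hσ' : σ ^ (2 * q) ≤ 2 ^ (L + 1) := hm₀ (L + 1) (by omega)
  have hD : (σ + 2) ^ q ≤ 2 ^ L := D_bound hσ' (by omega)
  have hA : N (s - 1) ^ q ≤ 2 ^ L := A_bound (by omega) (by omega)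
  have hB : L ^ q ≤ 2 ^ L := hL₀ L (by omega)
  have hCL : s + 2 ≤ L := by
    have h1 : s * 2 ≤ s ^ 2 := by
      rw [pow_two]
      exact Nat.mul_le_mul_left s (by omega)
    have h2 : s ^ 2 < L := Nat.lt_two_pow_self
    omega
  -- the maximum
  obtain ⟨X, hX⟩ : ∃ X, X = max (N (s - 1)) (max L (σ + 2)) := ⟨_, rfl⟩
  have hXA : N (s - 1) ≤ X := by rw [hX]; exact le_max_left _ _
  have hXB : L ≤ X := by rw [hX]; exact (le_max_left _ _).trans (le_max_right _ _)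
  have hXD : σ + 2 ≤ X := by rw [hX]; exact (le_max_right _ _).trans (le_max_right _ _)
  have hXq : X ^ q ≤ 2 ^ L := by
    rw [hX]
    rcases max_choice (N (s - 1)) (max L (σ + 2)) with h | h
    · rw [h]; exact hA
    · rw [h]
      rcases max_choice L (σ + 2) with h' | h'
      · rw [h']; exact hB
      · rw [h']; exact hD
  have hX2 : 2 ≤ X := by omega
  have hXX : 2 * X ≤ X ^ 2 := by
    rw [pow_two]
    exact Nat.mul_le_mul_right X hX2
  have hN : N s = 2 ^ L := rfl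
  rw [hN]
  refine ⟨?_, ?_, ?_⟩
  · have h1 : σ + 2 ≤ (σ + 2) ^ q := Nat.le_self_pow (by omega) _
    omega
  · refine X_bound hX2 ?_ (by omega) hXq
    unfold nn
    have h2 : (s + 2) * (σ + 2) ≤ X ^ 2 := by
      rw [pow_two]
      exact Nat.mul_le_mul (hCL.trans hXB) hXD
    have h3 : 4 * (s + 2) * (σ + 2) = 4 * ((s + 2) * (σ + 2)) := by ring
    rw [← hL, h3]
    omega
  · refine X_bound hX2 ?_ (by omega) hXq
    omega

end Pool.Agent.MSD.Ar
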