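import Pool.Agent.MSD.Defs

/-!
# Windows, flags, levels, the search programs, the bets
-/

set_option autoImplicit false

namespace Pool.Agent.MSD

open Pool.Agent.H19 Pool.Agent.H19.T Pool.Agent.PO Pool.Agent.S2L Pool.Agent.RU Pool.Agent.Q2E
open Finset

/-- The test numbers of the window `s` are `N s + i`, `i < s`; their length is `W s + 1`. -/
def W (s : ℕ) : ℕ := 2 ^ s ^ 2
def N (s : ℕ) : ℕ := 2 ^ W s

/-- A bound for the size of the relevant instances of the window `s` with messages of size at most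
`σ`. -/
def nn (s σ : ℕ) : ℕ := 2 * (N (s - 1) + W s) + 4 * (s + 2) * (σ + 2) + 10

/-- The flag of the window `s`: within the budget `N s` the decider with code `dE` accepts
`(cE, 1 ^ nn s σ)`, for some `σ` which the decider `fE` of the bound `t` accepts as `t (W s + 1)`. -/
def Flag (dE fE cE : T) (s : ℕ) : Prop :=
  ∃ σ < N s + 1,
    (simulF (T.node fE (T.node (T.node (T.unary (W s + 1)) (T.unary σ))
      (T.unary (N s))))).right ≠ T.leaf ∧
    (simulF (T.node dE (T.node (T.node cE (T.unary (nn s σ))) (T.unary (N s))))).right ≠ T.leaf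

open Classical in
/-- The level before the window `s`, for the start `j`: it is raised to `s + 1` after a window
without the flag. -/
noncomputable def lev (F : ℕ → Prop) (j : ℕ) : ℕ → ℕ
  | 0 => j
  | s + 1 => if s < j ∨ F s then lev F j s else s + 1

/-! ### The search problem -/

/-- The parts of an instance `X = node (unary s) (node (unary r) (node (unary σ) Y))`. -/
def qs (X : T) : ℕ := X.left.len
def qr (X : T) : ℕ := X.right.left.len
def qv (X : T) : ℕ := X.right.right.left.len
def qY (X : T) : T := X.right.right.right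

def Valid (F : ℕ → Prop) (j : ℕ) (X : T) : Prop :=
  j ≤ qs X ∧ N (qs X - 1) + W (qs X) ≤ qr X ∧
    ∀ i < lev F j (qs X), (nthT (qY X) i).size ≤ qv X

def Sol (B : T → T) (F : ℕ → Prop) (j : ℕ) (X z : T) : Prop :=
  z.left.len < lev F j (qs X) ∧ z.right.size ≤ qv X ∧
    B (vin (N (qs X) + z.left.len) (qv X) (nthT (qY X) z.left.len) z.right) = T.leaf

def Acc (B : T → T) (F : ℕ → Prop) (j : ℕ) (X z : T) : Prop := ¬ Valid F j X ∨ Sol B F j X z

/-! ### The bets -/

/-- The number of observed digits among the first `a` test numbers of the window `s`. -/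
def obs (w : List Bool) (s a : ℕ) : ℕ := min a (w.length - N s)

/-- The digits at the first `k` test numbers of the window `s` are ones. -/
def Ones (w : List Bool) (s k : ℕ) : Prop := ∀ i < k, w.getD (N s + i) false = true

open Classical in
/-- The conditional probability of the pattern `1 ^ a` in the window `s`, after `w`. -/
noncomputable def XX (w : List Bool) (s a : ℕ) : ℚ :=
  if Ones w s (obs w s a) then (1 / 2) ^ (a - obs w s a) else 0

/-- No earlier window with the flag has the pattern. -/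
def NoLoss (F : ℕ → Prop) (j s : ℕ) (w : List Bool) : Prop :=
  ∀ s', j ≤ s' → s' < s → F s' → ¬ Ones w s' (lev F j s')

open Classical in
/-- The gain in the window `s`: with the flag, a bet against the pattern (as long as this bet was
never lost); without the flag, a bet on the pattern. -/
noncomputable def GG (F : ℕ → Prop) (j s : ℕ) (w : List Bool) : ℚ :=
  if F s then
    (if NoLoss F j s w then (1 / 2) ^ j * ((1 / 2) ^ lev F j s - XX w s (lev F j s)) else 0)
  else XX w s (lev F j s) - (1 / 2) ^ lev F j s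

/-- The capital. -/
noncomputable def DD (F : ℕ → ℕ → ℕ → Prop) (w : List Bool) : ℚ :=
  6 + ∑ j ∈ range w.length, ∑ e ∈ range j, ∑ s ∈ Ico j w.length, GG (F e j) j s w

/-- The set `A` contains the first `a` test numbers of the window `s`. -/
def Pat (A : Set ℕ) (s a : ℕ) : Prop := ∀ i < a, N s + i ∈ A

/-- The flags used by the gambler, for the programs given by `mk`. -/
def Fl (dE : T) (mk : T → T) (e j s : ℕ) : Prop :=
  Flag dE (dN e).right (mk (T.node (dN e) (T.unary j))) s

/-! ### Statements -/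

/-- Sums of numbers in binary. -/
def SUM_stmt : Prop := ∀ (f n : T → ℕ), PolyN f → PolyNat n →
  PolyN (fun x => ∑ i ∈ range (n x), f (T.node x (T.unary i)))

/-- Differences of numbers in binary. -/
def SUB_stmt : Prop := ∀ (f g : T → ℕ), PolyN f → PolyN g → PolyN (fun x => f x - g x)

/-- Truncated powers. -/
def CAP_stmt : Prop := ∀ (f g : T → ℕ), PolyNat f → PolyNat g →
  PolyNat (fun x => min (2 ^ f x) (g x))

/-- The flags of the windows with `N s ≤ L` are decidable in time polynomial in `L`. -/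
def FLAGP_stmt : Prop := ∀ dE : T, ∃ FL : T → Prop, PolyDec FL ∧
  ∀ (fE cE : T) (s L : ℕ), N s ≤ L →
    (FL (T.node (T.node fE cE) (T.node (T.unary s) (T.unary L))) ↔ Flag dE fE cE s)

/-- Levels. -/
def LEVP_stmt : Prop := ∀ (FF : T → Prop) (j s : T → ℕ), PolyDec FF → PolyNat j → PolyNat s →
  PolyNat (fun x => lev (fun s' => FF (T.node x (T.unary s'))) (j x) (s x))

/-- Facts on levels. -/
def LEV_stmt : Prop := ∀ (F : ℕ → Prop) (j : ℕ),
  (∀ s ≥ j, j ≤ lev F j s ∧ lev F j s ≤ s) ∧
  (∀ F' : ℕ → Prop, ∀ s, (∀ s' < s, j ≤ s' → (F s' ↔ F' s')) → lev F j s = lev F' j s) ∧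
  (∀ s₀, (∀ s ≥ s₀, F s) → ∃ a, ∀ s ≥ max s₀ j, lev F j s = a)

/-- The programs. -/
def PROG_stmt : Prop := ∀ dE : T, ∃ mk : T → T, PolyTime mk ∧
  ∀ (b : Code) (B : T → T) (k : ℕ), (∀ x, ∃ t, Eval b x (B x) t ∧ t ≤ (x.size + 2) ^ k) →
  ∀ (fE : T) (j : ℕ), ∃ c : Code, c.enc = mk (T.node (T.node b.enc fE) (T.unary j)) ∧
    (∃ κ, HaltsWithin c κ) ∧ ∀ X z : T,
      (∃ (y : T) (t : ℕ), Eval c (T.node X z) y t ∧ y ≠ T.leaf) ↔
        Acc B (Flag dE fE c.enc) j X z

/-- Fairness and non-negativity. -/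
def FAIR_stmt : Prop := ∀ F : ℕ → ℕ → ℕ → Prop, IsMartingale (DD F)

/-- First case of success: eventually all flags, and the pattern does not occur in the windows with
the flag. -/
def WIN1_stmt : Prop := ∀ (F : ℕ → ℕ → ℕ → Prop) (A : Set ℕ) (e j s₀ : ℕ), e < j →
  (∀ s ≥ s₀, F e j s) → (∀ s ≥ j, F e j s → ¬ Pat A s (lev (F e j) j s)) → Succeeds (DD F) A

/-- Second case of success: for infinitely many `j` the pattern occurs in a window without the
flag. -/
def WIN2_stmt : Prop := ∀ (F : ℕ → ℕ → ℕ → Prop) (A : Set ℕ) (e : ℕ),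
  (∀ J, ∃ j ≥ J, ∃ s ≥ j, ¬ F e j s ∧ Pat A s (lev (F e j) j s)) → Succeeds (DD F) A

/-- The capital is computable in polynomial time. -/
def MPOLY_stmt : Prop := ∀ (dE : T) (mk : T → T), PolyTime mk → ExactPolyTime (DD (Fl dE mk))

/-- Growth of the windows. -/
def ARITH_stmt : Prop := ∀ (t : ℕ → ℕ), (∀ e : ℕ, ∃ m₀ : ℕ, ∀ m ≥ m₀, t m ^ e ≤ 2 ^ m) →
  ∀ k : ℕ, ∃ s₀ : ℕ, ∀ s ≥ s₀, t (W s + 1) ≤ N s ∧ (nn s (t (W s + 1)) + 2) ^ k ≤ N s ∧
    (2 * (W s + 1) + 2 * t (W s + 1) + 10) ^ k ≤ N s

end Pool.Agent.MSD
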