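import Pool.Agent.MSD.Base

/-!
# Truncated powers, levels and flags
-/

set_option autoImplicit false

namespace Pool.Agent.MSD

open Pool.Agent.H19 Pool.Agent.H19.T Pool.Agent.PO Pool.Agent.S2L Pool.Agent.RU Pool.Agent.Q2E
open Finset

namespace CP

/-- One doubling step, truncated. -/
def dstep (s : T) : T := T.node s.left (T.unary (2 * s.right.len - (2 * s.right.len - s.left.len)))

theorem dstep_poly : PolyTime dstep := by
  have i := PolyTime.id
  have h := (PolyNat.const 2).mul (PolyNat.len i.right)
  exact i.left.node (h.sub (h.sub (PolyNat.len i.left))).unary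

theorem dstep_iterate (G n : ℕ) : dstep^[n] (T.node (T.unary G) (T.unary (1 - (1 - G)))) =
    T.node (T.unary G) (T.unary (min (2 ^ n) G)) := by
  induction n with
  | zero =>
    have : 1 - (1 - G) = min (2 ^ 0) G := by rw [pow_zero]; omega
    rw [Function.iterate_zero_apply, this]
  | succ n ih =>
    rw [Function.iterate_succ_apply', ih]
    unfold dstep
    simp only [T.left_node, T.right_node, T.len_unary]
    congr 2
    rw [pow_succ]
    obtain ⟨a, ha⟩ : ∃ a, a = 2 ^ n := ⟨_, rfl⟩
    rw [← ha]
    clear ha ih
    omega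

end CP

open CP

theorem CAP_thm : CAP_stmt := by
  intro f g hf hg
  have h0 : PolyTime (fun x => T.node (T.unary (g x)) (T.unary (1 - (1 - g x)))) :=
    hg.unary.node ((PolyNat.const 1).sub ((PolyNat.const 1).sub hg)).unary
  have hit := PolyTime.iterate dstep_poly hf.unary h0 (by
    obtain ⟨a, ha⟩ := PolyTime.size_bound (hg.unary.node hg.unary)
    refine ⟨a, fun x i _ => le_trans ?_ (ha x)⟩
    rw [dstep_iterate]
    simp only [T.size, T.size_unary]
    omega)
  refine hit.right.congr fun x => ?_
  rw [dstep_iterate, T.right_node, T.len_unary]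

theorem LEVP_thm : LEVP_stmt := by
  classical
  intro FF j s hFF hj hs
  have i := PolyTime.id
  obtain ⟨st, hst⟩ : ∃ st : T → T, st = fun w : T => T.node w.left
      (T.node (T.unary (w.right.left.len + 1))
        (if w.right.left.len < w.left.right.len ∨ FF (T.node w.left.left (T.unary w.right.left.len))
          then w.right.right else T.unary (w.right.left.len + 1))) := ⟨_, rfl⟩
  have hstP : PolyTime st := by
    have h1 := PolyNat.len i.right.left
    have h2 := (h1.add (PolyNat.const 1)).unary
    have h3 : PolyDec (fun w : T => w.right.left.len < w.left.right.len ∨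
        FF (T.node w.left.left (T.unary w.right.left.len))) :=
      (PolyDec.lt h1 (PolyNat.len i.left.right)).or (hFF.comp (i.left.left.node h1.unary))
    rw [hst]
    refine (i.left.node (h2.node (PolyTime.ifP h3 i.right.right h2))).congr fun w => ?_
    congr 2
    split_ifs <;> rfl
  have hit : ∀ x n, st^[n] (T.node (T.node x (T.unary (j x)))
      (T.node (T.unary 0) (T.unary (j x)))) = T.node (T.node x (T.unary (j x)))
      (T.node (T.unary n) (T.unary (lev (fun s' => FF (T.node x (T.unary s'))) (j x) n))) := by
    intro x n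
    induction n with
    | zero => rfl
    | succ n ih =>
      rw [Function.iterate_succ_apply', ih, hst]
      simp only [T.left_node, T.right_node, T.len_unary, lev]
      split_ifs with h <;> rfl
  have hle : ∀ (F : ℕ → Prop) (a n : ℕ), lev F a n ≤ a + n := by
    intro F a n
    induction n with
    | zero => exact le_rfl
    | succ n ih =>
      simp only [lev]
      split_ifs <;> omega
  have h0 : PolyTime (fun x => T.node (T.node x (T.unary (j x)))
      (T.node (T.unary 0) (T.unary (j x)))) :=
    (i.node hj.unary).node ((PolyTime.const _).node hj.unary)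
  have hres := PolyTime.iterate hstP hs.unary h0 (by
    obtain ⟨a, ha⟩ := PolyTime.size_bound hj.unary
    obtain ⟨b, hb⟩ := PolyTime.size_bound hs.unary
    obtain ⟨k, hk⟩ : PolyB (fun m => m + 2 * (m + 2) ^ a + 2 * (m + 2) ^ b + 10) :=
      ((PolyB.id.add ((PolyB.const 2).mul ⟨a, fun _ => le_rfl⟩)).add
        ((PolyB.const 2).mul ⟨b, fun _ => le_rfl⟩)).add (PolyB.const 10)
    refine ⟨k, fun x n hn => le_trans ?_ (hk x.size)⟩
    rw [hit]
    have h1 := ha x
    have h2 := hb x
    have h3 := hle (fun s' => FF (T.node x (T.unary s'))) (j x) n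
    rw [T.len_unary] at hn
    simp only [T.size, T.size_unary] at h1 h2 ⊢
    omega)
  refine hres.right.right.congr fun x => ?_
  rw [hit, T.right_node, T.right_node, T.len_unary]

theorem FLAGP_thm : FLAGP_stmt := by
  intro dE
  have i := PolyTime.id
  have hsim : PolyTime simulF := SimF.simulF_polyTime
  have cap := CAP_thm
  -- the parts of `z = node (node fE cE) (node (unary s) (unary L))`
  have hs : PolyNat (fun z : T => z.right.left.len) := PolyNat.len i.right.left
  have hL : PolyNat (fun z : T => z.right.right.len) := PolyNat.len i.right.right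
  obtain ⟨W', hW'⟩ : ∃ W' : T → ℕ, W' = fun z => min (2 ^ z.right.left.len ^ 2) z.right.right.len :=
    ⟨_, rfl⟩
  have hW'P : PolyNat W' := by rw [hW']; exact cap _ _ (hs.pow 2) hL
  obtain ⟨N', hN'⟩ : ∃ N' : T → ℕ, N' = fun z => min (2 ^ W' z) z.right.right.len := ⟨_, rfl⟩
  have hN'P : PolyNat N' := by rw [hN']; exact cap _ _ hW'P hL
  obtain ⟨V', hV'⟩ : ∃ V' : T → ℕ, V' = fun z => min (2 ^ (z.right.left.len - 1) ^ 2)
    z.right.right.len := ⟨_, rfl⟩
  have hV'P : PolyNat V' := by
    rw [hV']; exact cap _ _ ((hs.sub (PolyNat.const 1)).pow 2) hL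
  obtain ⟨M', hM'⟩ : ∃ M' : T → ℕ, M' = fun z => min (2 ^ V' z) z.right.right.len := ⟨_, rfl⟩
  have hM'P : PolyNat M' := by rw [hM']; exact cap _ _ hV'P hL
  obtain ⟨P, hP⟩ : ∃ P : T → Prop, P = fun u : T =>
    (simulF (T.node u.left.left.left (T.node (T.node (T.unary (W' u.left + 1))
      (T.unary u.right.len)) (T.unary (N' u.left))))).right ≠ T.leaf ∧
    (simulF (T.node dE (T.node (T.node u.left.left.right (T.unary
      (2 * (M' u.left + W' u.left) + 4 * (u.left.right.left.len + 2) * (u.right.len + 2) + 10)))
      (T.unary (N' u.left))))).right ≠ T.leaf := ⟨_, rfl⟩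
  have hPP : PolyDec P := by
    have hu := PolyNat.len i.right
    have hWu := hW'P.comp i.left
    have hNu := hN'P.comp i.left
    have hMu := hM'P.comp i.left
    have hsu := hs.comp i.left
    rw [hP]
    refine (PolyDec.ne_leaf (hsim.comp (i.left.left.left.node ((PolyTime.node
      (hWu.add (PolyNat.const 1)).unary hu.unary).node hNu.unary))).right).and
      (PolyDec.ne_leaf (hsim.comp ((PolyTime.const _).node ((PolyTime.node i.left.left.right
        (PolyNat.unary ?_)).node hNu.unary))).right)
    exact ((((PolyNat.const 2).mul (hMu.add hWu)).add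
      (((PolyNat.const 4).mul (hsu.add (PolyNat.const 2))).mul (hu.add (PolyNat.const 2)))).add
      (PolyNat.const 10))
  refine ⟨fun z => ∃ σ < N' z + 1, P (T.node z (T.unary σ)), bex hPP (hN'P.add (PolyNat.const 1)),
    fun fE cE s L hNL => ?_⟩
  have hz : ∀ a b : ℕ, 2 ^ 2 ^ a ≤ b → min (2 ^ a) b = 2 ^ a := fun a b h =>
    min_eq_left ((Nat.lt_two_pow_self).le.trans h)
  have hNs : N s = 2 ^ 2 ^ s ^ 2 := rfl
  have hNm : N (s - 1) ≤ N s := by
    unfold N W
    exact Nat.pow_le_pow_right (by omega) (Nat.pow_le_pow_right (by omega)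
      (Nat.pow_le_pow_left (by omega) 2))
  have eW : W' (T.node (T.node fE cE) (T.node (T.unary s) (T.unary L))) = W s := by
    rw [hW']
    simp only [T.left_node, T.right_node, T.len_unary]
    exact hz _ _ hNL
  have eN : N' (T.node (T.node fE cE) (T.node (T.unary s) (T.unary L))) = N s := by
    rw [hN']
    beta_reduce
    rw [eW]
    simp only [T.right_node, T.len_unary]
    exact min_eq_left hNL
  have eV : V' (T.node (T.node fE cE) (T.node (T.unary s) (T.unary L))) = W (s - 1) := by
    rw [hV']
    simp only [T.left_node, T.right_node, T.len_unary]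
    exact hz _ _ (hNm.trans hNL)
  have eM : M' (T.node (T.node fE cE) (T.node (T.unary s) (T.unary L))) = N (s - 1) := by
    rw [hM']
    beta_reduce
    rw [eV]
    simp only [T.right_node, T.len_unary]
    exact min_eq_left (hNm.trans hNL)
  rw [hP]
  simp only [T.left_node, T.right_node, T.len_unary, eW, eN, eM]
  rfl

end Pool.Agent.MSD
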