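import Pool.Agent.Q2E.Main

/-!
# Martingales, polynomial-time measure zero, and the class `Σ₂TIME(2^o(m))`
-/

set_option autoImplicit false

namespace Pool.Agent.MSD

open Pool.Agent.H19 Pool.Agent.H19.T Pool.Agent.PO Pool.Agent.S2L Pool.Agent.RU Pool.Agent.Q2E

/-- A martingale: `d w` is the capital of a gambler, who bets on the successive digits of a
sequence at fair odds, after the digits `w`. -/
def IsMartingale (d : List Bool → ℚ) : Prop :=
  (∀ w, 0 ≤ d w) ∧ ∀ w, d (w ++ [false]) + d (w ++ [true]) = 2 * d w

/-- The rational number `d w` is computed exactly, as a fraction in binary, in time polynomial in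
the length of the word `w`. -/
def ExactPolyTime (d : List Bool → ℚ) : Prop :=
  ∃ f : T → T, PolyTime f ∧ ∀ w : List Bool, ∃ p q : ℕ, q ≠ 0 ∧
    f (encW w) = T.node (bl p) (bl q) ∧ d w = (p : ℚ) / (q : ℚ)

open Classical in
/-- The first `n` digits of the characteristic sequence of the set `A`. -/
noncomputable def chi (A : Set ℕ) (n : ℕ) : List Bool :=
  (List.range n).map fun x => decide (x ∈ A)

/-- The capital of the gambler is unbounded on the characteristic sequence of `A`. -/
def Succeeds (d : List Bool → ℚ) (A : Set ℕ) : Prop := ∀ K : ℕ, ∃ n : ℕ, (K : ℚ) ≤ d (chi A n)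

/-- The class `C` has p-measure zero: one martingale computable in polynomial time (in the length
of the word, so in time `2 ^ O(m)` when it bets on numbers of length `m`) succeeds on all its
members. -/
def PMeasureZero (C : Set (Set ℕ)) : Prop :=
  ∃ d : List Bool → ℚ, IsMartingale d ∧ ExactPolyTime d ∧ ∀ A ∈ C, Succeeds d A

/-- The class `Σ₂TIME(2^o(m))`: the union of the classes `Σ₂TIME(t)` for the constructible bounds
`t(m) = 2^o(m)`. -/
def Sigma2Subexp : Set (Set ℕ) := {A | ∃ t : ℕ → ℕ, SubexpBound t ∧ InSigma2Time t A}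

/-- A very sparse set of numbers: `2 ^ 2 ^ s ^ 2 + i`, where `i < s`. -/
def TestSet : Set ℕ := {x | ∃ s i : ℕ, i < s ∧ x = 2 ^ 2 ^ s ^ 2 + i}

end Pool.Agent.MSD
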