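import Pool.Agent.MSD.Base

/-!
# The search programs: totality, patterns and flags
-/

set_option autoImplicit false

namespace Pool.Agent.MSD

open Pool.Agent.H19 Pool.Agent.H19.T Pool.Agent.PO Pool.Agent.S2L Pool.Agent.RU Pool.Agent.Q2E

/-! ### The referee who checks the bound -/

/-- The referee `B` with the check that the bound on the messages is the right one. -/
def chkB (f B : T → T) (w : T) : T :=
  tif (f (T.node (T.unary w.left.len) (T.unary w.right.right.len))) T.leaf (B w)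

theorem chkB_polyTime {f B : T → T} (hf : PolyTime f) (hB : PolyTime B) :
    PolyTime (chkB f B) := by
  have i := PolyTime.id
  exact PolyTime.tif (hf.comp ((PolyNat.len i.left).unary.node (PolyNat.len i.right.right).unary))
      PolyTime.leaf hB

theorem chkB_vin (f B : T → T) (x s : ℕ) (y z : T) : chkB f B (vin x s y z) ≠ T.leaf ↔
    f (T.node (T.unary x.size) (T.unary s)) ≠ T.leaf ∧ B (vin x s y z) ≠ T.leaf := by
  have h1 : (vin x s y z).left.len = x.size := bl_len x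
  have h2 : (vin x s y z).right.right.len = s := T.len_unary s
  unfold chkB
  rw [h1, h2]
  by_cases h3 : f (T.node (T.unary x.size) (T.unary s)) = T.leaf
  · rw [h3, tif_leaf]
    simp
  · rw [tif, if_neg h3]
    simp [h3]

theorem sound_chk {f B : T → T} {t : ℕ → ℕ} {A : Set ℕ}
    (hft : ∀ m s : ℕ, f (T.node (T.unary m) (T.unary s)) ≠ T.leaf ↔ s = t m)
    (hA : ∀ x s : ℕ, s = t x.size → (x ∈ A ↔ ∃ y : T, y.size ≤ s ∧ ∀ z : T, z.size ≤ s →
      B (vin x s y z) ≠ T.leaf))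
    (x s : ℕ) (y : T) (hy : y.size ≤ s)
    (h : ∀ z : T, z.size ≤ s → chkB f B (vin x s y z) ≠ T.leaf) : x ∈ A := by
  have hs1 : 1 ≤ s := (T.size_pos y).trans hy
  have h1 := (chkB_vin f B x s y T.leaf).1 (h T.leaf hs1)
  exact (hA x s ((hft _ _).1 h1.1)).2 ⟨y, hy, fun z hz => ((chkB_vin f B x s y z).1 (h z hz)).2⟩

theorem complete_chk {f B : T → T} {t : ℕ → ℕ} {A : Set ℕ}
    (hft : ∀ m s : ℕ, f (T.node (T.unary m) (T.unary s)) ≠ T.leaf ↔ s = t m)
    (hA : ∀ x s : ℕ, s = t x.size → (x ∈ A ↔ ∃ y : T, y.size ≤ s ∧ ∀ z : T, z.size ≤ s →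
      B (vin x s y z) ≠ T.leaf))
    {x : ℕ} (hx : x ∈ A) : ∃ y : T, y.size ≤ t x.size ∧ ∀ z : T, z.size ≤ t x.size →
      chkB f B (vin x (t x.size) y z) ≠ T.leaf := by
  obtain ⟨y, hy, h⟩ := (hA x _ rfl).1 hx
  exact ⟨y, hy, fun z hz => (chkB_vin f B x _ y z).2 ⟨(hft _ _).2 rfl, h z hz⟩⟩

/-! ### Numbers -/

theorem lt_N' (s : ℕ) : s < N s := by
  unfold N W
  have h1 : s ≤ s ^ 2 := Nat.le_self_pow (by norm_num) s
  have h2 : s ^ 2 < 2 ^ s ^ 2 := Nat.lt_two_pow_self
  have h3 : 2 ^ s ^ 2 < 2 ^ 2 ^ s ^ 2 := Nat.lt_two_pow_self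
  omega

theorem size_test' {s i : ℕ} (hi : i < s) : (N s + i).size = W s + 1 := by
  have h1 := lt_N' s
  apply le_antisymm
  · rw [Nat.size_le, pow_succ]
    change N s + i < N s * 2
    omega
  · by_contra h
    push Not at h
    have h2 : (N s + i).size ≤ W s := by omega
    rw [Nat.size_le] at h2
    change N s + i < N s at h2
    omega

theorem two_len (x : T) : 2 * x.len + 1 ≤ x.size := T.two_len_lt_size x

/-! ### Totality -/

section
variable {f B : T → T} {t : ℕ → ℕ} {A : Set ℕ}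
  (hft : ∀ m s : ℕ, f (T.node (T.unary m) (T.unary s)) ≠ T.leaf ↔ s = t m)
  (hA : ∀ x s : ℕ, s = t x.size → (x ∈ A ↔ ∃ y : T, y.size ≤ s ∧ ∀ z : T, z.size ≤ s →
      B (vin x s y z) ≠ T.leaf))
  {F : ℕ → Prop} {j : ℕ} {c : Code}
  (hacc : ∀ X z : T, (∃ (y : T) (t : ℕ), Eval c (T.node X z) y t ∧ y ≠ T.leaf) ↔
    Acc (chkB f B) F j X z)
  (hlev : ∀ s ≥ j, j ≤ lev F j s ∧ lev F j s ≤ s)

include hft hA hacc hlev

/-- If the pattern occurs in no window, the search problem is total. -/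
theorem total_of (hno : ∀ s ≥ j, ¬ Pat A s (lev F j s)) (n : ℕ) : TotalUpTo c n := by
  intro X _
  by_cases hV : Valid F j X
  · have h1 := hno (qs X) hV.1
    unfold Pat at h1
    push Not at h1
    obtain ⟨i, hi, hiA⟩ := h1
    have hy := hV.2.2 i hi
    obtain ⟨z, hz, hz0⟩ : ∃ z : T, z.size ≤ qv X ∧
        chkB f B (vin (N (qs X) + i) (qv X) (nthT (qY X) i) z) = T.leaf := by
      by_contra hcon
      push Not at hcon
      exact hiA (sound_chk hft hA _ _ _ hy hcon)
    refine ⟨T.node (T.unary i) z, ?_, (hacc X _).2 (Or.inr ⟨?_, ?_, ?_⟩)⟩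
    · have h2 := hlev (qs X) hV.1
      have h3 : 1 ≤ qv X := (T.size_pos _).trans hy
      -- the structure of `X`
      have e1 : X.right.right ≠ T.leaf := by
        intro h0
        rw [qv, h0] at h3
        simp at h3
      have e2 : X.right ≠ T.leaf := by
        intro h0
        rw [h0] at e1
        exact e1 rfl
      have e3 : X ≠ T.leaf := by
        intro h0
        rw [h0] at e2
        exact e2 rfl
      have g1 : X.size = X.left.size + X.right.size + 1 := by
        conv_lhs => rw [T.eq_node e3]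
        rfl
      have g2 : X.right.size = X.right.left.size + X.right.right.size + 1 := by
        conv_lhs => rw [T.eq_node e2]
        rfl
      have g3 : X.right.right.size = X.right.right.left.size + X.right.right.right.size + 1 := by
        conv_lhs => rw [T.eq_node e1]
        rfl
      have g4 := two_len X.left
      have g5 := two_len X.right.right.left
      have g6 : i < qs X := by omega
      unfold qs at g6
      unfold qv at hz
      simp only [T.size, T.size_unary]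
      omega
    · rw [T.left_node, T.len_unary]
      exact hi
    · exact hz
    · rw [T.left_node, T.right_node, T.len_unary]
      exact hz0
  · exact ⟨T.leaf, T.size_pos X, (hacc X _).2 (Or.inl hV)⟩

/-- If the search problem is total up to the size of the relevant instances, the pattern does not
occur. -/
theorem not_pat {s : ℕ} (hs : j ≤ s) (hT : TotalUpTo c (nn s (t (W s + 1)))) :
    ¬ Pat A s (lev F j s) := by
  intro hP
  obtain ⟨hl1, hl2⟩ := hlev s hs
  set σ := t (W s + 1) with hσ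
  have h1 : ∀ i : ℕ, ∃ y : T, i < lev F j s → y.size ≤ σ ∧
      ∀ z : T, z.size ≤ σ → chkB f B (vin (N s + i) σ y z) ≠ T.leaf := by
    intro i
    by_cases hi : i < lev F j s
    · obtain ⟨y, hy, hz⟩ := complete_chk hft hA (hP i hi)
      rw [size_test' (by omega : i < s)] at hy hz
      exact ⟨y, fun _ => ⟨hy, hz⟩⟩
    · exact ⟨T.leaf, fun h => absurd h hi⟩
  choose ys hys using h1
  obtain ⟨X, hX⟩ : ∃ X, X = T.node (T.unary s) (T.node (T.unary (N (s - 1) + W s))
      (T.node (T.unary σ) (encL ((List.range (lev F j s)).map ys)))) := ⟨_, rfl⟩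
  have e1 : qs X = s := by rw [hX]; exact T.len_unary s
  have e2 : qr X = N (s - 1) + W s := by rw [hX]; exact T.len_unary _
  have e3 : qv X = σ := by rw [hX]; exact T.len_unary _
  have e4 : ∀ i < lev F j s, nthT (qY X) i = ys i := by
    intro i hi
    have : qY X = encL ((List.range (lev F j s)).map ys) := by rw [hX]; rfl
    rw [this, nthT_encL (by rw [List.length_map, List.length_range]; exact hi), List.getElem_map,
      List.getElem_range]
  have hsize : X.size ≤ nn s σ := by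
    have h2 : (encL ((List.range (lev F j s)).map ys)).size ≤ lev F j s * (σ + 1) + 1 := by
      have h3 := encL_size (l := (List.range (lev F j s)).map ys) (M := σ) (by
        intro a ha
        obtain ⟨i, hi, rfl⟩ := List.mem_map.1 ha
        exact (hys i (List.mem_range.1 hi)).1)
      rwa [List.length_map, List.length_range] at h3
    have h4 : lev F j s * (σ + 1) ≤ s * (σ + 1) := Nat.mul_le_mul_right _ hl2
    have h5 : 4 * (s + 2) * (σ + 2) = 4 * (s * (σ + 1)) + 4 * s + 8 * σ + 16 := by ring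
    rw [hX, nn, h5]
    simp only [T.size, T.size_unary]
    omega
  obtain ⟨z, _, hz⟩ := hT X hsize
  rcases (hacc X z).1 hz with h | ⟨h2, h3, h4⟩
  · refine h ⟨by rw [e1]; exact hs, by rw [e1, e2], ?_⟩
    rw [e1, e3]
    intro i hi
    rw [e4 i hi]
    exact (hys i hi).1
  · rw [e1] at h2 h4
    rw [e3] at h3 h4
    rw [e4 _ h2] at h4
    exact (hys _ h2).2 _ h3 h4

end

/-! ### Flags -/

section
variable {f : T → T} {t : ℕ → ℕ} {d fC c : Code}
  (hs1 : PolyTime simulF)
  (hft : ∀ m s : ℕ, f (T.node (T.unary m) (T.unary s)) ≠ T.leaf ↔ s = t m)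

theorem flag_total (hS : SIMF_stmt)
    (hft : ∀ m s : ℕ, f (T.node (T.unary m) (T.unary s)) ≠ T.leaf ↔ s = t m) {κf : ℕ}
    (hfC : ∀ x, ∃ u, Eval fC x (f x) u ∧ u ≤ (x.size + 2) ^ κf) {k : ℕ}
    (hk : ∀ n : ℕ, ∃ (y : T) (u : ℕ), Eval d (T.node c.enc (T.unary n)) y u ∧
      u ≤ (n + 2) ^ k ∧ (y ≠ T.leaf ↔ TotalUpTo c n)) {s : ℕ}
    (h : Flag d.enc fC.enc c.enc s) : TotalUpTo c (nn s (t (W s + 1))) := by
  obtain ⟨_, _, hs3⟩ := hS
  obtain ⟨σ, _, h1, h2⟩ := h
  obtain ⟨u, hu, _⟩ := hfC (T.node (T.unary (W s + 1)) (T.unary σ))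
  have h3 : σ = t (W s + 1) := by
    rw [← hft]
    rcases hs3 fC _ _ (T.unary (N s)) u hu with h4 | h4
    · rw [h4] at h1
      exact absurd rfl h1
    · rw [h4] at h1
      exact h1
  obtain ⟨y, u', hy, _, hy2⟩ := hk (nn s σ)
  rw [← h3]
  apply hy2.1
  rcases hs3 d _ _ (T.unary (N s)) u' hy with h4 | h4
  · rw [h4] at h2
    exact absurd rfl h2
  · rw [h4] at h2
    exact h2

theorem flag_of_total (hS : SIMF_stmt) (harith : ARITH_stmt)
    (hsub : ∀ e : ℕ, ∃ m₀ : ℕ, ∀ m ≥ m₀, t m ^ e ≤ 2 ^ m)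
    (hft : ∀ m s : ℕ, f (T.node (T.unary m) (T.unary s)) ≠ T.leaf ↔ s = t m) {κf : ℕ}
    (hfC : ∀ x, ∃ u, Eval fC x (f x) u ∧ u ≤ (x.size + 2) ^ κf) {k : ℕ}
    (hk : ∀ n : ℕ, ∃ (y : T) (u : ℕ), Eval d (T.node c.enc (T.unary n)) y u ∧
      u ≤ (n + 2) ^ k ∧ (y ≠ T.leaf ↔ TotalUpTo c n)) (htot : ∀ n, TotalUpTo c n) :
    ∃ s₀ : ℕ, ∀ s ≥ s₀, Flag d.enc fC.enc c.enc s := by
  obtain ⟨_, hs2, _⟩ := hS
  obtain ⟨s₁, h₁⟩ := harith t hsub k
  obtain ⟨s₂, h₂⟩ := harith t hsub κf
  refine ⟨max s₁ s₂, fun s hs => ?_⟩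
  obtain ⟨a1, a2, _⟩ := h₁ s (le_trans (le_max_left _ _) hs)
  obtain ⟨_, _, a3⟩ := h₂ s (le_trans (le_max_right _ _) hs)
  refine ⟨t (W s + 1), by omega, ?_, ?_⟩
  · obtain ⟨u, hu, hu2⟩ := hfC (T.node (T.unary (W s + 1)) (T.unary (t (W s + 1))))
    rw [hs2 fC _ _ u (N s) hu (hu2.trans (le_trans (Nat.pow_le_pow_left ?_ _) a3)), T.right_node]
    · exact (hft _ _).2 rfl
    · simp only [T.size, T.size_unary]
      omega
  · obtain ⟨y, u, hu, hu2, hy⟩ := hk (nn s (t (W s + 1)))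
    rw [hs2 d _ _ u (N s) hu (hu2.trans a2), T.right_node]
    exact hy.2 (htot _)

end

end Pool.Agent.MSD
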