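import Pool.Agent.MSD.Base

/-!
# Sums and differences of numbers in binary
-/

set_option autoImplicit false

namespace Pool.Agent.MSD

open Pool.Agent.H19 Pool.Agent.H19.T Pool.Agent.PO Pool.Agent.S2L Pool.Agent.RU Pool.Agent.Q2E
open Finset

namespace SumX

/-- One step; the state is `node x (node sum (unary i))`. -/
def sumStep (f : T → ℕ) (s : T) : T :=
  T.node s.left (T.node (bl (f (T.node s.left s.right.right.right) + bn s.right.left))
    s.right.right.right)

theorem sumStep_iterate (f : T → ℕ) (x : T) (n j : ℕ) (hj : j ≤ n) :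
    (sumStep f)^[j] (T.node x (T.node T.leaf (T.unary n))) =
      T.node x (T.node (bl (∑ i ∈ range j, f (T.node x (T.unary (n - j + i)))))
        (T.unary (n - j))) := by
  induction j with
  | zero => simp
  | succ j ih =>
    rw [Function.iterate_succ_apply', ih (by omega), sumStep]
    simp only [T.left_node, T.right_node]
    obtain ⟨i, hi⟩ : ∃ i, n - j = i + 1 := ⟨n - j - 1, by omega⟩
    have h1 : n - (j + 1) = i := by omega
    have h2 : (T.unary (i + 1)).right = T.unary i := rfl
    have h3 : ∀ a, i + 1 + a = i + (a + 1) := fun a => by omega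
    rw [hi, h1, h2, bn_bl, sum_range_succ', Nat.add_comm (f _)]
    simp only [h3, Nat.add_zero]

/-- The size of a sum. -/
theorem size_sum_le (g : ℕ → ℕ) (j M : ℕ) (h : ∀ i < j, (g i).size ≤ M) :
    (∑ i ∈ range j, g i).size ≤ j + M := by
  rw [Nat.size_le]
  have h1 : ∀ i ∈ range j, g i ≤ 2 ^ M := fun i hi =>
    ((Nat.size_le).1 (h i (mem_range.1 hi))).le
  have h2 := sum_le_card_nsmul (range j) g (2 ^ M) h1
  rw [card_range, smul_eq_mul] at h2
  have h3 : j < 2 ^ j := Nat.lt_two_pow_self
  have h4 : 0 < 2 ^ M := by positivity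
  rw [pow_add]
  exact h2.trans_lt (Nat.mul_lt_mul_of_pos_right h3 h4)

/-- One step of the search for the difference; the state is
`node (node a b) (node r (unary i))`. -/
noncomputable def subStep (s : T) : T :=
  T.node s.left (T.node
    (if bn s.left.right + bn s.right.left + 2 ^ s.right.right.right.len ≤ bn s.left.left then
      bl (bn s.right.left + 2 ^ s.right.right.right.len) else bl (bn s.right.left))
    s.right.right.right)

theorem subStep_polyTime : PolyTime subStep := by
  have i := PolyTime.id
  have hp : PolyN (fun s : T => 2 ^ s.right.right.right.len) :=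
    PolyN.pow2 (PolyNat.len i.right.right.right)
  have h1 : PolyDec (fun s : T =>
      bn s.left.right + bn s.right.left + 2 ^ s.right.right.right.len ≤ bn s.left.left) :=
    PolyDec.leN (((polyN_bn i.left.right).add (polyN_bn i.right.left)).add hp)
      (polyN_bn i.left.left)
  have h2 : PolyTime (fun s : T => bl (bn s.right.left + 2 ^ s.right.right.right.len)) :=
    (polyN_bn i.right.left).add hp
  have h3 : PolyTime (fun s : T => bl (bn s.right.left)) := polyN_bn i.right.left
  refine (i.left.node ((PolyTime.ifP h1 h2 h3).node i.right.right.right)).congr fun s => ?_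
  simp only [subStep]
  split_ifs <;> rfl

/-- The arithmetic of one step. -/
theorem sub_arith (a b i : ℕ) :
    (if b + (a - b) / 2 ^ (i + 1) * 2 ^ (i + 1) + 2 ^ i ≤ a then
      (a - b) / 2 ^ (i + 1) * 2 ^ (i + 1) + 2 ^ i else (a - b) / 2 ^ (i + 1) * 2 ^ (i + 1)) =
      (a - b) / 2 ^ i * 2 ^ i := by
  have hpos : 0 < 2 ^ i := by positivity
  rcases Nat.lt_or_ge a b with h | h
  · have h0 : a - b = 0 := by omega
    rw [h0, Nat.zero_div, Nat.zero_div, Nat.zero_mul, Nat.zero_mul, if_neg (by omega)]
  · obtain ⟨d, rfl⟩ : ∃ d, a = b + d := ⟨a - b, by omega⟩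
    rw [Nat.add_sub_cancel_left]
    have h1 : d / 2 ^ (i + 1) = d / 2 ^ i / 2 := by
      rw [pow_succ, Nat.div_div_eq_div_mul]
    have h2 := Nat.div_mul_le_self d (2 ^ i)
    have h3 := Nat.lt_div_mul_add hpos (a := d)
    rw [h1]
    set q := d / 2 ^ i
    have h4 : q / 2 * 2 ^ (i + 1) = q / 2 * 2 * 2 ^ i := by rw [pow_succ]; ring
    rw [h4]
    rcases Nat.even_or_odd' q with ⟨e, he | he⟩
    · have h5 : q / 2 * 2 = q := by omega
      rw [h5, if_neg (by omega)]
    · have h5 : q / 2 * 2 + 1 = q := by omega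
      have h6 : q / 2 * 2 * 2 ^ i + 2 ^ i = q * 2 ^ i := by
        rw [← h5]
        have : (q / 2 * 2 + 1) / 2 = q / 2 := by omega
        rw [this]
        ring
      rw [Nat.add_assoc, h6, if_pos (by omega)]

theorem subStep_iterate (a b n j : ℕ) (hn : a < 2 ^ n) (hj : j ≤ n) :
    subStep^[j] (T.node (T.node (bl a) (bl b)) (T.node T.leaf (T.unary n))) =
      T.node (T.node (bl a) (bl b)) (T.node (bl ((a - b) / 2 ^ (n - j) * 2 ^ (n - j)))
        (T.unary (n - j))) := by
  induction j with
  | zero =>
    have h1 : (a - b) / 2 ^ n = 0 := Nat.div_eq_of_lt (by omega)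
    simp [h1]
  | succ j ih =>
    rw [Function.iterate_succ_apply', ih (by omega), subStep]
    simp only [T.left_node, T.right_node, bn_bl]
    obtain ⟨i, hi⟩ : ∃ i, n - j = i + 1 := ⟨n - j - 1, by omega⟩
    have h1 : n - (j + 1) = i := by omega
    have h2 : (T.unary (i + 1)).right = T.unary i := rfl
    rw [hi, h1, h2, T.len_unary, ← sub_arith a b i]
    split_ifs <;> rfl

end SumX

open SumX

theorem SUM_thm : SUM_stmt := by
  intro f n hf hn
  have i := PolyTime.id
  have hstep : PolyTime (sumStep f) :=
    i.left.node (((hf.comp (i.left.node i.right.right.right)).add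
      (polyN_bn i.right.left)).node i.right.right.right)
  have h0 : PolyTime (fun x => T.node x (T.node T.leaf (T.unary (n x)))) :=
    i.node ((PolyTime.const _).node hn.unary)
  have hit := PolyTime.iterate hstep hn.unary h0 (by
    obtain ⟨a, ha⟩ := PolyTime.size_bound hn
    obtain ⟨b, hb⟩ := PolyTime.size_bound hf
    obtain ⟨k, hk⟩ : PolyB (fun m => 4 * ((m + 2) ^ a + (m + (m + 2) ^ a + 3) ^ b) + m +
        (m + 2) ^ a + 6) :=
      (((((PolyB.const 4).mul (PolyB.add ⟨a, fun _ => le_rfl⟩
        (((PolyB.id.add ⟨a, fun _ => le_rfl⟩).add (PolyB.const 3)).pow b))).add PolyB.id).add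
        ⟨a, fun _ => le_rfl⟩).add (PolyB.const 6))
    refine ⟨k, fun x j hj => le_trans ?_ (hk x.size)⟩
    rw [T.len_unary] at hj
    rw [sumStep_iterate _ _ _ _ hj]
    have h1 := ha x
    rw [T.size_unary] at h1
    have h2 := size_sum_le (fun i => f (T.node x (T.unary (n x - j + i)))) j
      ((x.size + (x.size + 2) ^ a + 3) ^ b) (by
        intro i hi
        refine (size_le_bl _).trans ((hb _).trans (Nat.pow_le_pow_left ?_ _))
        simp only [T.size, T.size_unary]
        omega)
    have h3 := bl_size (∑ i ∈ range j, f (T.node x (T.unary (n x - j + i))))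
    simp only [T.size, T.size_unary]
    omega)
  refine hit.right.left.congr fun x => ?_
  rw [T.len_unary, sumStep_iterate _ _ _ _ le_rfl, T.right_node, T.left_node, Nat.sub_self]
  simp only [Nat.zero_add]

theorem SUB_thm : SUB_stmt := by
  intro f g hf hg
  have i := PolyTime.id
  have h0 : PolyTime (fun x => T.node (T.node (bl (f x)) (bl (g x)))
      (T.node T.leaf (T.unary (f x).size))) :=
    (PolyTime.node hf hg).node ((PolyTime.const _).node hf.size.unary)
  have hit := PolyTime.iterate subStep_polyTime hf.size.unary h0 (by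
    obtain ⟨a, ha⟩ := PolyTime.size_bound hf
    obtain ⟨b, hb⟩ := PolyTime.size_bound hg
    obtain ⟨k, hk⟩ : PolyB (fun m => 7 * (m + 2) ^ a + (m + 2) ^ b + 6) :=
      (((PolyB.const 7).mul ⟨a, fun _ => le_rfl⟩).add ⟨b, fun _ => le_rfl⟩).add (PolyB.const 6)
    refine ⟨k, fun x j hj => le_trans ?_ (hk x.size)⟩
    rw [T.len_unary] at hj
    rw [subStep_iterate _ _ _ _ (Nat.lt_size_self _) hj]
    have h1 := ha x
    have h2 := hb x
    have h3 := bl_size ((f x - g x) / 2 ^ ((f x).size - j) * 2 ^ ((f x).size - j))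
    have h4 : (f x - g x) / 2 ^ ((f x).size - j) * 2 ^ ((f x).size - j) ≤ f x :=
      (Nat.div_mul_le_self _ _).trans (Nat.sub_le _ _)
    have h5 := Nat.size_le_size h4
    have h6 := size_le_bl (f x)
    simp only [T.size, T.size_unary]
    omega)
  refine hit.right.left.congr fun x => ?_
  rw [T.len_unary, subStep_iterate _ _ _ _ (Nat.lt_size_self _) le_rfl, T.right_node,
    T.left_node, Nat.sub_self, pow_zero, Nat.div_one, Nat.mul_one]

end Pool.Agent.MSD
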