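import Pool.Agent.MSD.Mart
import Pool.Agent.MSD.Sum
import Pool.Agent.MSD.Cap

/-!
# The capital is computable in polynomial time
-/

set_option autoImplicit false

namespace Pool.Agent.MSD

open Pool.Agent.H19 Pool.Agent.H19.T Pool.Agent.PO Pool.Agent.S2L Pool.Agent.RU Pool.Agent.Q2E
open Finset

namespace MPB

/-- The truncated length and beginning of a window. -/
def Wc (s L : ℕ) : ℕ := min (2 ^ s ^ 2) (L + 1)
def Nc (s L : ℕ) : ℕ := min (2 ^ Wc s L) (L + 1)

theorem Wc_eq {s L : ℕ} (h : N s ≤ L) : Wc s L = W s := by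
  have h1 : W s < N s := Nat.lt_two_pow_self
  unfold Wc
  change min (W s) (L + 1) = W s
  omega

theorem Nc_eq {s L : ℕ} (h : N s ≤ L) : Nc s L = N s := by
  unfold Nc
  rw [Wc_eq h]
  change min (N s) (L + 1) = N s
  omega

theorem Nc_le {s L : ℕ} : Nc s L ≤ L ↔ N s ≤ L := by
  constructor
  · intro h
    have h1 : 2 ^ Wc s L ≤ L := by
      unfold Nc at h
      omega
    have h2 : Wc s L < 2 ^ Wc s L := Nat.lt_two_pow_self
    have h3 : Wc s L = W s := by
      unfold Wc at h2 h1 ⊢
      change min (W s) (L + 1) = W s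
      have h4 : min (2 ^ s ^ 2) (L + 1) < L + 1 := by omega
      change min (W s) (L + 1) < L + 1 at h4
      omega
    rw [h3] at h1
    exact h1
  · intro h
    rw [Nc_eq h]
    exact h

theorem Nc_polyNat (h : CAP_stmt) {s L : T → ℕ} (hs : PolyNat s) (hL : PolyNat L) :
    PolyNat (fun x => Nc (s x) (L x)) :=
  h _ _ (h _ _ (hs.pow 2) (hL.add (PolyNat.const 1))) (hL.add (PolyNat.const 1))

section
variable (FL : T → Prop) (mk : T → T)

/-- The parts of the input `y = node (node (node x (unary j)) (unary e)) (unary i)`. -/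
def yx (y : T) : T := y.left.left.left
def yj (y : T) : ℕ := y.left.left.right.len
def ye (y : T) : ℕ := y.left.right.len
def ys (y : T) : ℕ := yj y + y.right.len
def yL (y : T) : ℕ := (yx y).len

/-- The flag of the window `s'`, for the input `node y (unary s')`. -/
def FF (z : T) : Prop :=
  FL (T.node (T.node (dN (ye z.left)).right (mk (T.node (dN (ye z.left)) (T.unary (yj z.left)))))
    (T.node (T.unary z.right.len) (T.unary (yL z.left))))

/-- The level. -/
noncomputable def yl (y : T) (s : ℕ) : ℕ :=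
  lev (fun s' => FF FL mk (T.node y (T.unary s'))) (yj y) s

/-- The digits at the first `k` test numbers of the window `s` are ones. -/
def On (y : T) (s k : ℕ) : Prop := ∀ i < k, nthT (yx y) (Nc s (yL y) + i) ≠ T.leaf

/-- No loss. -/
def NLo (y : T) : Prop := ∀ i < ys y - yj y,
  ¬ (FF FL mk (T.node y (T.unary (yj y + i))) ∧ On y (yj y + i) (yl FL mk y (yj y + i)))

/-- The number of observed digits. -/
noncomputable def ob (y : T) : ℕ := min (yl FL mk y (ys y)) (yL y - Nc (ys y) (yL y))

open Classical in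
noncomputable def Pt (y : T) : ℕ :=
  if Nc (ys y) (yL y) ≤ yL y then
    (if FF FL mk (T.node y (T.unary (ys y))) then
      (if NLo FL mk y then 2 ^ (2 * yL y - yj y - yl FL mk y (ys y)) else 0)
    else (if On y (ys y) (ob FL mk y) then 2 ^ (2 * yL y - (yl FL mk y (ys y) - ob FL mk y))
      else 0))
  else 0

open Classical in
noncomputable def Qt (y : T) : ℕ :=
  if Nc (ys y) (yL y) ≤ yL y then
    (if FF FL mk (T.node y (T.unary (ys y))) then
      (if NLo FL mk y ∧ On y (ys y) (ob FL mk y) then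
        2 ^ (2 * yL y - yj y - (yl FL mk y (ys y) - ob FL mk y)) else 0)
    else 2 ^ (2 * yL y - yl FL mk y (ys y)))
  else 0

end

/-! ### Polynomial time -/

theorem PolyN_ite {P : T → Prop} [DecidablePred P] (hP : PolyDec P) {f g : T → ℕ}
    (hf : PolyN f) (hg : PolyN g) : PolyN (fun x => if P x then f x else g x) := by
  refine (PolyTime.ifP hP hf hg).congr fun x => ?_
  by_cases h : P x <;> simp [h]

theorem yx_poly : PolyTime yx := PolyTime.id.left.left.left
theorem yj_poly : PolyNat yj := PolyNat.len PolyTime.id.left.left.right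
theorem ye_poly : PolyNat ye := PolyNat.len PolyTime.id.left.right
theorem ys_poly : PolyNat ys := yj_poly.add (PolyNat.len PolyTime.id.right)
theorem yL_poly : PolyNat yL := PolyNat.len yx_poly

section
variable {FL : T → Prop} {mk : T → T} (hFL : PolyDec FL) (hmk : PolyTime mk)
include hFL hmk

theorem FF_poly : PolyDec (FF FL mk) := by
  have i := PolyTime.id
  have he : PolyTime (fun z : T => dN (ye z.left)) := dN_polyTime (ye_poly.comp i.left).toN
  exact hFL.comp ((he.right.node (hmk.comp (he.node (yj_poly.comp i.left).unary))).node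
    ((PolyNat.len i.right).unary.node (yL_poly.comp i.left).unary))

theorem yl_poly (h2 : LEVP_stmt) {y : T → T} (hy : PolyTime y) {s : T → ℕ} (hs : PolyNat s) :
    PolyNat (fun x => yl FL mk (y x) (s x)) := by
  have i := PolyTime.id
  have h := h2 (fun z => FF FL mk (T.node (y z.left) z.right)) (fun x => yj (y x)) s
    ((FF_poly hFL hmk).comp ((hy.comp i.left).node i.right)) (yj_poly.comp hy) hs
  exact h

theorem On_poly (h3 : CAP_stmt) {y : T → T} (hy : PolyTime y) {s k : T → ℕ} (hs : PolyNat s)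
    (hk : PolyNat k) : PolyDec (fun x => On (y x) (s x) (k x)) := by
  have i := PolyTime.id
  have h := PolyDec.ball (P := fun z : T => nthT (yx (y z.left))
    (Nc (s z.left) (yL (y z.left)) + z.right.len) ≠ T.leaf)
    (PolyDec.ne_leaf (Lk.nthT_poly _ _ (yx_poly.comp (hy.comp i.left))
      ((Nc_polyNat h3 (hs.comp i.left) (yL_poly.comp (hy.comp i.left))).add
        (PolyNat.len i.right)))) hk
  refine h.congr fun x => ?_
  simp only [T.left_node, T.right_node, T.len_unary]
  rfl

theorem NLo_poly (h2 : LEVP_stmt) (h3 : CAP_stmt) : PolyDec (NLo FL mk) := by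
  have i := PolyTime.id
  have hyj : PolyNat (fun z : T => yj z.left + z.right.len) :=
    (yj_poly.comp i.left).add (PolyNat.len i.right)
  have h := PolyDec.ball (P := fun z : T =>
    ¬ (FF FL mk (T.node z.left (T.unary (yj z.left + z.right.len))) ∧
      On z.left (yj z.left + z.right.len) (yl FL mk z.left (yj z.left + z.right.len))))
    (((FF_poly hFL hmk).comp (i.left.node hyj.unary)).and
      (On_poly hFL hmk h3 i.left hyj (yl_poly hFL hmk h2 i.left hyj))).not
    (ys_poly.sub yj_poly)
  refine h.congr fun x => ?_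
  simp only [T.left_node, T.right_node, T.len_unary]
  rfl

theorem ob_poly (h2 : LEVP_stmt) (h3 : CAP_stmt) : PolyNat (ob FL mk) :=
  RL.PolyNat.min (yl_poly hFL hmk h2 PolyTime.id ys_poly)
    (yL_poly.sub (Nc_polyNat h3 ys_poly yL_poly))

theorem Pt_poly (h2 : LEVP_stmt) (h3 : CAP_stmt) : PolyN (Pt FL mk) := by
  classical
  have i := PolyTime.id
  have hc : PolyDec (fun y : T => Nc (ys y) (yL y) ≤ yL y) :=
    PolyDec.le (Nc_polyNat h3 ys_poly yL_poly) yL_poly
  have hF : PolyDec (fun y : T => FF FL mk (T.node y (T.unary (ys y)))) :=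
    (FF_poly hFL hmk).comp (i.node ys_poly.unary)
  have hl := yl_poly hFL hmk h2 i ys_poly
  have hL2 : PolyNat (fun y : T => 2 * yL y) := (PolyNat.const 2).mul yL_poly
  have ho := ob_poly hFL hmk h2 h3
  exact PolyN_ite hc (PolyN_ite hF
    (PolyN_ite (NLo_poly hFL hmk h2 h3) (PolyN.pow2 ((hL2.sub yj_poly).sub hl)) (PolyN.const 0))
    (PolyN_ite (On_poly hFL hmk h3 i ys_poly ho) (PolyN.pow2 (hL2.sub (hl.sub ho)))
      (PolyN.const 0))) (PolyN.const 0)

theorem Qt_poly (h2 : LEVP_stmt) (h3 : CAP_stmt) : PolyN (Qt FL mk) := by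
  classical
  have i := PolyTime.id
  have hc : PolyDec (fun y : T => Nc (ys y) (yL y) ≤ yL y) :=
    PolyDec.le (Nc_polyNat h3 ys_poly yL_poly) yL_poly
  have hF : PolyDec (fun y : T => FF FL mk (T.node y (T.unary (ys y)))) :=
    (FF_poly hFL hmk).comp (i.node ys_poly.unary)
  have hl := yl_poly hFL hmk h2 i ys_poly
  have hL2 : PolyNat (fun y : T => 2 * yL y) := (PolyNat.const 2).mul yL_poly
  have ho := ob_poly hFL hmk h2 h3
  exact PolyN_ite hc (PolyN_ite hF
    (PolyN_ite ((NLo_poly hFL hmk h2 h3).and (On_poly hFL hmk h3 i ys_poly ho))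
      (PolyN.pow2 ((hL2.sub yj_poly).sub (hl.sub ho))) (PolyN.const 0))
    (PolyN.pow2 (hL2.sub hl))) (PolyN.const 0)

end

/-! ### Correctness -/

theorem encW_len (w : List Bool) : (encW w).len = w.length := by
  rw [encW, encL_len, List.length_map]

theorem half_pow {m n : ℕ} (h : m ≤ n) : ((2 ^ (n - m) : ℕ) : ℚ) = 2 ^ n * (1 / 2) ^ m := by
  rw [Nat.cast_pow, Nat.cast_ofNat, one_div, inv_pow, ← div_eq_mul_inv, eq_div_iff (by positivity),
    ← pow_add, Nat.sub_add_cancel h]

section
variable {FL : T → Prop} {mk : T → T} {dE : T}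
  (hFL : ∀ (fE cE : T) (s L : ℕ), N s ≤ L →
    (FL (T.node (T.node fE cE) (T.node (T.unary s) (T.unary L))) ↔ Flag dE fE cE s))
include hFL

/-- The input. -/
def inY (w : List Bool) (j e i : ℕ) : T :=
  T.node (T.node (T.node (encW w) (T.unary j)) (T.unary e)) (T.unary i)

theorem FF_iff {w : List Bool} {j e i s : ℕ} (h : N s ≤ w.length) :
    FF FL mk (T.node (inY w j e i) (T.unary s)) ↔ Fl dE mk e j s := by
  have h1 := hFL (dN e).right (mk (T.node (dN e) (T.unary j))) s w.length h
  have e1 : yL (inY w j e i) = w.length := encW_len w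
  have e2 : ye (inY w j e i) = e := T.len_unary e
  have e3 : yj (inY w j e i) = j := T.len_unary j
  rw [FF, T.left_node, T.right_node, T.len_unary, e1, e2, e3]
  exact h1

theorem yl_eq {w : List Bool} {j e i s : ℕ} (h : N s ≤ w.length) :
    yl FL mk (inY w j e i) s = lev (Fl dE mk e j) j s := by
  have e3 : yj (inY w j e i) = j := T.len_unary j
  rw [yl, e3]
  refine (LEV_thm _ j).2.1 _ s fun s' hs' _ => FF_iff hFL ((N_mono hs'.le).trans h)

theorem On_iff {w : List Bool} {j e i s k : ℕ} (h : N s ≤ w.length) :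
    On (inY w j e i) s k ↔ Ones w s k := by
  have e1 : yL (inY w j e i) = w.length := encW_len w
  have e4 : yx (inY w j e i) = encW w := rfl
  rw [On, e1, e4, Nc_eq h]
  refine forall₂_congr fun i _ => ?_
  rw [nthT_encW]
  cases w.getD (N s + i) false <;> simp [Dec.lt]

theorem NLo_iff {w : List Bool} {j e i : ℕ} (h : N (j + i) ≤ w.length) :
    NLo FL mk (inY w j e i) ↔ NoLoss (Fl dE mk e j) j (j + i) w := by
  have e3 : yj (inY w j e i) = j := T.len_unary j
  have e5 : ys (inY w j e i) = j + i := by rw [ys, e3]; congr 1; exact T.len_unary i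
  rw [NLo, e3, e5, Nat.add_sub_cancel_left]
  have hN : ∀ k < i, N (j + k) ≤ w.length := fun k hk => (N_mono (by omega)).trans h
  constructor
  · intro h1 s' h2 h3 h4 h5
    obtain ⟨k, rfl⟩ : ∃ k, s' = j + k := ⟨s' - j, by omega⟩
    have hk : k < i := by omega
    refine h1 k hk ⟨(FF_iff hFL (hN k hk)).2 h4, ?_⟩
    rw [On_iff hFL (hN k hk), yl_eq hFL (hN k hk)]
    exact h5
  · rintro h1 k hk ⟨h2, h3⟩
    rw [On_iff hFL (hN k hk), yl_eq hFL (hN k hk)] at h3
    exact h1 (j + k) (by omega) (by omega) ((FF_iff hFL (hN k hk)).1 h2) h3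

theorem term_eq {w : List Bool} {j e i : ℕ} (hj : j + i < w.length) :
    ((Pt FL mk (inY w j e i) : ℕ) : ℚ) - (Qt FL mk (inY w j e i) : ℕ) =
      2 ^ (2 * w.length) * GG (Fl dE mk e j) j (j + i) w := by
  classical
  have e1 : yL (inY w j e i) = w.length := encW_len w
  have e3 : yj (inY w j e i) = j := T.len_unary j
  have e5 : ys (inY w j e i) = j + i := by rw [ys, e3]; congr 1; exact T.len_unary i
  by_cases h : N (j + i) ≤ w.length
  · have hl : yl FL mk (inY w j e i) (j + i) = lev (Fl dE mk e j) j (j + i) := yl_eq hFL h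
    obtain ⟨hl1, hl2⟩ := (LEV_thm (Fl dE mk e j) j).1 (j + i) (by omega)
    have ho : ob FL mk (inY w j e i) = obs w (j + i) (lev (Fl dE mk e j) j (j + i)) := by
      rw [ob, e5, hl, e1, Nc_eq h, obs]
    rw [Pt, Qt, e5, e1, e3, ho, hl, if_pos (Nc_le.2 h), if_pos (Nc_le.2 h), GG]
    set a := lev (Fl dE mk e j) j (j + i) with ha
    have hoa : obs w (j + i) a ≤ a := min_le_left _ _
    by_cases hf : Fl dE mk e j (j + i)
    · rw [if_pos ((FF_iff hFL h).2 hf), if_pos ((FF_iff hFL h).2 hf), if_pos hf]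
      by_cases hn : NoLoss (Fl dE mk e j) j (j + i) w
      · rw [if_pos ((NLo_iff hFL h).2 hn), if_pos hn]
        by_cases hO : Ones w (j + i) (obs w (j + i) a)
        · rw [if_pos ⟨(NLo_iff hFL h).2 hn, (On_iff hFL h).2 hO⟩, XX, if_pos hO,
            Nat.sub_sub, Nat.sub_sub, half_pow (by omega), half_pow (by omega)]
          ring
        · rw [if_neg (fun hh => hO ((On_iff hFL h).1 hh.2)), XX, if_neg hO,
            Nat.sub_sub, half_pow (by omega)]
          push_cast
          ring
      · rw [if_neg (fun hh => hn ((NLo_iff hFL h).1 hh)), if_neg hn,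
          if_neg (fun hh => hn ((NLo_iff hFL h).1 hh.1))]
        push_cast
        ring
    · rw [if_neg (fun hh => hf ((FF_iff hFL h).1 hh)), if_neg (fun hh => hf ((FF_iff hFL h).1 hh)),
        if_neg hf]
      by_cases hO : Ones w (j + i) (obs w (j + i) a)
      · rw [if_pos ((On_iff hFL h).2 hO), XX, if_pos hO, half_pow (by omega),
          half_pow (by omega)]
        ring
      · rw [if_neg (fun hh => hO ((On_iff hFL h).1 hh)), XX, if_neg hO, half_pow (by omega)]
        push_cast
        ring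
  · rw [Pt, Qt, e5, e1, if_neg (fun hh => h (Nc_le.1 hh)), if_neg (fun hh => h (Nc_le.1 hh)),
      GG_of_le (by omega)]
    push_cast
    ring

end

theorem MPOLY_of (h1 : FLAGP_stmt) (h2 : LEVP_stmt) (h3 : CAP_stmt) (h4 : SUM_stmt)
    (h5 : SUB_stmt) : MPOLY_stmt := by
  classical
  intro dE mk hmk
  obtain ⟨FL, hFL, hF⟩ := h1 dE
  have i := PolyTime.id
  -- the triple sums
  have hsum : ∀ g : T → ℕ, PolyN g → PolyN (fun x => ∑ j ∈ range x.len,
      ∑ e ∈ range j, ∑ k ∈ range (x.len - j),
        g (T.node (T.node (T.node x (T.unary j)) (T.unary e)) (T.unary k))) := by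
    intro g hg
    have s1 := h4 g (fun y => y.left.left.len - y.left.right.len) hg
      ((PolyNat.len i.left.left).sub (PolyNat.len i.left.right))
    have s2 := h4 _ (fun y => y.right.len) s1 (PolyNat.len i.right)
    have s3 := h4 _ (fun x => x.len) s2 (PolyNat.len i)
    refine (PolyTime.congr s3 fun x => ?_)
    simp only [T.left_node, T.right_node, T.len_unary]
  have hP := hsum _ (Pt_poly hFL hmk h2 h3)
  have hQ := hsum _ (Qt_poly hFL hmk h2 h3)
  have h2L : PolyN (fun x : T => 2 ^ (2 * x.len)) :=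
    PolyN.pow2 ((PolyNat.const 2).mul (PolyNat.len i))
  have hnum := h5 _ _ (((PolyN.const 6).mul h2L).add hP) hQ
  refine ⟨_, hnum.node h2L, fun w => ⟨_, _, ?_, rfl, ?_⟩⟩
  · positivity
  · have hfair := (FAIR_thm (Fl dE mk)).1 w
    beta_reduce
    rw [encW_len]
    have key : (((∑ j ∈ range w.length, ∑ e ∈ range j, ∑ k ∈ range (w.length - j),
        Pt FL mk (inY w j e k) : ℕ) : ℚ) - ((∑ j ∈ range w.length, ∑ e ∈ range j,
          ∑ k ∈ range (w.length - j), Qt FL mk (inY w j e k) : ℕ) : ℚ)) =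
        2 ^ (2 * w.length) * (DD (Fl dE mk) w - 6) := by
      rw [DD, add_sub_cancel_left]
      push_cast
      rw [← sum_sub_distrib, mul_sum]
      refine sum_congr rfl fun j hj => ?_
      rw [← sum_sub_distrib, mul_sum]
      refine sum_congr rfl fun e he => ?_
      rw [← sum_sub_distrib, mul_sum, sum_Ico_eq_sum_range]
      refine sum_congr rfl fun k hk => ?_
      rw [mem_range] at hk
      exact term_eq hF (by omega)
    set SP := ∑ j ∈ range w.length, ∑ e ∈ range j, ∑ k ∈ range (w.length - j),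
        Pt FL mk (inY w j e k) with hSP
    set SQ := ∑ j ∈ range w.length, ∑ e ∈ range j, ∑ k ∈ range (w.length - j),
        Qt FL mk (inY w j e k) with hSQ
    have h7 : (SQ : ℚ) ≤ 6 * 2 ^ (2 * w.length) + SP := by
      have h8 : (0 : ℚ) ≤ 2 ^ (2 * w.length) * DD (Fl dE mk) w := by positivity
      have h9 : (2 : ℚ) ^ (2 * w.length) * (DD (Fl dE mk) w - 6) =
        2 ^ (2 * w.length) * DD (Fl dE mk) w - 6 * 2 ^ (2 * w.length) := by ring
      rw [h9] at key
      linarith
    have h10 : SQ ≤ 6 * 2 ^ (2 * w.length) + SP := by exact_mod_cast h7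
    change DD (Fl dE mk) w = ((6 * 2 ^ (2 * w.length) + SP - SQ : ℕ) : ℚ) /
      ((2 ^ (2 * w.length) : ℕ) : ℚ)
    rw [Nat.cast_sub h10, eq_div_iff (by positivity)]
    push_cast
    have h9 : (2 : ℚ) ^ (2 * w.length) * (DD (Fl dE mk) w - 6) =
        2 ^ (2 * w.length) * DD (Fl dE mk) w - 6 * 2 ^ (2 * w.length) := by ring
    rw [h9] at key
    linarith

end MPB

end Pool.Agent.MSD
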