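import Pool.Agent.MSD.Top
import Pool.Agent.MSD.MPolyB

/-!
# Q1, or `Σ₂TIME(2^o(m))` has p-measure zero
-/

set_option autoImplicit false

namespace Pool.Agent.MSD

open Pool.Agent.H19 Pool.Agent.H19.T Pool.Agent.PO Pool.Agent.S2L Pool.Agent.RU Pool.Agent.Q2E

theorem main (μ : Fm) (hμ : IsUniversal μ) (P : Code → ℕ → Fm) (hP : IsFormalisation μ P) :
    ReflectionConjecture μ P ∨
      PMeasureZero {A' | ∃ A ∈ Sigma2Subexp, ∀ x ∈ TestSet, (x ∈ A' ↔ x ∈ A)} :=
  top_of (MPB.MPOLY_of FLAGP_thm LEVP_thm CAP_thm SUM_thm SUB_thm) μ hμ P hP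

/-- A class with p-measure zero has only subclasses with p-measure zero. -/
theorem PMeasureZero.mono {C C' : Set (Set ℕ)} (h : PMeasureZero C) (hC : C' ⊆ C) :
    PMeasureZero C' := by
  obtain ⟨d, h1, h2, h3⟩ := h
  exact ⟨d, h1, h2, fun A hA => h3 A (hC hA)⟩

/-- Lutz's hypothesis, that NP does not have p-measure zero, implies the assertion of Q1. -/
theorem of_lutz (hL : ¬ PMeasureZero {A | InNPNum A}) (μ : Fm) (hμ : IsUniversal μ)
    (P : Code → ℕ → Fm) (hP : IsFormalisation μ P) : ReflectionConjecture μ P := by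
  rcases main μ hμ P hP with h | h
  · exact h
  · exact absurd (h.mono fun A hA => ⟨A, np_mem hA, fun _ _ => Iff.rfl⟩) hL

end Pool.Agent.MSD
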