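import Pool.Agent.MSD.Defs

/-!
# Complements: the class of the complements of the members of a class of p-measure zero has p-measure zero
-/

set_option autoImplicit false

namespace Pool.Agent.MSD

open Pool.Agent.H19 Pool.Agent.H19.T Pool.Agent.PO Pool.Agent.S2L Pool.Agent.RU Pool.Agent.Q2E

namespace Flip

/-- Negation of a letter. -/
def neg (h : T) : T := tif h (T.node T.leaf T.leaf) T.leaf

theorem neg_lt (b : Bool) : neg (Dec.lt b) = Dec.lt (!b) := by
  rw [neg, tif_lt]
  cases b <;> simp [Dec.lt]

theorem neg_size (h : T) : (neg h).size ≤ 3 := by
  unfold neg tif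
  split_ifs <;> simp [T.size]

/-- The negated letters in reversed order. -/
def fl (x : T) : T := tfold (fun h a => T.node (neg h) a) x T.leaf

/-- The letters in reversed order. -/
def rv (x : T) : T := tfold (fun h a => T.node h a) x T.leaf

theorem fl_eq (l : T) : fl l = encL (l.toL.map neg).reverse := by
  have : ∀ (l : List T) (a : T), l.foldl (fun a h => T.node (neg h) a) a =
      encL ((l.map neg).reverse ++ a.toL) := by
    intro l
    induction l with
    | nil => intro a; simp
    | cons h l ih =>
      intro a
      rw [List.foldl_cons, ih]
      simp [T.toL]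
  rw [fl, tfold_eq, this]
  simp [T.toL]

theorem rv_eq (l : T) : rv l = encL l.toL.reverse := by
  have : ∀ (l : List T) (a : T), l.foldl (fun a h => T.node h a) a =
      encL (l.reverse ++ a.toL) := by
    intro l
    induction l with
    | nil => intro a; simp
    | cons h l ih =>
      intro a
      rw [List.foldl_cons, ih]
      simp [T.toL]
  rw [rv, tfold_eq, this]
  simp [T.toL]

theorem rv_poly : PolyTime rv := by
  have i := PolyTime.id
  have hsz : ∀ l a : T, (tfold (fun h a => T.node h a) l a).size ≤ l.size + a.size := by
    intro l
    induction l with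
    | leaf => intro a; simp only [tfold, T.size]; omega
    | node h t _ ih =>
      intro a
      have := ih (T.node h a)
      simp only [tfold, T.size] at this ⊢
      omega
  exact (PolyTime₂.tfold (g := fun h a => T.node h a) (i.left.node i.right) PolyB.id
    (fun a b h => h) hsz).comp i PolyTime.leaf

theorem fl_poly : PolyTime fl := by
  have i := PolyTime.id
  have hsz : ∀ l a : T, (tfold (fun h a => T.node (neg h) a) l a).size ≤
      4 * l.size + a.size := by
    intro l
    induction l with
    | leaf => intro a; simp only [tfold, T.size]; omega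
    | node h t _ ih =>
      intro a
      have h1 := ih (T.node (neg h) a)
      have h2 := neg_size h
      have h3 := T.size_pos h
      simp only [tfold, T.size] at h1 ⊢
      omega
  have hg : PolyTime₂ (fun h a => T.node (neg h) a) :=
    (PolyTime.tif i.left (PolyTime.const _) (PolyTime.const _)).node i.right
  exact (PolyTime₂.tfold (g := fun h a => T.node (neg h) a) hg (G := fun n => 4 * n)
    ((PolyB.const 4).mul PolyB.id) (fun a b h => by dsimp only; omega)
    (fun l a => by have := hsz l a; omega)).comp i PolyTime.leaf

theorem flip_encW (w : List Bool) : rv (fl (encW w)) = encW (w.map not) := by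
  rw [fl_eq, rv_eq, encW, toL_encL, toL_encL, List.reverse_reverse, encW, List.map_map,
    List.map_map]
  congr 1
  apply List.map_congr_left
  intro b _
  exact neg_lt b

end Flip

open Flip in
/-- The complements of the members of a class of p-measure zero form a class of p-measure zero. -/
theorem PMeasureZero.compl {C : Set (Set ℕ)} (h : PMeasureZero C) :
    PMeasureZero {A | Aᶜ ∈ C} := by
  obtain ⟨d, ⟨h0, h1⟩, ⟨f, hf, h2⟩, h3⟩ := h
  refine ⟨fun w => d (w.map not), ⟨fun w => h0 _, fun w => ?_⟩, ⟨fun x => f (rv (fl x)),
    hf.comp (rv_poly.comp fl_poly), fun w => ?_⟩, fun A hA K => ?_⟩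
  · have h4 := h1 (w.map not)
    simp only [List.map_append, List.map_cons, List.map_nil, Bool.not_false, Bool.not_true]
    linarith
  · obtain ⟨p, q, hq, h4, h5⟩ := h2 (w.map not)
    refine ⟨p, q, hq, ?_, h5⟩
    change f (rv (fl (encW w))) = _
    rw [← h4, flip_encW]
  · obtain ⟨n, hn⟩ := h3 Aᶜ hA K
    refine ⟨n, ?_⟩
    have h4 : (chi A n).map not = chi Aᶜ n := by
      classical
      rw [chi, chi, List.map_map]
      apply List.map_congr_left
      intro x _
      simp only [Function.comp_apply, Set.mem_compl_iff, decide_not]
    change (K : ℚ) ≤ d ((chi A n).map not)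
    rw [h4]
    exact hn

end Pool.Agent.MSD
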