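import Pool.Agent.MSD.Defs

/-!
# `Σ^p_2` and NP are contained in `Σ₂TIME(2^o(m))`
-/

set_option autoImplicit false

namespace Pool.Agent.MSD

open Pool.Agent.H19 Pool.Agent.H19.T Pool.Agent.PO Pool.Agent.S2L Pool.Agent.RU Pool.Agent.Q2E

theorem pow_bound (k : ℕ) : ∀ e : ℕ, ∃ m₀ : ℕ, ∀ m ≥ m₀, ((m + 2) ^ k) ^ e ≤ 2 ^ m := by
  intro e
  have h := tendsto_pow_const_div_const_pow_of_one_lt (k * e) (r := (2 : ℝ)) (by norm_num)
  have h2 : ∀ᶠ m : ℕ in Filter.atTop, (m : ℝ) ^ (k * e) / 2 ^ m < 1 / 4 :=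
    h.eventually (gt_mem_nhds (by norm_num))
  obtain ⟨m₁, hm₁⟩ := Filter.eventually_atTop.1 h2
  refine ⟨m₁, fun m hm => ?_⟩
  have h3 := hm₁ (m + 2) (by omega)
  have h4 : (0 : ℝ) < 2 ^ (m + 2) := by positivity
  rw [div_lt_iff₀ h4] at h3
  have h5 : ((m + 2 : ℕ) : ℝ) ^ (k * e) ≤ 2 ^ m := by
    have h6 : (1 / 4 : ℝ) * 2 ^ (m + 2) = 2 ^ m := by rw [pow_add]; ring
    rw [h6] at h3
    exact h3.le
  rw [← pow_mul]
  exact_mod_cast h5

theorem subexp_pow (k : ℕ) : SubexpBound (fun m => (m + 2) ^ k) := by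
  refine ⟨?_, pow_bound k⟩
  have i := PolyTime.id
  obtain ⟨f, hf, h⟩ := PolyDec.eq (PolyNat.len i.right).unary
    (((PolyNat.len i.left).add (PolyNat.const 2)).pow k).unary
  refine ⟨f, hf, fun m s => ?_⟩
  rw [← h (T.node (T.unary m) (T.unary s))]
  simp only [T.left_node, T.right_node, T.len_unary]
  constructor
  · intro h2
    have h3 := congrArg T.len h2
    rwa [T.len_unary, T.len_unary] at h3
  · intro h2
    rw [h2]

/-- The class `Σ^p_2` of sets of numbers in binary. -/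
def InSigma2P (A : Set ℕ) : Prop := ∃ (B : T → T) (k : ℕ), PolyTime B ∧
  ∀ x : ℕ, x ∈ A ↔ ∃ y : T, y.size ≤ (x.size + 2) ^ k ∧ ∀ z : T, z.size ≤ (x.size + 2) ^ k →
    B (T.node (bl x) (T.node y z)) ≠ T.leaf

theorem sigma2P_mem {A : Set ℕ} (h : InSigma2P A) : A ∈ Sigma2Subexp := by
  obtain ⟨B, k, hB, hA⟩ := h
  have i := PolyTime.id
  refine ⟨fun m => (m + 2) ^ k, subexp_pow k, fun w => B (T.node w.left w.right.left),
    hB.comp (i.left.node i.right.left), ?_⟩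
  rintro x s rfl
  exact hA x

/-- The class NP of sets of numbers in binary. -/
def InNPNum (A : Set ℕ) : Prop := ∃ (B : T → T) (k : ℕ), PolyTime B ∧
  ∀ x : ℕ, x ∈ A ↔ ∃ y : T, y.size ≤ (x.size + 2) ^ k ∧ B (T.node (bl x) y) ≠ T.leaf

theorem np_mem {A : Set ℕ} (h : InNPNum A) : A ∈ Sigma2Subexp := by
  obtain ⟨B, k, hB, hA⟩ := h
  have i := PolyTime.id
  refine sigma2P_mem ⟨fun w => B (T.node w.left w.right.left), k,
    hB.comp (i.left.node i.right.left), fun x => ?_⟩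
  rw [hA x]
  constructor
  · rintro ⟨y, hy, h⟩
    exact ⟨y, hy, fun z _ => h⟩
  · rintro ⟨y, hy, h⟩
    exact ⟨y, hy, h T.leaf ((T.size_pos y).trans hy)⟩

end Pool.Agent.MSD
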