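import Pool.Agent.MSD.OneDefs
import Pool.Agent.MSD.Incl
import Pool.Agent.PO.XPB
import Pool.Agent.PO.SimF

/-!
# One-sided deciders of totality from p-optimal proof systems
-/

set_option autoImplicit false

namespace Pool.Agent.MSD

open Pool.Agent.H19 Pool.Agent.H19.T Pool.Agent.PO Pool.Agent.S2L Pool.Agent.RU Pool.Agent.Q2E

/-! ### Searching for the first decisive stage -/

open Classical in
/-- The stages of the algorithm. -/
noncomputable def stepG (YA NA : T → Prop) (σ : T) : T :=
  if YA σ.right then T.node T.leaf (T.node T.leaf T.leaf)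
    else if NA σ.right then T.node T.leaf T.leaf
    else T.node (T.node T.leaf T.leaf) (T.node (T.node T.leaf σ.right.left) σ.right.right)

theorem stepG_yes {YA NA : T → Prop} {r w : T} (hw : YA w) :
    stepG YA NA (T.node r w) = T.node T.leaf (T.node T.leaf T.leaf) := by
  unfold stepG
  rw [if_pos (show YA (T.node r w).right from hw)]

theorem stepG_no {YA NA : T → Prop} {r w : T} (hw : ¬ YA w) (hw' : NA w) :
    stepG YA NA (T.node r w) = T.node T.leaf T.leaf := by
  unfold stepG
  rw [if_neg (show ¬ YA (T.node r w).right from hw),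
    if_pos (show NA (T.node r w).right from hw')]

theorem stepG_else {YA NA : T → Prop} {r w : T} (hw : ¬ YA w) (hw' : ¬ NA w) :
    stepG YA NA (T.node r w) =
      T.node (T.node T.leaf T.leaf) (T.node (T.node T.leaf w.left) w.right) := by
  unfold stepG
  rw [if_neg (show ¬ YA (T.node r w).right from hw),
    if_neg (show ¬ NA (T.node r w).right from hw')]
  rfl

theorem stepG_polyTime {YA NA : T → Prop} (hY : PolyDec YA) (hN : PolyDec NA) :
    PolyTime (stepG YA NA) := by
  classical
  have i := PolyTime.id
  have h1 : PolyDec (fun σ : T => YA σ.right) := hY.comp i.right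
  have h2 : PolyDec (fun σ : T => NA σ.right) := hN.comp i.right
  refine (PolyTime.ifP h1 (PolyTime.const (T.node T.leaf (T.node T.leaf T.leaf)))
    (PolyTime.ifP h2 (PolyTime.const (T.node T.leaf T.leaf))
      ((PolyTime.const (T.node T.leaf T.leaf)).node (((PolyTime.const T.leaf).node
        i.right.left).node i.right.right)))).congr fun σ => ?_
  unfold stepG
  by_cases h3 : YA σ.right <;> by_cases h4 : NA σ.right <;> simp [h3, h4]

theorem iterate_stepG {YA NA : T → Prop} {X : T} {S : ℕ}
    (hS : ∀ j < S, ¬ (YA (T.node (T.unary j) X) ∨ NA (T.node (T.unary j) X))) (i : ℕ)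
    (hi : i ≤ S) :
    (stepG YA NA)^[i] (T.node (T.node T.leaf T.leaf) (T.node T.leaf X)) =
      T.node (T.node T.leaf T.leaf) (T.node (T.unary i) X) := by
  induction i with
  | zero => rfl
  | succ i ih =>
    rw [Function.iterate_succ_apply', ih (by omega)]
    have h1 := hS i (by omega)
    push Not at h1
    rw [stepG_else h1.1 h1.2]
    rfl

/-- The run of the algorithm. -/
theorem alg_runG {YA NA : T → Prop} (hY : PolyDec YA) (hN : PolyDec NA) :
    ∃ (d : Code) (K : ℕ), ∀ (X : T) (S : ℕ),
      (∀ j < S, ¬ (YA (T.node (T.unary j) X) ∨ NA (T.node (T.unary j) X))) →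
      (YA (T.node (T.unary S) X) ∨ NA (T.node (T.unary S) X)) →
      ∃ (y : T) (t : ℕ), Eval d X y t ∧ t ≤ (S + X.size + 2) ^ K ∧
        ((YA (T.node (T.unary S) X) ∧ y ≠ T.leaf) ∨
          (¬ YA (T.node (T.unary S) X) ∧ NA (T.node (T.unary S) X) ∧ y = T.leaf)) := by
  classical
  obtain ⟨cs, ks, hcs⟩ := stepG_polyTime hY hN
  have i := PolyTime.id
  have hinit : PolyTime (fun X => T.node (T.node T.leaf T.leaf) (T.node T.leaf X)) :=
    (PolyTime.const _).node ((PolyTime.const _).node i)
  obtain ⟨ci, ki, hci⟩ := hinit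
  have hpoly : PolyB (fun n => (n + 2) ^ ki + (n + 2) * (((2 * n + 8) ^ ks + (2 * n + 8)) + 1) +
      1) := by
    have h1 : ∀ m, PolyB (fun n => (n + 2) ^ m) := fun m => ⟨m, fun n => le_rfl⟩
    have h2 : PolyB (fun n => 2 * n + 8) :=
      ((PolyB.const 2).mul PolyB.id).add (PolyB.const 8)
    exact ((h1 ki).add ((PolyB.id.add (PolyB.const 2)).mul (((h2.pow ks).add h2).add
      (PolyB.const 1)))).add (PolyB.const 1)
  obtain ⟨K, hK⟩ := hpoly
  refine ⟨Code.comp (Code.loop cs) ci, K, fun X S hS hdec => ?_⟩
  set s0 : T := T.node (T.node T.leaf T.leaf) (T.node T.leaf X) with hs0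
  set f := stepG YA NA with hf
  have hit := iterate_stepG hS
  -- the last state
  have hlast : f^[S + 1] s0 = (if YA (T.node (T.unary S) X) then
      T.node T.leaf (T.node T.leaf T.leaf) else T.node T.leaf T.leaf) := by
    rw [Function.iterate_succ_apply', hs0, hf, hit S le_rfl]
    by_cases h1 : YA (T.node (T.unary S) X)
    · rw [if_pos h1, stepG_yes h1]
    · have h2 : NA (T.node (T.unary S) X) := hdec.resolve_left h1
      rw [if_neg h1, stepG_no h1 h2]
  have hsz : ∀ j ≤ S, (f^[j] s0).size + 2 ≤ 2 * (S + X.size) + 8 := by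
    intro j hj
    rw [hs0, hf, hit j hj]
    simp only [T.size, T.size_unary]
    omega
  have hleft : (f^[S + 1] s0).left = T.leaf := by
    rw [hlast]
    split_ifs <;> rfl
  obtain ⟨ti, hti, htib⟩ := hci X
  obtain ⟨t, ht, htb⟩ := Eval.loop_of_iterate (c := cs) (f := f)
    (B := (2 * (S + X.size) + 8) ^ ks + (2 * (S + X.size) + 8)) (S + 1) s0
    (fun j hj => by
      rw [hs0, hf, hit j (by omega)]
      simp)
    hleft
    (fun j hj => by
      obtain ⟨t, ht, hb⟩ := hcs (f^[j] s0)
      refine ⟨t, ht, hb.trans ?_⟩
      have := Nat.pow_le_pow_left (hsz j (by omega)) ks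
      omega)
    (fun j hj => by
      rcases Nat.lt_or_ge S j with h1 | h1
      · obtain rfl : j = S + 1 := by omega
        rw [hlast]
        split_ifs <;> simp only [T.size] <;> omega
      · have := hsz j h1
        omega)
  refine ⟨(f^[S + 1] s0).right, _, Eval.comp hti ht, ?_, ?_⟩
  · have h1 := hK (S + X.size)
    have h2 : (X.size + 2) ^ ki ≤ (S + X.size + 2) ^ ki := Nat.pow_le_pow_left (by omega) _
    have h3 : (S + 1 + 1) * ((2 * (S + X.size) + 8) ^ ks + (2 * (S + X.size) + 8) + 1) ≤
        (S + X.size + 2) * ((2 * (S + X.size) + 8) ^ ks + (2 * (S + X.size) + 8) + 1) :=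
      Nat.mul_le_mul_right _ (by omega)
    have h4 : (fun n => (n + 2) ^ ki + (n + 2) * (((2 * n + 8) ^ ks + (2 * n + 8)) + 1) + 1)
        (S + X.size) = (S + X.size + 2) ^ ki + (S + X.size + 2) *
          (((2 * (S + X.size) + 8) ^ ks + (2 * (S + X.size) + 8)) + 1) + 1 := rfl
    rw [h4] at h1
    omega
  · rw [hlast]
    by_cases h1 : YA (T.node (T.unary S) X)
    · left
      rw [if_pos h1]
      exact ⟨h1, by simp⟩
    · right
      rw [if_neg h1]
      exact ⟨h1, hdec.resolve_left h1, rfl⟩

/-- The stage is so late that the search is stopped. -/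
def TimeOut (w : T) : Prop := w.right.right.len < (bl w.left.len).len

theorem timeOut_polyDec : PolyDec TimeOut := by
  have i := PolyTime.id
  exact PolyDec.lt' (PolyNat.len i.right.right) (PolyNat.len (PolyNat.len i.left).toN)

theorem timeOut_iff (j n : ℕ) (c : T) :
    TimeOut (T.node (T.unary j) (T.node c (T.unary n))) ↔ 2 ^ n ≤ j := by
  unfold TimeOut
  simp only [T.left_node, T.right_node, T.len_unary]
  rw [bl_len, Nat.lt_size]

/-- The one-sided decider, from a p-optimal proof system for the set `XB`. -/
theorem one_of_opt {Q : Code → Prop} {XB : Set T} (hB : HasPOptimal XB)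
    (h1 : ∀ (c : Code) (κ : ℕ), HaltsWithin c κ → Q c → ∀ n, TotalUpTo c n →
      T.node c.enc (T.node (T.unary n) (T.unary ((2 * n + 3) ^ κ))) ∈ XB)
    (h2 : ∀ (c : Code) (κ : ℕ), HaltsWithin c κ → Q c → ∀ V ∈ XB, ∀ n, V.left = c.enc →
      V.right.left = T.unary n → TotalUpTo c n) : OneSided Q := by
  classical
  obtain ⟨hs, hs2, hs3⟩ := SIMF_thm
  obtain ⟨h, hh, hhopt⟩ := hB
  obtain ⟨d, K, hd⟩ := alg_runG (yesAt_polyDec hs hh.1) timeOut_polyDec
  refine ⟨d, fun c hc hQ => ?_⟩
  obtain ⟨κ, hκ⟩ := hc
  have hX : ∀ n S, YesAt h (T.node (T.unary S) (T.node c.enc (T.unary n))) → TotalUpTo c n := by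
    rintro n S ⟨_, _, h5, h6⟩
    exact h2 c κ hκ hQ _ (hh.2 ▸ Set.mem_range_self _) n h5 h6
  have hex : ∀ n, ∃ S, YesAt h (T.node (T.unary S) (T.node c.enc (T.unary n))) ∨
      TimeOut (T.node (T.unary S) (T.node c.enc (T.unary n))) :=
    fun n => ⟨2 ^ n, Or.inr ((timeOut_iff _ _ _).2 le_rfl)⟩
  -- the run
  have hrun : ∀ n, ∀ S', (YesAt h (T.node (T.unary S') (T.node c.enc (T.unary n))) ∨
      TimeOut (T.node (T.unary S') (T.node c.enc (T.unary n)))) →
      ∃ S ≤ S', ∃ (y : T) (t : ℕ), Eval d (T.node c.enc (T.unary n)) y t ∧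
        t ≤ (S + (T.node c.enc (T.unary n)).size + 2) ^ K ∧
        ((YesAt h (T.node (T.unary S) (T.node c.enc (T.unary n))) ∧ y ≠ T.leaf) ∨
          (TimeOut (T.node (T.unary S) (T.node c.enc (T.unary n))) ∧ y = T.leaf)) := by
    intro n S' hS'
    have hE : ∃ S, (YesAt h (T.node (T.unary S) (T.node c.enc (T.unary n))) ∨
      TimeOut (T.node (T.unary S) (T.node c.enc (T.unary n)))) := ⟨S', hS'⟩
    have hmin := Nat.find_min' hE hS'
    have hdec := Nat.find_spec hE
    set S := Nat.find hE with hS
    obtain ⟨y, t, hev, ht, hy⟩ := hd (T.node c.enc (T.unary n)) S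
      (fun j hj => Nat.find_min hE hj) hdec
    refine ⟨S, hmin, y, t, hev, ht, ?_⟩
    rcases hy with h5 | ⟨_, h5, h6⟩
    · exact Or.inl h5
    · exact Or.inr ⟨h5, h6⟩
  refine ⟨fun n => ?_, fun hall => ?_⟩
  · obtain ⟨S', hS'⟩ := hex n
    obtain ⟨S, _, y, t, hev, _, hy⟩ := hrun n S' hS'
    refine ⟨y, t, hev, fun hne => ?_⟩
    rcases hy with ⟨h5, _⟩ | ⟨_, h5⟩
    · exact hX n S h5
    · exact absurd h5 hne
  · -- decisive stages
    have dY : ∀ (a : Code) (n : ℕ) (v : T) (t : ℕ), Eval a (T.unary n) v t →
        (h v).left = c.enc → (h v).right.left = T.unary n →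
        YesAt h (T.node (T.unary (2 ^ tc (T.node T.leaf a.enc) * (2 * t + 1)))
          (T.node c.enc (T.unary n))) := by
      intro a n v t hev hl hr
      have he : simulF (T.node a.enc (T.node (T.unary n)
          (T.unary (2 ^ tc (T.node T.leaf a.enc) * (2 * t + 1))))) = T.node T.leaf v := by
        refine hs2 a _ v t _ hev ?_
        have : 1 ≤ 2 ^ tc (T.node T.leaf a.enc) := Nat.one_le_two_pow
        nlinarith
      unfold YesAt
      rw [cand_spec]
      simp only [T.right_node, T.left_node]
      rw [he]
      exact ⟨trivial, by simp, hl, hr⟩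
    -- polynomial bound for the first decisive stage
    have hbound : ∃ β : ℕ → ℕ, PolyB β ∧ ∀ n, ∃ S ≤ β n,
        YesAt h (T.node (T.unary S) (T.node c.enc (T.unary n))) := by
      have i := PolyTime.id
      let g : T → T := fun w => tif w.left (h w.right) (T.node c.enc
        (T.node (T.unary w.right.len) (T.unary ((2 * w.right.len + 3) ^ κ))))
      have hg : PolyTime g := i.left.tif (hh.1.comp i.right) ((PolyTime.const _).node
        ((PolyNat.len i.right).unary.node ((((PolyNat.const 2).mul (PolyNat.len i.right)).add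
          (PolyNat.const 3)).pow κ).unary))
      have hrange : Set.range g = XB := by
        ext V
        constructor
        · rintro ⟨w, rfl⟩
          simp only [g, tif]
          split_ifs with hw
          · rw [← hh.2]
            exact ⟨_, rfl⟩
          · exact h1 c κ hκ hQ _ (hall _)
        · intro hV
          rw [← hh.2] at hV
          obtain ⟨w, rfl⟩ := hV
          exact ⟨T.node T.leaf w, by simp [g]⟩
      obtain ⟨t, ht, htg⟩ := hhopt g ⟨hg, hrange⟩
      obtain ⟨a, j, ha⟩ := ht.comp ((PolyTime.const (T.node T.leaf T.leaf)).node i)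
      refine ⟨fun n => 2 ^ tc (T.node T.leaf a.enc) * (2 * (2 * n + 3) ^ j + 1), ?_, fun n => ?_⟩
      · exact (PolyB.const _).mul (((PolyB.const 2).mul ((((PolyB.const 2).mul PolyB.id).add
          (PolyB.const 3)).pow j)).add (PolyB.const 1))
      · obtain ⟨t', ht', hb⟩ := ha (T.unary n)
        have hgn := htg (T.node (T.node T.leaf T.leaf) (T.unary n))
        simp only [g, T.left_node, T.right_node, T.len_unary, tif_node] at hgn
        refine ⟨_, ?_, dY a n _ t' ht' (by rw [hgn]; rfl) (by rw [hgn]; rfl)⟩
        apply Nat.mul_le_mul_left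
        have h5 : ((T.unary n).size + 2) ^ j = (2 * n + 3) ^ j := by
          rw [T.size_unary]
        rw [h5] at hb
        omega
    obtain ⟨β, hβ, hSβ⟩ := hbound
    obtain ⟨kβ, hkβ⟩ := id hβ
    obtain ⟨n₀, hn₀⟩ := pow_bound (kβ + 1) 1
    have hpoly : PolyB (fun n => (β n + (c.enc.size + (2 * n + 1) + 1) + 2) ^ K) :=
      ((hβ.add (((PolyB.const c.enc.size).add (((PolyB.const 2).mul PolyB.id).add
        (PolyB.const 1))).add (PolyB.const 1))).add (PolyB.const 2)).pow K
    obtain ⟨k, hk⟩ := hpoly
    refine ⟨k, n₀, fun n hn => ?_⟩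
    obtain ⟨S', hS', hyes⟩ := hSβ n
    obtain ⟨S, hSS, y, t, hev, ht, hy⟩ := hrun n S' (Or.inl hyes)
    refine ⟨y, t, hev, ht.trans (le_trans ?_ (hk n)), ?_⟩
    · apply Nat.pow_le_pow_left
      simp only [T.size, T.size_unary]
      omega
    · rcases hy with ⟨_, h6⟩ | ⟨h5, _⟩
      · exact h6
      · exfalso
        rw [timeOut_iff] at h5
        have h6 := hn₀ n hn
        have h7 := hkβ n
        rw [pow_one, pow_succ] at h6
        have h8 : 1 ≤ (n + 2) ^ kβ := Nat.one_le_pow _ _ (by omega)
        nlinarith

/-! ### Simulation of the programs -/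

theorem sim_of_cacc {c : Code} {κ : ℕ} (hκ : HaltsWithin c κ) {y z : T} {n : ℕ} (hy : y.size ≤ n)
    (hz : z.size ≤ y.size) (h : CAcc c y z) :
    (simulF (T.node c.enc (T.node (T.node y z) (T.unary ((2 * n + 3) ^ κ))))).right ≠ T.leaf := by
  obtain ⟨hs, hs2, hs3⟩ := SIMF_thm
  obtain ⟨v, t, hev, hne⟩ := h
  obtain ⟨v', t', hev', ht'⟩ := hκ (T.node y z)
  obtain ⟨rfl, rfl⟩ := hev.det hev'
  rw [hs2 c _ v t _ hev (ht'.trans ?_), T.right_node]
  · exact hne
  · apply Nat.pow_le_pow_left
    simp only [T.size]
    omega

theorem cacc_of_sim {c : Code} {κ : ℕ} (hκ : HaltsWithin c κ) {y z p : T}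
    (h : (simulF (T.node c.enc (T.node (T.node y z) p))).right ≠ T.leaf) : CAcc c y z := by
  obtain ⟨hs, hs2, hs3⟩ := SIMF_thm
  obtain ⟨v, t, hev, _⟩ := hκ (T.node y z)
  refine ⟨v, t, hev, ?_⟩
  rcases hs3 c _ v p t hev with h5 | h5
  · rw [h5] at h
    exact absurd rfl h
  · rw [h5] at h
    exact h

/-! ### The set in coNP -/

/-- Some candidate of the special form is accepted within the budget. -/
def Cand (c y p : T) : Prop :=
  (simulF (T.node c (T.node (T.node y T.leaf) p))).right ≠ T.leaf ∨
    ∃ i < y.size, 2 * i + 3 ≤ y.size ∧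
      (simulF (T.node c (T.node (T.node y (T.node (T.unary i) T.leaf)) p))).right ≠ T.leaf

/-- The instances `node c (node n pad)` such that for every `y` of size at most `n` a candidate
of the special form is accepted within the budget `pad`. -/
def XB1 : Set T := {X | ∀ y : T, y.size ≤ X.right.left.len → Cand X.left y X.right.right}

theorem XB1_coNP : InCoNP XB1 := by
  obtain ⟨hs, hs2, hs3⟩ := SIMF_thm
  have i := PolyTime.id
  have hsz : PolyTime (fun w : T => w.right) := i.right
  have hball := PolyDec.ball (P := fun v : T => ¬ (2 * v.right.len + 3 ≤ v.left.right.size ∧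
      (simulF (T.node v.left.left.left (T.node (T.node v.left.right
        (T.node (T.unary v.right.len) T.leaf)) v.left.left.right.right))).right ≠ T.leaf))
      (((PolyDec.le (((PolyNat.const 2).mul (PolyNat.len i.right)).add (PolyNat.const 3))
        (PolyNat.size i.left.right)).and (PolyDec.ne_leaf (hs.comp (i.left.left.left.node
          ((i.left.right.node ((PolyNat.len i.right).unary.node PolyTime.leaf)).node
            i.left.left.right.right))).right)).not) (PolyNat.size hsz)
  have hdec : PolyDec (fun w : T => w.right.size ≤ w.left.right.left.len ∧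
      ¬ Cand w.left.left w.right w.left.right.right) := by
    refine ((PolyDec.le (PolyNat.size i.right) (PolyNat.len i.left.right.left)).and
      ((PolyDec.eq_leaf (hs.comp (i.left.left.node ((i.right.node PolyTime.leaf).node
        i.left.right.right))).right).and hball)).congr fun w => ?_
    refine and_congr_right fun _ => ?_
    unfold Cand
    push Not
    simp only [T.left_node, T.right_node, T.len_unary]
  obtain ⟨f, hf, hf2⟩ := hdec
  refine ⟨f, 1, hf, fun X => ⟨fun hX => ?_, ?_⟩⟩
  · have hX' : ¬ ∀ y : T, y.size ≤ X.right.left.len → Cand X.left y X.right.right := hX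
    push Not at hX'
    obtain ⟨y, hy, hc⟩ := hX'
    have h1 : X.right.left.len < X.size := by
      have h2 := T.len_lt_size X.right.left
      have h3 := T.size_left_le X.right
      have h4 := T.size_right_le X
      omega
    exact ⟨y, by rw [pow_one]; omega, (hf2 _).1 ⟨hy, hc⟩⟩
  · rintro ⟨y, _, hy2⟩ hX
    obtain ⟨h1, h2⟩ := (hf2 _).2 hy2
    exact h2 (hX y h1)

theorem XB1_nonempty : XB1.Nonempty := by
  refine ⟨T.leaf, fun y hy => ?_⟩
  have := T.size_pos y
  simp at hy
  omega

/-- If all sets in coNP have p-optimal proof systems, totality is decidable on one side for the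
programs with the property `QB`. -/
theorem one_coNP (hopt : ∀ A : Set T, A.Nonempty → InCoNP A → HasPOptimal A) : OneSided QB := by
  refine one_of_opt (hopt XB1 XB1_nonempty XB1_coNP) ?_ ?_
  · intro c κ hκ hQ n hn y hy
    simp only [T.right_node, T.left_node, T.len_unary] at hy ⊢
    obtain ⟨z, hz, hz2⟩ := hn y hy
    rcases hQ y z hz hz2 with h | ⟨i, hi, h⟩
    · exact Or.inl (sim_of_cacc hκ hy (T.size_pos y) h)
    · refine Or.inr ⟨i, by omega, hi, sim_of_cacc hκ hy ?_ h⟩
      simp only [T.size, T.size_unary]
      omega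
  · intro c κ hκ _ V hV n hl hr y hy
    have h1 := hV y (by rw [hr, T.len_unary]; exact hy)
    rw [hl] at h1
    rcases h1 with h | ⟨i, _, hi, h⟩
    · exact ⟨T.leaf, T.size_pos y, cacc_of_sim hκ h⟩
    · refine ⟨T.node (T.unary i) T.leaf, ?_, cacc_of_sim hκ h⟩
      simp only [T.size, T.size_unary]
      omega

/-! ### The set in NP -/

theorem tri_size (s r v : ℕ) : (tri s r v).size = 2 * s + 2 * r + 2 * v + 7 := by
  simp only [tri, T.size, T.size_unary]
  ring

/-- The instances `node c (node n pad)` such that for every instance of size at most `n`, given by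
three numbers, a candidate is accepted within the budget `pad`. -/
def XB2 : Set T := {X | ∀ s r v : ℕ, (tri s r v).size ≤ X.right.left.len →
  ∃ z : T, z.size ≤ (tri s r v).size ∧
    (simulF (T.node X.left (T.node (T.node (tri s r v) z) X.right.right))).right ≠ T.leaf}

theorem XB2_NP : InNP XB2 := by
  classical
  obtain ⟨hs, hs2, hs3⟩ := SIMF_thm
  have i := PolyTime.id
  have hN := PolyNat.len (f := fun u : T => u.left.left.left.left.right.left)
    i.left.left.left.left.right.left
  have htri : PolyTime (fun u : T => tri u.left.left.right.len u.left.right.len u.right.len) :=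
    (PolyNat.len i.left.left.right).unary.node ((PolyNat.len i.left.right).unary.node
      ((PolyNat.len i.right).unary.node PolyTime.leaf))
  have hz : PolyTime (fun u : T => nthT (nthT (nthT u.left.left.left.right
      u.left.left.right.len) u.left.right.len) u.right.len) :=
    Lk.nthT_poly _ _ (Lk.nthT_poly _ _ (Lk.nthT_poly _ _ i.left.left.left.right
      (PolyNat.len i.left.left.right)) (PolyNat.len i.left.right)) (PolyNat.len i.right)
  have hP : PolyDec (fun u : T => u.left.left.left.left.right.left.len <
      (tri u.left.left.right.len u.left.right.len u.right.len).size ∨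
      ((nthT (nthT (nthT u.left.left.left.right u.left.left.right.len) u.left.right.len)
        u.right.len).size ≤ (tri u.left.left.right.len u.left.right.len u.right.len).size ∧
      (simulF (T.node u.left.left.left.left.left (T.node (T.node
        (tri u.left.left.right.len u.left.right.len u.right.len)
        (nthT (nthT (nthT u.left.left.left.right u.left.left.right.len) u.left.right.len)
          u.right.len)) u.left.left.left.left.right.right))).right ≠ T.leaf)) :=
    (PolyDec.lt' hN (PolyNat.size htri)).or ((PolyDec.le (PolyNat.size hz)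
      (PolyNat.size htri)).and (PolyDec.ne_leaf (hs.comp (i.left.left.left.left.left.node
        ((htri.node hz).node i.left.left.left.left.right.right))).right))
  have h1 := PolyDec.ball hP (n := fun u : T => u.left.left.left.right.left.len)
    (PolyNat.len i.left.left.left.right.left)
  have h2 := PolyDec.ball h1 (n := fun u : T => u.left.left.right.left.len)
    (PolyNat.len i.left.left.right.left)
  have h3 := PolyDec.ball h2 (n := fun u : T => u.left.right.left.len)
    (PolyNat.len i.left.right.left)
  obtain ⟨f, hf, hf2⟩ := h3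
  refine ⟨f, 4, hf, fun X => ?_⟩
  constructor
  · intro hX
    have hX' : ∀ s r v : ℕ, ∃ z : T, (tri s r v).size ≤ X.right.left.len →
        z.size ≤ (tri s r v).size ∧
        (simulF (T.node X.left (T.node (T.node (tri s r v) z) X.right.right))).right ≠
          T.leaf := by
      intro s r v
      by_cases hsz : (tri s r v).size ≤ X.right.left.len
      · obtain ⟨z, hz1, hz2⟩ := hX s r v hsz
        exact ⟨z, fun _ => ⟨hz1, hz2⟩⟩
      · exact ⟨T.leaf, fun h => absurd h hsz⟩
    choose z₀ hz₀ using hX'
    set N := X.right.left.len with hNdef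
    -- the solutions, with the bound
    let z : ℕ → ℕ → ℕ → T := fun s r v => if (tri s r v).size ≤ N then z₀ s r v else T.leaf
    have hzs : ∀ s r v, (z s r v).size ≤ N + 1 := by
      intro s r v
      by_cases hsz : (tri s r v).size ≤ N
      · have := (hz₀ s r v hsz).1
        simp only [z, if_pos hsz]
        omega
      · simp only [z, if_neg hsz, T.size]
        omega
    let W : T := encL ((List.range N).map fun s => encL ((List.range N).map fun r =>
      encL ((List.range N).map fun v => z s r v)))
    have hW1 : ∀ s r, (encL ((List.range N).map fun v => z s r v)).size ≤ N * (N + 2) + 1 := by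
      intro s r
      have := encL_size (l := (List.range N).map fun v => z s r v) (M := N + 1) (by
        intro a ha
        obtain ⟨v, _, rfl⟩ := List.mem_map.1 ha
        exact hzs s r v)
      rwa [List.length_map, List.length_range] at this
    have hW2 : ∀ s, (encL ((List.range N).map fun r =>
        encL ((List.range N).map fun v => z s r v))).size ≤ N * (N * (N + 2) + 1 + 1) + 1 := by
      intro s
      have := encL_size (l := (List.range N).map fun r =>
        encL ((List.range N).map fun v => z s r v)) (M := N * (N + 2) + 1) (by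
        intro a ha
        obtain ⟨r, _, rfl⟩ := List.mem_map.1 ha
        exact hW1 s r)
      rwa [List.length_map, List.length_range] at this
    have hW3 : W.size ≤ N * (N * (N * (N + 2) + 1 + 1) + 1 + 1) + 1 := by
      have := encL_size (l := (List.range N).map fun s => encL ((List.range N).map fun r =>
        encL ((List.range N).map fun v => z s r v))) (M := N * (N * (N + 2) + 1 + 1) + 1) (by
        intro a ha
        obtain ⟨s, _, rfl⟩ := List.mem_map.1 ha
        exact hW2 s)
      rwa [List.length_map, List.length_range] at this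
    have hNX : N < X.size := by
      have h2 := T.len_lt_size X.right.left
      have h3 := T.size_left_le X.right
      have h4 := T.size_right_le X
      omega
    refine ⟨W, ?_, (hf2 _).1 ?_⟩
    · have h5 : N * (N * (N * (N + 2) + 1 + 1) + 1 + 1) + 1 ≤ (N + 2) ^ 4 := by
        ring_nf
        nlinarith [Nat.zero_le N, Nat.zero_le (N ^ 2), Nat.zero_le (N ^ 3)]
      exact (hW3.trans h5).trans (Nat.pow_le_pow_left (by omega) 4)
    · intro s hs' r hr' v hv'
      simp only [T.left_node, T.right_node, T.len_unary] at hs' hr' hv' ⊢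
      have e : nthT (nthT (nthT W s) r) v = z s r v := by
        simp only [W]
        rw [nthT_encL (by rw [List.length_map, List.length_range]; exact hs'),
          List.getElem_map, List.getElem_range,
          nthT_encL (by rw [List.length_map, List.length_range]; exact hr'),
          List.getElem_map, List.getElem_range,
          nthT_encL (by rw [List.length_map, List.length_range]; exact hv'),
          List.getElem_map, List.getElem_range]
      rw [e]
      by_cases hsz : (tri s r v).size ≤ N
      · right
        simp only [z, if_pos hsz]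
        exact hz₀ s r v hsz
      · exact Or.inl (by omega)
  · rintro ⟨W, _, hW⟩ s r v hsz
    have h4 := (hf2 _).2 hW
    have h5 := tri_size s r v
    have h6 := h4 s (by simp only [T.left_node]; omega) r (by simp only [T.left_node]; omega) v
      (by simp only [T.left_node]; omega)
    simp only [T.left_node, T.right_node, T.len_unary] at h6
    rcases h6 with h6 | h6
    · omega
    · exact ⟨_, h6⟩

theorem XB2_nonempty : XB2.Nonempty := by
  refine ⟨T.leaf, fun s r v hy => ?_⟩
  have := tri_size s r v
  simp at hy
  omega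

/-- If all sets in NP have p-optimal proof systems, totality is decidable on one side for the
programs with the property `QC`. -/
theorem one_NP (hopt : ∀ A : Set T, A.Nonempty → InNP A → HasPOptimal A) : OneSided QC := by
  refine one_of_opt (hopt XB2 XB2_nonempty XB2_NP) ?_ ?_
  · intro c κ hκ hQ n hn s r v hsz
    simp only [T.right_node, T.left_node, T.len_unary] at hsz ⊢
    obtain ⟨z, hz, hz2⟩ := hn _ hsz
    exact ⟨z, hz, sim_of_cacc hκ hsz hz hz2⟩
  · intro c κ hκ hQ V hV n hl hr y hy
    rcases hQ y with h | ⟨h1, h2⟩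
    · exact h
    · obtain ⟨z, hz, h3⟩ := hV (qs y) (qr y) (qv y) (by rw [hr, T.len_unary]; omega)
      rw [hl] at h3
      exact ⟨z, hz.trans h1, h2 z (cacc_of_sim hκ h3)⟩

/-! ### Hard sets -/

/-- The set `A` is reducible to the set `H`. -/
def ManyOne (A H : Set T) : Prop := ∃ r : T → T, PolyTime r ∧ ∀ x, x ∈ A ↔ r x ∈ H

theorem opt_of_hard {A H : Set T} (hA : A.Nonempty) (hr : ManyOne A H) (hH : HasPOptimal H) :
    HasPOptimal A := by
  classical
  obtain ⟨a₀, ha₀⟩ := hA
  obtain ⟨r, hr1, hr2⟩ := hr
  obtain ⟨h, ⟨hh, hhH⟩, hopt⟩ := hH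
  have i := PolyTime.id
  -- proofs of `x` are pairs of `x` and a proof of `r x`
  let p : T → T := fun w => if h w.right = r w.left then w.left else a₀
  have hp : PolyTime p := by
    refine (PolyTime.ifP (PolyDec.eq (hh.comp i.right) (hr1.comp i.left)) i.left
      (PolyTime.const a₀)).congr fun w => ?_
    by_cases hw : h w.right = r w.left <;> simp [p, hw]
  have hpA : ∀ w, p w ∈ A := by
    intro w
    by_cases hw : h w.right = r w.left
    · simp only [p, if_pos hw]
      rw [hr2, ← hw, ← hhH]
      exact ⟨_, rfl⟩
    · simp only [p, if_neg hw]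
      exact ha₀
  have hsim : ∀ g : T → T, PolyTime g → (∀ w, g w ∈ A) → PSimulates p g := by
    intro g hg hgA
    let q : T → T := fun w => tif w.left (h w.right) (r (g w.right))
    have hq : PolyTime q := i.left.tif (hh.comp i.right) (hr1.comp (hg.comp i.right))
    have hqH : Set.range q = H := by
      ext x
      constructor
      · rintro ⟨w, rfl⟩
        simp only [q, tif]
        split_ifs
        · rw [← hhH]
          exact ⟨_, rfl⟩
        · exact (hr2 _).1 (hgA _)
      · intro hx
        rw [← hhH] at hx
        obtain ⟨w, rfl⟩ := hx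
        exact ⟨T.node T.leaf w, by simp [q]⟩
    obtain ⟨t, ht, htq⟩ := hopt q ⟨hq, hqH⟩
    refine ⟨fun w => T.node (g w) (t (T.node (T.node T.leaf T.leaf) w)),
      hg.node (ht.comp ((PolyTime.const _).node i)), fun w => ?_⟩
    have h1 := htq (T.node (T.node T.leaf T.leaf) w)
    simp only [q, T.left_node, T.right_node, tif_node] at h1
    exact if_pos (show h (T.node (g w) (t (T.node (T.node T.leaf T.leaf) w))).right =
      r (T.node (g w) (t (T.node (T.node T.leaf T.leaf) w))).left from h1)
  refine ⟨p, ⟨hp, ?_⟩, fun g hg => hsim g hg.1 fun w => hg.2 ▸ Set.mem_range_self w⟩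
  ext x
  constructor
  · rintro ⟨w, rfl⟩
    exact hpA w
  · intro hx
    obtain ⟨t, _, ht⟩ := hsim (fun _ => x) (PolyTime.const x) fun _ => hx
    exact ⟨t T.leaf, ht T.leaf⟩

end Pool.Agent.MSD
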