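import Pool.Agent.MSD.Final
import Pool.Agent.MSD.One
import Pool.Agent.MSD.Flip

/-!
# p-optimal proof systems for hard sets, and p-measure
-/

set_option autoImplicit false

namespace Pool.Agent.MSD

open Pool.Agent.H19 Pool.Agent.H19.T Pool.Agent.PO Pool.Agent.S2L Pool.Agent.RU Pool.Agent.Q2E

/-! ### Flags of one-sided deciders -/

theorem flag_total' {f : T → T} {t : ℕ → ℕ} {d fC c : Code} (hS : SIMF_stmt)
    (hft : ∀ m s : ℕ, f (T.node (T.unary m) (T.unary s)) ≠ T.leaf ↔ s = t m) {κf : ℕ}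
    (hfC : ∀ x, ∃ u, Eval fC x (f x) u ∧ u ≤ (x.size + 2) ^ κf)
    (hk : ∀ n : ℕ, ∃ (y : T) (u : ℕ), Eval d (T.node c.enc (T.unary n)) y u ∧
      (y ≠ T.leaf → TotalUpTo c n)) {s : ℕ}
    (h : Flag d.enc fC.enc c.enc s) : TotalUpTo c (nn s (t (W s + 1))) := by
  obtain ⟨_, _, hs3⟩ := hS
  obtain ⟨σ, _, h1, h2⟩ := h
  obtain ⟨u, hu, _⟩ := hfC (T.node (T.unary (W s + 1)) (T.unary σ))
  have h3 : σ = t (W s + 1) := by
    rw [← hft]
    rcases hs3 fC _ _ (T.unary (N s)) u hu with h4 | h4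
    · rw [h4] at h1
      exact absurd rfl h1
    · rw [h4] at h1
      exact h1
  obtain ⟨y, u', hy, hy2⟩ := hk (nn s σ)
  rw [← h3]
  apply hy2
  rcases hs3 d _ _ (T.unary (N s)) u' hy with h4 | h4
  · rw [h4] at h2
    exact absurd rfl h2
  · rw [h4] at h2
    exact h2

theorem flag_of_total' {f : T → T} {t : ℕ → ℕ} {d fC c : Code} (hS : SIMF_stmt)
    (harith : ARITH_stmt)
    (hsub : ∀ e : ℕ, ∃ m₀ : ℕ, ∀ m ≥ m₀, t m ^ e ≤ 2 ^ m)
    (hft : ∀ m s : ℕ, f (T.node (T.unary m) (T.unary s)) ≠ T.leaf ↔ s = t m) {κf : ℕ}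
    (hfC : ∀ x, ∃ u, Eval fC x (f x) u ∧ u ≤ (x.size + 2) ^ κf) {k n₀ : ℕ}
    (hk : ∀ n ≥ n₀, ∃ (y : T) (u : ℕ), Eval d (T.node c.enc (T.unary n)) y u ∧
      u ≤ (n + 2) ^ k ∧ y ≠ T.leaf) :
    ∃ s₀ : ℕ, ∀ s ≥ s₀, Flag d.enc fC.enc c.enc s := by
  obtain ⟨_, hs2, _⟩ := hS
  obtain ⟨s₁, h₁⟩ := harith t hsub k
  obtain ⟨s₂, h₂⟩ := harith t hsub κf
  refine ⟨max n₀ (max s₁ s₂), fun s hs => ?_⟩
  obtain ⟨a1, a2, _⟩ := h₁ s (by omega)
  obtain ⟨_, _, a3⟩ := h₂ s (by omega)
  refine ⟨t (W s + 1), by omega, ?_, ?_⟩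
  · obtain ⟨u, hu, hu2⟩ := hfC (T.node (T.unary (W s + 1)) (T.unary (t (W s + 1))))
    rw [hs2 fC _ _ u (N s) hu (hu2.trans (le_trans (Nat.pow_le_pow_left ?_ _) a3)), T.right_node]
    · exact (hft _ _).2 rfl
    · simp only [T.size, T.size_unary]
      omega
  · have hn : n₀ ≤ nn s (t (W s + 1)) := by
      have h1 : s ≤ nn s (t (W s + 1)) := by
        unfold nn
        nlinarith
      omega
    obtain ⟨y, u, hu, hu2, hy⟩ := hk (nn s (t (W s + 1))) hn
    rw [hs2 d _ _ u (N s) hu (hu2.trans a2), T.right_node]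
    exact hy

/-- The set `A` has a `Σ₂` definition with the bound `t`, for which the search programs have the
property `Q`. -/
def Good (Q : Code → Prop) (A : Set ℕ) : Prop := ∃ t : ℕ → ℕ, SubexpBound t ∧ ∃ B : T → T,
  PolyTime B ∧ (∀ x s : ℕ, s = t x.size → (x ∈ A ↔ ∃ y : T, y.size ≤ s ∧ ∀ z : T, z.size ≤ s →
      B (vin x s y z) ≠ T.leaf)) ∧
  ∀ (f : T → T) (F : ℕ → Prop) (j : ℕ) (c : Code), 1 ≤ j →
    (∀ s ≥ j, j ≤ lev F j s ∧ lev F j s ≤ s) →
    (∀ X z : T, CAcc c X z ↔ Acc (chkB f B) F j X z) → Q c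

theorem measure_of_one {Q : Code → Prop} (hP : PROG_stmt) (h2 : FAIR_stmt) (h3 : WIN1_stmt)
    (h4 : WIN2_stmt) (h5 : MPOLY_stmt) (h6 : ARITH_stmt) (h7 : LEV_stmt) (hS : SIMF_stmt)
    (hX : OneSided Q) :
    PMeasureZero {A' | ∃ A, Good Q A ∧ ∀ x ∈ TestSet, (x ∈ A' ↔ x ∈ A)} := by
  obtain ⟨d, hd⟩ := hX
  obtain ⟨mk, hmk, hprog⟩ := hP d.enc
  refine ⟨DD (Fl d.enc mk), h2 _, h5 _ _ hmk, ?_⟩
  rintro A' ⟨A, ⟨t, ⟨⟨f, hf, hft⟩, hsub⟩, B, hB, hA, hQ⟩, hAA⟩
  obtain ⟨fC, κf, hfC⟩ := id hf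
  obtain ⟨b, kb, hb⟩ := chkB_polyTime hf hB
  -- the parameter
  obtain ⟨e, he⟩ : ∃ e : ℕ, dN e = T.node b.enc fC.enc :=
    ⟨_, dN_cN (X := T.node b.enc fC.enc) (m := (T.node b.enc fC.enc).size + 3) le_rfl⟩
  have hpar : ∀ j : ℕ, ∃ c : Code, (∀ s, Fl d.enc mk e j s ↔ Flag d.enc fC.enc c.enc s) ∧
      (∃ κ, HaltsWithin c κ) ∧ ∀ X z : T,
      (∃ (y : T) (t : ℕ), Eval c (T.node X z) y t ∧ y ≠ T.leaf) ↔
        Acc (chkB f B) (Fl d.enc mk e j) j X z := by
    intro j
    obtain ⟨c, hc1, hc2, hc3⟩ := hprog b (chkB f B) kb hb fC.enc j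
    have h8 : Fl d.enc mk e j = Flag d.enc fC.enc c.enc := by
      funext s
      rw [Fl, he, T.right_node, ← hc1]
    exact ⟨c, fun s => by rw [h8], hc2, by rw [h8]; exact hc3⟩
  -- patterns
  have hpat : ∀ s a, a ≤ s → (Pat A' s a ↔ Pat A s a) := by
    intro s a ha
    refine forall₂_congr fun i hi => hAA _ ⟨s, i, by omega, rfl⟩
  by_cases hcase : ∃ j > e, ∀ s ≥ j, ¬ Pat A s (lev (Fl d.enc mk e j) j s)
  · obtain ⟨j, hj, hno⟩ := hcase
    obtain ⟨c, hF, hhalt, hacc⟩ := hpar j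
    obtain ⟨_, hk⟩ := hd c hhalt (hQ f _ j c (by omega) (h7 _ j).1 hacc)
    have htot := total_of hft hA hacc (h7 _ j).1 hno
    obtain ⟨k, n₀, hk⟩ := hk htot
    obtain ⟨s₀, hs₀⟩ := flag_of_total' hS h6 hsub hft hfC hk
    refine h3 _ A' e j s₀ hj (fun s hs => (hF s).2 (hs₀ s hs)) fun s hs _ => ?_
    rw [hpat s _ ((h7 _ j).1 s hs).2]
    exact hno s hs
  · push Not at hcase
    refine h4 _ A' e fun J => ?_
    obtain ⟨s, hs, hpt⟩ := hcase (max J (e + 1)) (by omega)
    obtain ⟨c, hF, hhalt, hacc⟩ := hpar (max J (e + 1))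
    obtain ⟨hk, _⟩ := hd c hhalt (hQ f _ _ c (by omega) (h7 _ _).1 hacc)
    refine ⟨max J (e + 1), le_max_left _ _, s, hs, fun hfl => ?_, ?_⟩
    · exact not_pat hft hA hacc (h7 _ _).1 hs (flag_total' hS hft hfC hk ((hF s).1 hfl)) hpt
    · rw [hpat s _ ((h7 _ _).1 s hs).2]
      exact hpt

/-! ### The two properties of programs -/

theorem nthT_leaf (b : ℕ) : nthT T.leaf b = T.leaf := by
  have h : T.right^[b] T.leaf = T.leaf := by
    induction b with
    | zero => rfl
    | succ b ih => rw [Function.iterate_succ_apply, T.right_leaf, ih]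
  rw [nthT, h, T.left_leaf]

theorem chkB_leaf (f B : T → T) (x s : ℕ) (y z : T) : chkB f B (vin x s y z) = T.leaf ↔
    f (T.node (T.unary x.size) (T.unary s)) = T.leaf ∨ B (vin x s y z) = T.leaf := by
  have h := chkB_vin f B x s y z
  tauto

/-- If the referee ignores the second player. -/
theorem qb_of {f B : T → T} {F : ℕ → Prop} {j : ℕ} {c : Code}
    (hBz : ∀ x s y z, B (vin x s y z) = T.leaf ↔ B (vin x s y T.leaf) = T.leaf)
    (hacc : ∀ X z : T, CAcc c X z ↔ Acc (chkB f B) F j X z) : QB c := by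
  intro X z hz hc
  rcases (hacc X z).1 hc with hV | ⟨h1, h2, h3⟩
  · exact Or.inl ((hacc _ _).2 (Or.inl hV))
  · have h4 : Sol (chkB f B) F j X (T.node (T.unary z.left.len) T.leaf) := by
      refine ⟨?_, ?_, ?_⟩
      · rw [T.left_node, T.len_unary]
        exact h1
      · exact (T.size_pos _).trans h2
      · rw [T.left_node, T.len_unary, T.right_node, chkB_leaf]
        rw [chkB_leaf, hBz] at h3
        exact h3
    by_cases h0 : z = T.leaf
    · left
      rw [h0] at hc
      exact hc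
    · right
      refine ⟨z.left.len, ?_, (hacc _ _).2 (Or.inr h4)⟩
      have h5 : z.size = z.left.size + z.right.size + 1 := by
        conv_lhs => rw [T.eq_node h0]
        rfl
      have h6 := two_len z.left
      have h7 := T.size_pos z.right
      omega

/-- If the referee ignores the first player. -/
theorem qc_of {f B : T → T} {F : ℕ → Prop} {j : ℕ} {c : Code} (hj : 1 ≤ j)
    (hlev : ∀ s ≥ j, j ≤ lev F j s ∧ lev F j s ≤ s)
    (hBy : ∀ x s y z, B (vin x s y z) = T.leaf ↔ B (vin x s T.leaf z) = T.leaf)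
    (hacc : ∀ X z : T, CAcc c X z ↔ Acc (chkB f B) F j X z) : QC c := by
  intro X
  by_cases hV : Valid F j X
  · right
    have hl := hlev (qs X) hV.1
    have h3 : 1 ≤ qv X := (T.size_pos _).trans (hV.2.2 0 (by omega))
    have e1 : X.right.right ≠ T.leaf := by
      intro h0
      have h4 : qv X = 0 := by
        rw [qv, h0]
        rfl
      omega
    have e2 : X.right ≠ T.leaf := by
      intro h0
      rw [h0] at e1
      exact e1 rfl
    have e3 : X ≠ T.leaf := by
      intro h0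
      rw [h0] at e2
      exact e2 rfl
    have g1 : X.size = X.left.size + X.right.size + 1 := by
      conv_lhs => rw [T.eq_node e3]
      rfl
    have g2 : X.right.size = X.right.left.size + X.right.right.size + 1 := by
      conv_lhs => rw [T.eq_node e2]
      rfl
    have g3 : X.right.right.size = X.right.right.left.size + X.right.right.right.size + 1 := by
      conv_lhs => rw [T.eq_node e1]
      rfl
    have g4 := two_len X.left
    have g5 := two_len X.right.left
    have g6 := two_len X.right.right.left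
    have g7 := T.size_pos X.right.right.right
    refine ⟨?_, fun z hz => ?_⟩
    · unfold tri qs qr qv
      simp only [T.size, T.size_unary]
      omega
    · have k1 : qs (tri (qs X) (qr X) (qv X)) = qs X := T.len_unary _
      have k2 : qr (tri (qs X) (qr X) (qv X)) = qr X := T.len_unary _
      have k3 : qv (tri (qs X) (qr X) (qv X)) = qv X := T.len_unary _
      rcases (hacc _ z).1 hz with h4 | ⟨h4, h5, h6⟩
      · refine absurd ⟨by rw [k1]; exact hV.1, by rw [k1, k2]; exact hV.2.1, ?_⟩ h4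
        rw [k1, k3]
        intro i _
        have h7 : nthT (qY (tri (qs X) (qr X) (qv X))) i = T.leaf := nthT_leaf i
        rw [h7]
        exact h3
      · refine (hacc X z).2 (Or.inr ⟨by rw [k1] at h4; exact h4, by rw [k3] at h5; exact h5, ?_⟩)
        rw [chkB_leaf, hBy]
        rw [k1, k3, chkB_leaf, hBy] at h6
        exact h6
  · exact Or.inl ⟨T.leaf, T.size_pos X, (hacc _ _).2 (Or.inl hV)⟩

/-! ### Nondeterministic time -/

/-- The set `A` of numbers is in `NTIME(t)`: a number `x` of length `m` is in `A` if and only if a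
verifier who works in time polynomial in `m` and `s = t m` accepts some `y` of size at most `s`. -/
def InNTime (t : ℕ → ℕ) (A : Set ℕ) : Prop :=
  ∃ B : T → T, PolyTime B ∧ ∀ x s : ℕ, s = t x.size →
    (x ∈ A ↔ ∃ y : T, y.size ≤ s ∧ B (T.node (bl x) (T.node y (T.unary s))) ≠ T.leaf)

/-- The class `NTIME(2^o(m))`. -/
def NTimeSubexp : Set (Set ℕ) := {A | ∃ t : ℕ → ℕ, SubexpBound t ∧ InNTime t A}

theorem good_ntime {A : Set ℕ} (h : A ∈ NTimeSubexp) : Good QB A := by
  obtain ⟨t, ht, B, hB, hA⟩ := h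
  have i := PolyTime.id
  refine ⟨t, ht, fun w => B (T.node w.left (T.node w.right.left.left w.right.right)),
    hB.comp (i.left.node (i.right.left.left.node i.right.right)), ?_, ?_⟩
  · intro x s hs
    rw [hA x s hs]
    constructor
    · rintro ⟨y, hy, h⟩
      exact ⟨y, hy, fun z _ => h⟩
    · rintro ⟨y, hy, h⟩
      exact ⟨y, hy, h T.leaf ((T.size_pos y).trans hy)⟩
  · intro f F j c _ _ hacc
    exact qb_of (fun _ _ _ _ => Iff.rfl) hacc

theorem subexp_succ {t : ℕ → ℕ} (ht : SubexpBound t) : SubexpBound (fun m => t m + 1) := by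
  obtain ⟨⟨f, hf, hft⟩, hsub⟩ := ht
  have i := PolyTime.id
  refine ⟨⟨fun w => tif w.right T.leaf (f (T.node w.left w.right.right)),
    PolyTime.tif i.right PolyTime.leaf (hf.comp (i.left.node i.right.right)), ?_⟩, ?_⟩
  · intro m s
    cases s with
    | zero =>
      simp [T.unary]
    | succ s =>
      have h1 : (T.node (T.unary m) (T.unary (s + 1))).right.right = T.unary s := rfl
      have h2 : (T.node (T.unary m) (T.unary (s + 1))).right ≠ T.leaf := by
        simp [T.unary]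
      beta_reduce
      rw [tif, if_neg h2, h1, T.left_node, hft]
      omega
  · intro e
    obtain ⟨m₁, h₁⟩ := hsub (2 * e)
    refine ⟨max m₁ (2 * e), fun m hm => ?_⟩
    have h2 := h₁ m (by omega)
    beta_reduce
    rcases Nat.eq_zero_or_pos (t m) with h0 | h0
    · rw [h0, zero_add, one_pow]
      exact Nat.one_le_two_pow
    · have h3 : (t m + 1) ^ e ≤ (2 * t m) ^ e := Nat.pow_le_pow_left (by omega) _
      have h4 : ((t m + 1) ^ e) ^ 2 ≤ (2 ^ m) ^ 2 := by
        calc ((t m + 1) ^ e) ^ 2 ≤ ((2 * t m) ^ e) ^ 2 := Nat.pow_le_pow_left h3 _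
          _ = 2 ^ (2 * e) * t m ^ (2 * e) := by rw [← pow_mul, mul_pow, mul_comm e 2]
          _ ≤ 2 ^ m * 2 ^ m := Nat.mul_le_mul (Nat.pow_le_pow_right (by norm_num) (by omega)) h2
          _ = (2 ^ m) ^ 2 := by ring
      exact (Nat.pow_le_pow_iff_left (by norm_num)).1 h4

/-- The referee for the complement. -/
def cB (B : T → T) (w : T) : T :=
  tif w.right.left.right (T.node T.leaf T.leaf)
    (tif (B (T.node w.left (T.node w.right.left.right.right w.right.right.right.right)))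
      (T.node T.leaf T.leaf) T.leaf)

theorem cB_vin (B : T → T) (x s : ℕ) (y z : T) : cB B (vin x (s + 2) y z) = T.leaf ↔
    z ≠ T.leaf ∧ B (T.node (bl x) (T.node z.right (T.unary s))) ≠ T.leaf := by
  have h1 : (vin x (s + 2) y z).right.right.right.right = T.unary s := rfl
  have h2 : (vin x (s + 2) y z).right.left.right = z := rfl
  have h3 : (vin x (s + 2) y z).left = bl x := rfl
  unfold cB
  rw [h1, h2, h3]
  by_cases hz : z = T.leaf
  · rw [hz, tif_leaf]
    simp
  · by_cases hB : B (T.node (bl x) (T.node z.right (T.unary s))) = T.leaf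
    · rw [tif, if_neg hz, hB, tif_leaf]
      simp
    · rw [tif, if_neg hz, tif, if_neg hB]
      simp [hz, hB]

theorem good_contime {A : Set ℕ} (h : Aᶜ ∈ NTimeSubexp) : Good QC A := by
  obtain ⟨t, ht, B, hB, hA⟩ := h
  have i := PolyTime.id
  refine ⟨fun m => t m + 1 + 1, subexp_succ (subexp_succ ht), cB B,
    PolyTime.tif i.right.left.right (PolyTime.const _)
      (PolyTime.tif (hB.comp (i.left.node (i.right.left.right.right.node
        i.right.right.right.right))) (PolyTime.const _) PolyTime.leaf), ?_, ?_⟩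
  · rintro x s rfl
    have h1 := hA x (t x.size) rfl
    have h2 : ∀ z : T, z.size ≤ t x.size + 1 + 1 → z ≠ T.leaf → z.right.size ≤ t x.size := by
      intro z hz h0
      have h5 : z.size = z.left.size + z.right.size + 1 := by
        conv_lhs => rw [T.eq_node h0]
        rfl
      have h6 := T.size_pos z.left
      omega
    constructor
    · intro hx
      refine ⟨T.leaf, Nat.le_add_left 1 _, fun z hz h3 => ?_⟩
      obtain ⟨h4, h5⟩ := (cB_vin B x _ _ z).1 h3
      exact h1.2 ⟨z.right, h2 z hz h4, h5⟩ hx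
    · rintro ⟨y, hy, h3⟩
      by_contra hx
      obtain ⟨z, hz, h4⟩ := h1.1 hx
      have h5 : (T.node T.leaf z).size ≤ t x.size + 1 + 1 := by
        simp only [T.size]
        omega
      refine h3 (T.node T.leaf z) h5 ((cB_vin B x _ _ _).2 ?_)
      exact ⟨by simp, h4⟩
  · intro f F j c hj hlev hacc
    refine qc_of hj hlev ?_ hacc
    intro x s y z
    exact Iff.rfl

/-! ### Hard sets -/

theorem measure_ntime {Q : Code → Prop} (hX : OneSided Q) :
    PMeasureZero {A' | ∃ A, Good Q A ∧ ∀ x ∈ TestSet, (x ∈ A' ↔ x ∈ A)} :=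
  measure_of_one (PROG_thm FLAGP_thm LEVP_thm CAP_thm) FAIR_thm WIN1_thm WIN2_thm
    (MPB.MPOLY_of FLAGP_thm LEVP_thm CAP_thm SUM_thm SUB_thm) Ar.ARITH_thm LEV_thm SIMF_thm hX

/-- The set `H` is hard for coNP. -/
def CoNPHard (H : Set T) : Prop := ∀ A : Set T, InCoNP A → ManyOne A H

/-- The set `H` is hard for NP. -/
def NPHard (H : Set T) : Prop := ∀ A : Set T, InNP A → ManyOne A H

theorem ntime_of_conp {H : Set T} (hH : CoNPHard H) (hopt : HasPOptimal H) :
    PMeasureZero NTimeSubexp := by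
  have h1 := measure_ntime (one_coNP fun A hA hc => opt_of_hard hA (hH A hc) hopt)
  exact h1.mono fun A hA => ⟨A, good_ntime hA, fun _ _ => Iff.rfl⟩

theorem ntime_of_np {H : Set T} (hH : NPHard H) (hopt : HasPOptimal H) :
    PMeasureZero NTimeSubexp := by
  have h1 := (measure_ntime (one_NP fun A hA hc => opt_of_hard hA (hH A hc) hopt)).compl
  refine h1.mono fun A hA => ⟨Aᶜ, good_contime (by rwa [compl_compl]), fun _ _ => Iff.rfl⟩

theorem np_ntime {A : Set ℕ} (h : InNPNum A) : A ∈ NTimeSubexp := by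
  obtain ⟨B, k, hB, hA⟩ := h
  have i := PolyTime.id
  refine ⟨fun m => (m + 2) ^ k, subexp_pow k, fun w => B (T.node w.left w.right.left),
    hB.comp (i.left.node i.right.left), ?_⟩
  rintro x s rfl
  exact hA x

/-- If a set which is hard for NP or for coNP has a p-optimal proof system, the class
`NTIME(2^o(m))` has p-measure zero. -/
theorem ntime_of_hard {H : Set T} (hH : NPHard H ∨ CoNPHard H) (hopt : HasPOptimal H) :
    PMeasureZero NTimeSubexp := by
  rcases hH with h | h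
  · exact ntime_of_np h hopt
  · exact ntime_of_conp h hopt

/-- Lutz's hypothesis implies that no set which is hard for NP or for coNP has a p-optimal proof
system. -/
theorem no_optimal_of_lutz (hL : ¬ PMeasureZero {A | InNPNum A}) {H : Set T}
    (hH : NPHard H ∨ CoNPHard H) : ¬ HasPOptimal H := by
  intro hopt
  exact hL ((ntime_of_hard hH hopt).mono fun A hA => np_ntime hA)

end Pool.Agent.MSD
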