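import Pool.Agent.MSD.Facts

/-!
# If totality is decidable in time `n ^ f(c)`, the class `Σ₂TIME(2^o(m))` has p-measure zero
-/

set_option autoImplicit false

namespace Pool.Agent.MSD

open Pool.Agent.H19 Pool.Agent.H19.T Pool.Agent.PO Pool.Agent.S2L Pool.Agent.RU Pool.Agent.Q2E

theorem measure_of_xp (hP : PROG_stmt) (h2 : FAIR_stmt) (h3 : WIN1_stmt) (h4 : WIN2_stmt)
    (h5 : MPOLY_stmt) (h6 : ARITH_stmt) (h7 : LEV_stmt) (hS : SIMF_stmt) (hX : TotalityInXP) :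
    PMeasureZero {A' | ∃ A ∈ Sigma2Subexp, ∀ x ∈ TestSet, (x ∈ A' ↔ x ∈ A)} := by
  obtain ⟨d, hd⟩ := hX
  obtain ⟨mk, hmk, hprog⟩ := hP d.enc
  refine ⟨DD (Fl d.enc mk), h2 _, h5 _ _ hmk, ?_⟩
  rintro A' ⟨A, ⟨t, ⟨⟨f, hf, hft⟩, hsub⟩, B, hB, hA⟩, hAA⟩
  obtain ⟨fC, κf, hfC⟩ := id hf
  obtain ⟨b, kb, hb⟩ := chkB_polyTime hf hB
  -- the parameter
  obtain ⟨e, he⟩ : ∃ e : ℕ, dN e = T.node b.enc fC.enc :=
    ⟨_, dN_cN (X := T.node b.enc fC.enc) (m := (T.node b.enc fC.enc).size + 3) le_rfl⟩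
  have hpar : ∀ j : ℕ, ∃ c : Code, (∀ s, Fl d.enc mk e j s ↔ Flag d.enc fC.enc c.enc s) ∧
      (∃ κ, HaltsWithin c κ) ∧ ∀ X z : T,
      (∃ (y : T) (t : ℕ), Eval c (T.node X z) y t ∧ y ≠ T.leaf) ↔
        Acc (chkB f B) (Fl d.enc mk e j) j X z := by
    intro j
    obtain ⟨c, hc1, hc2, hc3⟩ := hprog b (chkB f B) kb hb fC.enc j
    have h8 : Fl d.enc mk e j = Flag d.enc fC.enc c.enc := by
      funext s
      rw [Fl, he, T.right_node, ← hc1]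
    exact ⟨c, fun s => by rw [h8], hc2, by rw [h8]; exact hc3⟩
  -- patterns
  have hpat : ∀ s a, a ≤ s → (Pat A' s a ↔ Pat A s a) := by
    intro s a ha
    refine forall₂_congr fun i hi => hAA _ ⟨s, i, by omega, rfl⟩
  have hA2 : ∀ x s : ℕ, s = t x.size → (x ∈ A ↔ ∃ y : T, y.size ≤ s ∧ ∀ z : T, z.size ≤ s →
      B (vin x s y z) ≠ T.leaf) := hA
  by_cases hcase : ∃ j > e, ∀ s ≥ j, ¬ Pat A s (lev (Fl d.enc mk e j) j s)
  · obtain ⟨j, hj, hno⟩ := hcase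
    obtain ⟨c, hF, hhalt, hacc⟩ := hpar j
    obtain ⟨k, hk⟩ := hd c hhalt
    have htot := total_of hft hA2 hacc (h7 _ j).1 hno
    obtain ⟨s₀, hs₀⟩ := flag_of_total hS h6 hsub hft hfC hk htot
    refine h3 _ A' e j s₀ hj (fun s hs => (hF s).2 (hs₀ s hs)) fun s hs _ => ?_
    rw [hpat s _ ((h7 _ j).1 s hs).2]
    exact hno s hs
  · push Not at hcase
    refine h4 _ A' e fun J => ?_
    obtain ⟨s, hs, hpt⟩ := hcase (max J (e + 1)) (by omega)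
    obtain ⟨c, hF, hhalt, hacc⟩ := hpar (max J (e + 1))
    obtain ⟨k, hk⟩ := hd c hhalt
    refine ⟨max J (e + 1), le_max_left _ _, s, hs, fun hfl => ?_, ?_⟩
    · exact not_pat hft hA2 hacc (h7 _ _).1 hs (flag_total hS hft hfC hk ((hF s).1 hfl)) hpt
    · rw [hpat s _ ((h7 _ _).1 s hs).2]
      exact hpt

end Pool.Agent.MSD
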