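import Pool.Agent.MSD.Base

/-!
# The martingale of the measure dichotomy: fairness, non-negativity and success
-/

set_option autoImplicit false

namespace Pool.Agent.MSD

open Pool.Agent.H19 Pool.Agent.H19.T Pool.Agent.PO Pool.Agent.S2L Pool.Agent.RU Pool.Agent.Q2E
open Finset Classical

/-! ### The windows -/

theorem lt_W (s : ℕ) : s < W s := by
  have h1 : s ≤ s ^ 2 := by nlinarith [Nat.zero_le s]
  have h2 : s ^ 2 < 2 ^ s ^ 2 := Nat.lt_two_pow_self
  unfold W
  omega

theorem lt_N (s : ℕ) : s < N s := by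
  have h1 := lt_W s
  have h2 : W s < 2 ^ W s := Nat.lt_two_pow_self
  unfold N
  omega

theorem N_succ (s : ℕ) : N s + s ≤ N (s + 1) := by
  have h1 : W s + 1 ≤ W (s + 1) := by
    have h2 : s ^ 2 + 1 ≤ (s + 1) ^ 2 := by
      rw [show (s + 1) ^ 2 = s ^ 2 + 1 + 2 * s by ring]
      omega
    have h3 : 2 ^ (s ^ 2 + 1) ≤ 2 ^ (s + 1) ^ 2 := Nat.pow_le_pow_right (by norm_num) h2
    have h4 : 1 ≤ 2 ^ s ^ 2 := Nat.one_le_two_pow
    rw [pow_succ] at h3
    unfold W
    omega
  have h5 : 2 ^ (W s + 1) ≤ 2 ^ W (s + 1) := Nat.pow_le_pow_right (by norm_num) h1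
  have h6 := lt_N s
  rw [pow_succ] at h5
  unfold N at *
  omega

theorem N_mono {s t : ℕ} (h : s ≤ t) : N s ≤ N t := by
  induction t with
  | zero =>
    obtain rfl : s = 0 := by omega
    exact le_refl _
  | succ t ih =>
    rcases Nat.lt_or_ge t s with h1 | h1
    · obtain rfl : s = t + 1 := by omega
      exact le_refl _
    · have := ih h1
      have := N_succ t
      omega

theorem N_end {s t : ℕ} (h : s < t) : N s + s ≤ N t :=
  (N_succ s).trans (N_mono h)

/-! ### The levels -/

section levels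

variable {F : ℕ → Prop}

theorem lev_of_le {j s : ℕ} (h : s ≤ j) : lev F j s = j := by
  induction s with
  | zero => rfl
  | succ s ih =>
    rw [lev, if_pos (Or.inl (by omega))]
    exact ih (by omega)

theorem lev_succ_flag {j s : ℕ} (hF : F s) : lev F j (s + 1) = lev F j s := by
  rw [lev, if_pos (Or.inr hF)]

theorem lev_succ_not {j s : ℕ} (h : j ≤ s) (hF : ¬ F s) : lev F j (s + 1) = s + 1 := by
  rw [lev, if_neg (by
    rintro (h1 | h1)
    · omega
    · exact hF h1)]

theorem lev_le {j s : ℕ} (h : j ≤ s) : lev F j s ≤ s := by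
  induction s with
  | zero =>
    rw [lev_of_le (by omega)]
    exact h
  | succ s ih =>
    rcases Nat.lt_or_ge s j with h1 | h1
    · rw [lev_of_le (by omega)]
      exact h
    · by_cases hF : F s
      · rw [lev_succ_flag hF]
        exact (ih h1).trans (by omega)
      · rw [lev_succ_not h1 hF]

theorem le_lev {j s : ℕ} : j ≤ lev F j s := by
  induction s with
  | zero => rw [lev_of_le (by omega)]
  | succ s ih =>
    rcases Nat.lt_or_ge s j with h1 | h1
    · rw [lev_of_le (by omega)]
    · by_cases hF : F s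
      · rw [lev_succ_flag hF]
        exact ih
      · rw [lev_succ_not h1 hF]
        omega

end levels

theorem LEV_thm : LEV_stmt := by
  intro F j
  refine ⟨fun s hs => ⟨le_lev, lev_le hs⟩, ?_, ?_⟩
  · intro F' s
    induction s with
    | zero => exact fun _ => rfl
    | succ s ih =>
      intro h
      have ih' := ih fun s' hs' => h s' (by omega)
      rcases Nat.lt_or_ge s j with h1 | h1
      · rw [lev_of_le (by omega), lev_of_le (by omega)]
      · have h2 := h s (by omega) h1
        by_cases hF : F s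
        · rw [lev_succ_flag hF, lev_succ_flag (h2.1 hF), ih']
        · rw [lev_succ_not h1 hF, lev_succ_not h1 (fun h3 => hF (h2.2 h3))]
  · intro s₀ h
    refine ⟨lev F j (max s₀ j), fun s hs => ?_⟩
    induction s, hs using Nat.le_induction with
    | base => rfl
    | succ s hs ih =>
      rw [lev_succ_flag (h s (by omega)), ih]

/-! ### The conditional probability -/

section xv

theorem getD_append (w : List Bool) (b : Bool) {i : ℕ} (h : i < w.length) :
    (w ++ [b]).getD i false = w.getD i false := by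
  rw [List.getD_eq_getElem?_getD, List.getD_eq_getElem?_getD, List.getElem?_append_left h]

theorem ones_append {w : List Bool} {s k : ℕ} (h : N s + k ≤ w.length) (b : Bool) :
    Ones (w ++ [b]) s k ↔ Ones w s k := by
  unfold Ones
  refine forall₂_congr fun i hi => ?_
  rw [getD_append w b (by omega)]

theorem XX_nonneg (w : List Bool) (s a : ℕ) : 0 ≤ XX w s a := by
  unfold XX
  split_ifs
  · positivity
  · exact le_refl _

theorem XX_le_one (w : List Bool) (s a : ℕ) : XX w s a ≤ 1 := by
  unfold XX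
  split_ifs
  · exact pow_le_one₀ (by norm_num) (by norm_num)
  · norm_num

/-- Before the window. -/
theorem XX_of_le {s a : ℕ} {w : List Bool} (h : w.length ≤ N s) : XX w s a = (1 / 2) ^ a := by
  have h1 : obs w s a = 0 := by
    unfold obs
    omega
  have h2 : Ones w s 0 := fun i hi => absurd hi (by omega)
  unfold XX
  rw [h1, if_pos h2, Nat.sub_zero]

/-- After the window. -/
theorem XX_of_ge {s a : ℕ} {w : List Bool} (h : N s + a ≤ w.length) :
    XX w s a = if Ones w s a then 1 else 0 := by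
  have h1 : obs w s a = a := by
    unfold obs
    omega
  unfold XX
  rw [h1, Nat.sub_self, pow_zero]

theorem XX_append_of_le {s a : ℕ} {w : List Bool} (h : N s + a ≤ w.length) (b : Bool) :
    XX (w ++ [b]) s a = XX w s a := by
  rw [XX_of_ge h, XX_of_ge (by rw [List.length_append]; omega)]
  exact if_congr (ones_append h b) rfl rfl

theorem XX_fair (s a : ℕ) (w : List Bool) :
    XX (w ++ [false]) s a + XX (w ++ [true]) s a = 2 * XX w s a := by
  have hl : ∀ b : Bool, (w ++ [b]).length = w.length + 1 := fun b => by simp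
  rcases Nat.lt_or_ge w.length (N s) with h | h
  · rw [XX_of_le (w := w) (by omega), XX_of_le (w := w ++ [false]) (by rw [hl]; omega),
      XX_of_le (w := w ++ [true]) (by rw [hl]; omega)]
    ring
  rcases Nat.lt_or_ge w.length (N s + a) with h' | h'
  · -- inside the window
    have ho : obs w s a = w.length - N s := by
      unfold obs
      omega
    have ho' : ∀ b : Bool, obs (w ++ [b]) s a = w.length - N s + 1 := fun b => by
      unfold obs
      rw [hl]
      omega
    have hlast : ∀ b : Bool, (w ++ [b]).getD (N s + (w.length - N s)) false = b := fun b => by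
      rw [show N s + (w.length - N s) = w.length by omega, List.getD_eq_getElem?_getD]
      simp
    have hf : XX (w ++ [false]) s a = 0 := by
      unfold XX
      rw [ho', if_neg]
      intro h2
      have h3 := h2 (w.length - N s) (by omega)
      rw [hlast] at h3
      exact Bool.false_ne_true h3
    have ht : XX (w ++ [true]) s a = 2 * XX w s a := by
      have h1 : Ones (w ++ [true]) s (w.length - N s + 1) ↔ Ones w s (w.length - N s) := by
        constructor
        · intro h2 i hi
          have h3 := h2 i (by omega)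
          rwa [getD_append w true (by omega)] at h3
        · intro h2 i hi
          rcases Nat.lt_or_ge i (w.length - N s) with h3 | h3
          · rw [getD_append w true (by omega)]
            exact h2 i h3
          · obtain rfl : i = w.length - N s := by omega
            exact hlast true
      unfold XX
      rw [ho, ho']
      by_cases hc : Ones w s (w.length - N s)
      · rw [if_pos hc, if_pos (h1.2 hc)]
        obtain ⟨m, hm⟩ : ∃ m, a - (w.length - N s) = m + 1 := ⟨a - (w.length - N s) - 1, by omega⟩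
        rw [show a - (w.length - N s + 1) = m by omega, hm, pow_succ]
        ring
      · rw [if_neg hc, if_neg (fun h2 => hc (h1.1 h2)), mul_zero]
    rw [ht, hf, zero_add]
  · rw [XX_append_of_le h', XX_append_of_le h']
    ring

end xv

/-! ### The gains -/

section gains

variable {F : ℕ → Prop}

theorem GG_of_le {j s : ℕ} {w : List Bool} (h : w.length ≤ N s) : GG F j s w = 0 := by
  unfold GG
  rw [XX_of_le h]
  split_ifs
  · ring
  · rfl
  · ring

theorem NoLoss_append {j s : ℕ} {w : List Bool} (h : N s ≤ w.length) (b : Bool) :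
    NoLoss F j s (w ++ [b]) ↔ NoLoss F j s w := by
  unfold NoLoss
  refine forall₃_congr fun s' hs' hs => ?_
  have h1 : lev F j s' ≤ s' := lev_le hs'
  have h2 := N_end hs
  rw [ones_append (by omega)]

theorem GG_fair (j s : ℕ) (w : List Bool) :
    GG F j s (w ++ [false]) + GG F j s (w ++ [true]) = 2 * GG F j s w := by
  have hl : ∀ b : Bool, (w ++ [b]).length = w.length + 1 := fun b => by simp
  rcases Nat.lt_or_ge w.length (N s) with h | h
  · rw [GG_of_le (w := w) (by omega), GG_of_le (w := w ++ [false]) (by rw [hl]; omega),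
      GG_of_le (w := w ++ [true]) (by rw [hl]; omega)]
    ring
  · have h1 := XX_fair s (lev F j s) w
    unfold GG
    simp only [NoLoss_append h]
    split_ifs
    · linear_combination -(1 / 2 : ℚ) ^ j * h1
    · ring
    · linear_combination h1

/-! ### Non-negativity -/

/-- The two parts of the gain. -/
noncomputable def G1 (F : ℕ → Prop) (j s : ℕ) (w : List Bool) : ℚ :=
  if F s then 0 else XX w s (lev F j s) - (1 / 2) ^ lev F j s

noncomputable def G2 (F : ℕ → Prop) (j s : ℕ) (w : List Bool) : ℚ :=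
  if F s ∧ NoLoss F j s w then (1 / 2) ^ lev F j s - XX w s (lev F j s) else 0

theorem GG_eq (j s : ℕ) (w : List Bool) :
    GG F j s w = G1 F j s w + (1 / 2) ^ j * G2 F j s w := by
  unfold GG G1 G2
  by_cases h1 : F s
  · by_cases h2 : NoLoss F j s w
    · rw [if_pos h1, if_pos h2, if_pos h1, if_pos ⟨h1, h2⟩, zero_add]
    · rw [if_pos h1, if_neg h2, if_pos h1, if_neg (fun h => h2 h.2)]
      ring
  · rw [if_neg h1, if_neg h1, if_neg (fun h => h1 h.1)]
    ring

/-- The stakes of the first kind are bounded. -/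
theorem stakes (j n : ℕ) (h : j ≤ n) :
    ∑ s ∈ Ico j n, (if F s then (0 : ℚ) else (1 / 2) ^ lev F j s) ≤
      2 * (1 / 2) ^ j - 2 * (1 / 2) ^ lev F j n := by
  induction n, h using Nat.le_induction with
  | base =>
    rw [Ico_self, sum_empty, lev_of_le (le_refl _)]
    exact le_of_eq (by ring)
  | succ n hn ih =>
    rw [sum_Ico_succ_top hn]
    by_cases hF : F n
    · rw [if_pos hF, lev_succ_flag hF]
      linarith
    · rw [if_neg hF, lev_succ_not hn hF]
      have h1 : lev F j n ≤ n := lev_le hn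
      have h2 : (1 / 2 : ℚ) ^ (n + 1) ≤ (1 / 2) ^ (lev F j n + 1) :=
        pow_le_pow_of_le_one (by norm_num) (by norm_num) (by omega)
      rw [pow_succ (1 / 2 : ℚ) (lev F j n)] at h2
      linarith

theorem sum_G1 (j n : ℕ) (h : j ≤ n) (w : List Bool) :
    -(2 * (1 / 2) ^ j) ≤ ∑ s ∈ Ico j n, G1 F j s w := by
  have h1 := stakes (F := F) j n h
  have h2 : -∑ s ∈ Ico j n, (if F s then (0 : ℚ) else (1 / 2) ^ lev F j s) ≤
      ∑ s ∈ Ico j n, G1 F j s w := by
    rw [← sum_neg_distrib]
    refine sum_le_sum fun s _ => ?_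
    unfold G1
    have := XX_nonneg w s (lev F j s)
    split_ifs
    · simp
    · linarith
  have h3 : (0 : ℚ) ≤ 2 * (1 / 2) ^ lev F j n := by positivity
  linarith

/-- If some pattern of the first kind has occurred then the gain is large. -/
theorem sum_G1_win {j n s₀ : ℕ} (h : j ≤ s₀) (hn : s₀ < n) (hF : ¬ F s₀) {w : List Bool}
    (hw : XX w s₀ (lev F j s₀) = 1) :
    1 - 2 * (1 / 2) ^ j ≤ ∑ s ∈ Ico j n, G1 F j s w := by
  have h1 := stakes (F := F) j n (by omega)
  have h2 : 1 - ∑ s ∈ Ico j n, (if F s then (0 : ℚ) else (1 / 2) ^ lev F j s) ≤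
      ∑ s ∈ Ico j n, G1 F j s w := by
    have h3 : ∑ s ∈ Ico j n, (if s = s₀ then (1 : ℚ) else 0) = 1 := by
      rw [sum_ite_eq', if_pos (mem_Ico.2 ⟨h, hn⟩)]
    refine le_trans (le_of_eq (by rw [sum_sub_distrib, h3])) (sum_le_sum (f := fun s =>
      (if s = s₀ then (1 : ℚ) else 0) - (if F s then (0 : ℚ) else (1 / 2) ^ lev F j s))
      fun s _ => ?_)
    unfold G1
    by_cases hs : s = s₀
    · subst hs
      rw [if_pos rfl, if_neg hF, if_neg hF, hw]
    · rw [if_neg hs]
      have := XX_nonneg w s (lev F j s)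
      split_ifs
      · simp
      · linarith
  have h3 : (0 : ℚ) ≤ 2 * (1 / 2) ^ lev F j n := by positivity
  linarith

/-- The gains of the second kind are at least `-1` in total, from any point on. -/
theorem sum_G2 (j m n : ℕ) (hjm : j ≤ m) (w : List Bool) :
    -1 ≤ ∑ s ∈ Ico m n, G2 F j s w := by
  by_cases hbad : ∃ s, s ∈ Ico m n ∧ G2 F j s w < 0
  · -- the first bad window
    let s₀ := Nat.find hbad
    obtain ⟨h1, h2⟩ := Nat.find_spec hbad
    have hmin : ∀ s < s₀, s ∈ Ico m n → 0 ≤ G2 F j s w := fun s hs hs' => by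
      by_contra hneg
      exact Nat.find_min hbad hs ⟨hs', by push Not at hneg; exact hneg⟩
    have hs₀ : s₀ ∈ Ico m n := h1
    have hneg : G2 F j s₀ w < 0 := h2
    have hcond : F s₀ ∧ NoLoss F j s₀ w := by
      by_contra hc
      rw [G2, if_neg hc] at hneg
      exact lt_irrefl _ hneg
    have hxv : XX w s₀ (lev F j s₀) ≠ (1 / 2) ^ lev F j s₀ := by
      intro hx
      rw [G2, if_pos hcond, hx, sub_self] at hneg
      exact lt_irrefl _ hneg
    have hlen : N s₀ < w.length := by
      by_contra hc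
      exact hxv (XX_of_le (by omega))
    have hafter : ∀ s, s₀ < s → G2 F j s w = 0 := by
      intro s hs
      rw [mem_Ico] at hs₀
      have hl1 : lev F j s₀ ≤ s₀ := lev_le (by omega)
      rcases Nat.lt_or_ge w.length (N s₀ + lev F j s₀) with h3 | h3
      · -- the window `s₀` is in progress
        have h4 := N_end hs
        unfold G2
        rw [XX_of_le (by omega)]
        split_ifs
        · ring
        · rfl
      · -- the pattern is complete
        have h5 : Ones w s₀ (lev F j s₀) := by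
          by_contra h6
          have h7 : XX w s₀ (lev F j s₀) = 0 := by
            rw [XX_of_ge h3, if_neg h6]
          rw [G2, if_pos hcond, h7] at hneg
          have : (0 : ℚ) < (1 / 2) ^ lev F j s₀ := by positivity
          linarith
        unfold G2
        rw [if_neg]
        rintro ⟨_, h6⟩
        exact h6 s₀ (by omega) hs hcond.1 h5
    have h3 : ∑ s ∈ Ico m n, (if s = s₀ then (-1 : ℚ) else 0) = -1 := by
      rw [sum_ite_eq', if_pos hs₀]
    rw [← h3]
    refine sum_le_sum fun s hs => ?_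
    split_ifs with h4
    · subst h4
      unfold G2
      have h5 := XX_le_one w s₀ (lev F j s₀)
      have h6 : (0 : ℚ) < (1 / 2) ^ lev F j s₀ := by positivity
      split_ifs <;> linarith
    · rcases Nat.lt_or_gt_of_ne h4 with h5 | h5
      · exact hmin s h5 hs
      · rw [hafter s h5]
  · push Not at hbad
    have := sum_nonneg (s := Ico m n) (f := fun s => G2 F j s w) fun s hs => hbad s hs
    linarith

theorem two_sum (L : ℕ) : ∑ j ∈ range L, ∑ _e ∈ range j, (3 * (1 / 2 : ℚ) ^ j) ≤ 6 := by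
  have h : ∑ j ∈ range L, ∑ _e ∈ range j, (3 * (1 / 2 : ℚ) ^ j) =
      6 - 6 * (L + 1) * (1 / 2) ^ L := by
    induction L with
    | zero => norm_num
    | succ L ih =>
      rw [sum_range_succ, ih, sum_const, card_range, nsmul_eq_mul, pow_succ]
      push_cast
      ring
  rw [h]
  have : (0 : ℚ) ≤ 6 * (L + 1) * (1 / 2) ^ L := by positivity
  linarith

/-- The capital of a pair. -/
noncomputable def cap (F : ℕ → Prop) (j n : ℕ) (w : List Bool) : ℚ :=
  3 * (1 / 2) ^ j + ∑ s ∈ Ico j n, GG F j s w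

theorem cap_eq (j n : ℕ) (w : List Bool) : cap F j n w =
    (2 * (1 / 2) ^ j + ∑ s ∈ Ico j n, G1 F j s w) +
      (1 / 2) ^ j * (1 + ∑ s ∈ Ico j n, G2 F j s w) := by
  unfold cap
  simp only [GG_eq, sum_add_distrib, ← mul_sum]
  ring

theorem cap_nonneg {j n : ℕ} (h : j ≤ n) (w : List Bool) : 0 ≤ cap F j n w := by
  rw [cap_eq]
  have h1 := sum_G1 (F := F) j n h w
  have h2 := sum_G2 (F := F) j j n (le_refl _) w
  have h3 : (0 : ℚ) ≤ (1 / 2) ^ j := by positivity
  have h4 : 0 ≤ (1 / 2 : ℚ) ^ j * (1 + ∑ s ∈ Ico j n, G2 F j s w) :=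
    mul_nonneg h3 (by linarith)
  linarith

/-! ### Success of a pair -/

theorem pre_length (A : Set ℕ) (n : ℕ) : (chi A n).length = n := by
  simp [chi]

theorem pre_get (A : Set ℕ) (n i : ℕ) (h : i < n) : (chi A n).getD i false = true ↔ i ∈ A := by
  unfold chi
  rw [List.getD_eq_getElem?_getD, List.getElem?_map, List.getElem?_range h]
  simp

theorem ones_chi {A : Set ℕ} {s a n : ℕ} (h : N s + a ≤ n) :
    Ones (chi A n) s a ↔ Pat A s a :=
  forall₂_congr fun i hi => pre_get A n (N s + i) (by omega)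

/-- The value of a finished window. -/
theorem XX_chi {A : Set ℕ} {s a n : ℕ} (h : N s + a ≤ n) :
    XX (chi A n) s a = if Pat A s a then 1 else 0 := by
  rw [XX_of_ge (by rw [pre_length]; exact h)]
  exact if_congr (ones_chi h) rfl rfl

/-- The first success case. -/
theorem cap_large {A : Set ℕ} {j s₀ : ℕ}
    (hv : ∀ s ≥ j, F s → ¬ Pat A s (lev F j s)) (hF : ∀ s ≥ s₀, F s) (K : ℕ) :
    ∃ n₀, ∀ n ≥ n₀, (K : ℚ) ≤ cap F j n (chi A n) := by
  -- the level is constant from `s₁` on
  obtain ⟨s₁, hs₁⟩ : ∃ s₁, s₁ = max s₀ j := ⟨_, rfl⟩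
  obtain ⟨a, ha⟩ := (LEV_thm F j).2.2 s₀ hF
  rw [← hs₁] at ha
  -- the number of windows
  obtain ⟨q, hq⟩ : ∃ q : ℕ, (K : ℚ) + 3 ≤ q * ((1 / 2) ^ j * (1 / 2) ^ a) := by
    have hpos : (0 : ℚ) < (1 / 2) ^ j * (1 / 2) ^ a := by positivity
    obtain ⟨q, hq⟩ := exists_nat_ge (((K : ℚ) + 3) / ((1 / 2) ^ j * (1 / 2) ^ a))
    exact ⟨q, (div_le_iff₀ hpos).1 hq⟩
  refine ⟨N (s₁ + q) + (s₁ + q), fun n hn => ?_⟩
  rw [cap_eq]
  have h1 := sum_G1 (F := F) j n (by omega) (chi A n)
  -- the second kind
  have hNL : ∀ s, NoLoss F j s (chi A n) := by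
    intro s s' hs' _ hFs' hx
    have hl : lev F j s' ≤ s' := lev_le hs'
    refine hv s' hs' hFs' fun i hi => ?_
    have h2 := hx i hi
    rcases Nat.lt_or_ge (N s' + i) n with h3 | h3
    · exact (pre_get A n _ h3).1 h2
    · rw [List.getD_eq_getElem?_getD, List.getElem?_eq_none (by rw [pre_length]; exact h3)] at h2
      exact absurd h2 Bool.false_ne_true
  have hterm : ∀ s, j ≤ s → N s + s ≤ n → 0 ≤ G2 F j s (chi A n) := by
    intro s hs hsn
    unfold G2
    split_ifs with h2
    · have hl : lev F j s ≤ s := lev_le hs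
      rw [XX_chi (by omega), if_neg (hv s hs h2.1), sub_zero]
      positivity
    · exact le_refl _
  have hbig : ∀ s ∈ Ico s₁ (s₁ + q), (1 / 2 : ℚ) ^ a ≤ G2 F j s (chi A n) := by
    intro s hs
    rw [mem_Ico] at hs
    have h3 : N s + s ≤ n := by
      have := N_mono hs.2.le
      omega
    have hl : lev F j s ≤ s := lev_le (by omega)
    unfold G2
    rw [if_pos ⟨hF s (by omega), hNL s⟩, XX_chi (by omega),
      if_neg (hv s (by omega) (hF s (by omega))), sub_zero, ha s hs.1]
  have hqn : s₁ + q ≤ n := by omega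
  have hsplit : ∑ s ∈ Ico j n, G2 F j s (chi A n) =
      (∑ s ∈ Ico j s₁, G2 F j s (chi A n) + ∑ s ∈ Ico s₁ (s₁ + q), G2 F j s (chi A n)) +
        ∑ s ∈ Ico (s₁ + q) n, G2 F j s (chi A n) := by
    rw [sum_Ico_consecutive _ (by omega) (by omega), sum_Ico_consecutive _ (by omega) hqn]
  have hp1 : 0 ≤ ∑ s ∈ Ico j s₁, G2 F j s (chi A n) := by
    refine sum_nonneg fun s hs => ?_
    rw [mem_Ico] at hs
    have := N_mono (show s ≤ s₁ + q by omega)
    exact hterm s hs.1 (by omega)
  have hp2 : (q : ℚ) * (1 / 2) ^ a ≤ ∑ s ∈ Ico s₁ (s₁ + q), G2 F j s (chi A n) := by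
    have := Finset.card_nsmul_le_sum (Ico s₁ (s₁ + q)) (fun s => G2 F j s (chi A n))
      ((1 / 2) ^ a) hbig
    rw [Nat.card_Ico, nsmul_eq_mul, show s₁ + q - s₁ = q by omega] at this
    exact this
  have hp3 := sum_G2 (F := F) j (s₁ + q) n (by omega) (chi A n)
  have hfin : (q : ℚ) * (1 / 2) ^ a ≤ 1 + ∑ s ∈ Ico j n, G2 F j s (chi A n) := by
    rw [hsplit]
    linarith
  have hpj : (0 : ℚ) < (1 / 2) ^ j := by positivity
  have hmul := mul_le_mul_of_nonneg_left hfin hpj.le
  have e1 : (1 / 2 : ℚ) ^ j * ((q : ℚ) * (1 / 2) ^ a) = q * ((1 / 2) ^ j * (1 / 2) ^ a) := by ring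
  linarith

/-- The second success case. -/
theorem cap_one {A : Set ℕ} {j : ℕ} (hv : ∃ s ≥ j, ¬ F s ∧ Pat A s (lev F j s)) :
    ∃ n₀, ∀ n ≥ n₀, (1 : ℚ) ≤ cap F j n (chi A n) := by
  obtain ⟨s, hs, hF, hA⟩ := hv
  have hl : lev F j s ≤ s := lev_le hs
  refine ⟨N s + s, fun n hn => ?_⟩
  have hlt := lt_N s
  have h0 : XX (chi A n) s (lev F j s) = 1 := by
    rw [XX_chi (by omega), if_pos hA]
  rw [cap_eq]
  have h1 := sum_G1_win (F := F) hs (show s < n by omega) hF h0
  have h2 := sum_G2 (F := F) j j n (le_refl _) (chi A n)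
  have h3 : (0 : ℚ) ≤ (1 / 2) ^ j := by positivity
  have h4 : 0 ≤ (1 / 2 : ℚ) ^ j * (1 + ∑ s ∈ Ico j n, G2 F j s (chi A n)) :=
    mul_nonneg h3 (by linarith)
  linarith

end gains

/-! ### The capital -/

section capital

variable {F : ℕ → ℕ → ℕ → Prop}

theorem sum_cap_le (w : List Bool) :
    ∑ j ∈ range w.length, ∑ e ∈ range j, cap (F e j) j w.length w ≤ DD F w := by
  have h1 := two_sum w.length
  have h2 : ∑ j ∈ range w.length, ∑ e ∈ range j, cap (F e j) j w.length w =
      ∑ j ∈ range w.length, ∑ _e ∈ range j, (3 * (1 / 2 : ℚ) ^ j) +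
      ∑ j ∈ range w.length, ∑ e ∈ range j, ∑ s ∈ Ico j w.length, GG (F e j) j s w := by
    simp only [cap, sum_add_distrib]
  rw [h2, DD]
  linarith

theorem DD_nonneg (w : List Bool) : 0 ≤ DD F w := by
  refine le_trans ?_ (sum_cap_le w)
  refine sum_nonneg fun j hj => sum_nonneg fun e _ => ?_
  rw [mem_range] at hj
  exact cap_nonneg hj.le w

theorem DD_fair (w : List Bool) : DD F (w ++ [false]) + DD F (w ++ [true]) = 2 * DD F w := by
  have key : ∀ b : Bool, DD F (w ++ [b]) = 6 + ∑ j ∈ range w.length, ∑ e ∈ range j,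
      ∑ s ∈ Ico j w.length, GG (F e j) j s (w ++ [b]) := by
    intro b
    unfold DD
    have hl : (w ++ [b]).length = w.length + 1 := by simp
    have hz : ∀ e j : ℕ, GG (F e j) j w.length (w ++ [b]) = 0 := fun e j =>
      GG_of_le (by rw [hl]; exact lt_N _)
    rw [hl, sum_range_succ]
    have h1 : ∑ e ∈ range w.length, ∑ s ∈ Ico w.length (w.length + 1),
        GG (F e w.length) w.length s (w ++ [b]) = 0 := by
      refine sum_eq_zero fun e _ => ?_
      rw [Nat.Ico_succ_singleton, sum_singleton, hz]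
    rw [h1, add_zero]
    congr 1
    refine sum_congr rfl fun j hj => sum_congr rfl fun e _ => ?_
    rw [mem_range] at hj
    rw [sum_Ico_succ_top (by omega), hz, add_zero]
  rw [key, key]
  unfold DD
  have h2 : ∑ j ∈ range w.length, ∑ e ∈ range j, ∑ s ∈ Ico j w.length, 2 * GG (F e j) j s w =
      ∑ j ∈ range w.length, ∑ e ∈ range j, ∑ s ∈ Ico j w.length, GG (F e j) j s (w ++ [false]) +
      ∑ j ∈ range w.length, ∑ e ∈ range j, ∑ s ∈ Ico j w.length,
        GG (F e j) j s (w ++ [true]) := by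
    simp only [← sum_add_distrib]
    refine sum_congr rfl fun j _ => sum_congr rfl fun e _ => sum_congr rfl fun s _ => ?_
    exact (GG_fair j s w).symm
  simp only [← mul_sum] at h2
  linear_combination -h2

end capital

/-- The capital at the start. -/
theorem DD_nil (F : ℕ → ℕ → ℕ → Prop) : DD F [] = 6 := by
  simp [DD]

theorem FAIR_thm : FAIR_stmt := fun _ => ⟨DD_nonneg, DD_fair⟩

/-- Even the limit of the capital is infinite. -/
theorem DD_large1 (F : ℕ → ℕ → ℕ → Prop) (A : Set ℕ) (e j s₀ : ℕ) (hej : e < j)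
    (h1 : ∀ s ≥ s₀, F e j s) (h2 : ∀ s ≥ j, F e j s → ¬ Pat A s (lev (F e j) j s)) (K : ℕ) :
    ∃ n₀, ∀ n ≥ n₀, (K : ℚ) ≤ DD F (chi A n) := by
  obtain ⟨n₀, hn₀⟩ := cap_large h2 h1 K
  refine ⟨max n₀ (j + 1), fun n hn => (hn₀ n (by omega)).trans ?_⟩
  refine le_trans ?_ (sum_cap_le (chi A n))
  rw [pre_length]
  have hjn : j ∈ range n := mem_range.2 (by omega)
  have hej' : e ∈ range j := mem_range.2 hej
  refine le_trans ?_ (single_le_sum (f := fun j => ∑ e ∈ range j, cap (F e j) j n (chi A n))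
    (fun j' hj' => sum_nonneg fun e' _ => cap_nonneg (mem_range.1 hj').le _) hjn)
  exact single_le_sum (f := fun e => cap (F e j) j n (chi A n))
    (fun e' _ => cap_nonneg (by omega) _) hej'

theorem DD_large2 (F : ℕ → ℕ → ℕ → Prop) (A : Set ℕ) (e : ℕ)
    (h : ∀ J, ∃ j ≥ J, ∃ s ≥ j, ¬ F e j s ∧ Pat A s (lev (F e j) j s)) (K : ℕ) :
    ∃ n₀, ∀ n ≥ n₀, (K : ℚ) ≤ DD F (chi A n) := by
  -- `K` many values of `j`
  have hset : ∀ K : ℕ, ∃ (S : Finset ℕ) (n₀ : ℕ), S.card = K ∧ (∀ j ∈ S, e < j ∧ j < n₀) ∧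
      ∀ n ≥ n₀, ∀ j ∈ S, (1 : ℚ) ≤ cap (F e j) j n (chi A n) := by
    intro K
    induction K with
    | zero => exact ⟨∅, 0, rfl, by simp, by simp⟩
    | succ K ih =>
      obtain ⟨S, n₀, h1, h2, h3⟩ := ih
      obtain ⟨j, hj1, hj3⟩ := h (max n₀ (e + 1))
      obtain ⟨n₁, hn₁⟩ := cap_one hj3
      refine ⟨insert j S, max (max n₀ n₁) (j + 1), ?_, ?_, ?_⟩
      · rw [card_insert_of_notMem (fun hc => by have := (h2 j hc).2; omega), h1]
      · intro i hi
        rw [mem_insert] at hi
        rcases hi with rfl | hi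
        · exact ⟨by omega, by omega⟩
        · have := h2 i hi
          exact ⟨this.1, by omega⟩
      · intro n hn i hi
        rw [mem_insert] at hi
        rcases hi with rfl | hi
        · exact hn₁ n (by omega)
        · exact h3 n (by omega) i hi
  obtain ⟨S, n₀, h1, h2, h3⟩ := hset K
  refine ⟨n₀, fun n hn => le_trans ?_ (sum_cap_le (chi A n))⟩
  rw [pre_length]
  calc (K : ℚ) = ∑ _j ∈ S, (1 : ℚ) := by rw [sum_const, h1]; simp
    _ ≤ ∑ j ∈ S, ∑ e ∈ range j, cap (F e j) j n (chi A n) := by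
        refine sum_le_sum fun j hj => (h3 n hn j hj).trans ?_
        have hb := h2 j hj
        exact single_le_sum (f := fun e => cap (F e j) j n (chi A n))
          (fun e' _ => cap_nonneg (by omega) _) (mem_range.2 hb.1)
    _ ≤ _ := by
        refine sum_le_sum_of_subset_of_nonneg (fun j hj => mem_range.2 ?_) fun j hj _ => ?_
        · have := h2 j hj
          omega
        · exact sum_nonneg fun e' _ => cap_nonneg (mem_range.1 hj).le _

theorem WIN1_thm : WIN1_stmt := fun F A e j s₀ h0 h1 h2 K => by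
  obtain ⟨n, hn⟩ := DD_large1 F A e j s₀ h0 h1 h2 K
  exact ⟨n, hn n (le_refl _)⟩

theorem WIN2_thm : WIN2_stmt := fun F A e h K => by
  obtain ⟨n, hn⟩ := DD_large2 F A e h K
  exact ⟨n, hn n (le_refl _)⟩

end Pool.Agent.MSD
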