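import Pool.Agent.MSD.Base

/-!
# One-sided deciders of totality, for restricted classes of programs
-/

set_option autoImplicit false

namespace Pool.Agent.MSD

open Pool.Agent.H19 Pool.Agent.H19.T Pool.Agent.PO Pool.Agent.S2L Pool.Agent.RU Pool.Agent.Q2E

/-- The program `c` accepts the candidate `z` for a solution of the instance `x`. -/
def CAcc (c : Code) (x z : T) : Prop := ∃ (y : T) (t : ℕ), Eval c (T.node x z) y t ∧ y ≠ T.leaf

/-- One algorithm `d` recognises, soundly, the pairs of a program `c` with the property `Q` and a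
number `n` (in unary) such that the search problem of `c` is total up to size `n`; for those
programs `c` whose search problem is total, it says yes for all large `n`, and does so in time
polynomial in `n` (where the polynomial depends on `c`). -/
def OneSided (Q : Code → Prop) : Prop :=
  ∃ d : Code, ∀ c : Code, (∃ κ, HaltsWithin c κ) → Q c →
    (∀ n : ℕ, ∃ (y : T) (t : ℕ), Eval d (T.node c.enc (T.unary n)) y t ∧
      (y ≠ T.leaf → TotalUpTo c n)) ∧
    ((∀ n, TotalUpTo c n) → ∃ k n₀ : ℕ, ∀ n ≥ n₀, ∃ (y : T) (t : ℕ),
      Eval d (T.node c.enc (T.unary n)) y t ∧ t ≤ (n + 2) ^ k ∧ y ≠ T.leaf)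

/-- An instance which has a solution has one of the form `leaf` or `node (unary i) leaf`. -/
def QB (c : Code) : Prop := ∀ X z : T, z.size ≤ X.size → CAcc c X z →
  CAcc c X T.leaf ∨ ∃ i : ℕ, 2 * i + 3 ≤ X.size ∧ CAcc c X (T.node (T.unary i) T.leaf)

/-- The instances given by three numbers in unary. -/
def tri (s r v : ℕ) : T :=
  T.node (T.unary s) (T.node (T.unary r) (T.node (T.unary v) T.leaf))

/-- Every instance has a solution, or all solutions of the instance given by its three numbers. -/
def QC (c : Code) : Prop := ∀ X : T, (∃ z : T, z.size ≤ X.size ∧ CAcc c X z) ∨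
  ((tri (qs X) (qr X) (qv X)).size ≤ X.size ∧
    ∀ z : T, CAcc c (tri (qs X) (qr X) (qv X)) z → CAcc c X z)

end Pool.Agent.MSD
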