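import Pool.Agent.MSD.Base

/-!
# The search programs
-/

set_option autoImplicit false

namespace Pool.Agent.MSD

open Pool.Agent.H19 Pool.Agent.H19.T Pool.Agent.PO Pool.Agent.S2L Pool.Agent.RU Pool.Agent.Q2E
open Finset

namespace PR

/-- The program `c` computes `f` in polynomial time. -/
def PT (c : Code) (f : T → T) : Prop :=
  ∃ k : ℕ, ∀ x : T, ∃ t : ℕ, Eval c x (f x) t ∧ t ≤ (x.size + 2) ^ k

theorem PT.pair {c d : Code} {f g : T → T} (hf : PT c f) (hg : PT d g) :
    PT (Code.pair c d) (fun x => T.node (f x) (g x)) := by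
  obtain ⟨k, h⟩ := hf
  obtain ⟨m, h'⟩ := hg
  refine ⟨max k m + 2, fun x => ?_⟩
  obtain ⟨t, ht, hb⟩ := h x
  obtain ⟨t', ht', hb'⟩ := h' x
  refine ⟨_, Eval.pair ht ht', ?_⟩
  have := pow_add_le (s := x.size + 2) (a := k) (b := m) (by omega)
  omega

theorem PT.of_bound {c : Code} {f : T → T} {g : ℕ → ℕ} (hg : PolyB g)
    (h : ∀ x : T, ∃ t : ℕ, Eval c x (f x) t ∧ t ≤ g x.size) : PT c f := by
  obtain ⟨k, hk⟩ := hg
  refine ⟨k, fun x => ?_⟩
  obtain ⟨t, ht, hb⟩ := h x
  exact ⟨t, ht, hb.trans (hk _)⟩

theorem PT.comp {c d : Code} {f g : T → T} (hf : PT c f) (hg : PT d g) :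
    PT (Code.comp c d) (fun x => f (g x)) := by
  obtain ⟨k, h⟩ := hf
  obtain ⟨m, h'⟩ := hg
  refine PT.of_bound (g := fun n => (n + 2) ^ m + ((n + 2) ^ m + 2) ^ k + 1) ?_ fun x => ?_
  · have h1 : PolyB (fun n => (n + 2) ^ m) := ⟨m, fun n => le_rfl⟩
    exact (h1.add ((h1.add (PolyB.const 2)).pow k)).add (PolyB.const 1)
  · obtain ⟨t, ht, hb⟩ := h' x
    obtain ⟨t', ht', hb'⟩ := h (g x)
    refine ⟨_, Eval.comp ht ht', ?_⟩
    have h1 := ht.size_le
    have h2 : ((g x).size + 2) ^ k ≤ ((x.size + 2) ^ m + 2) ^ k :=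
      Nat.pow_le_pow_left (by omega) _
    omega

theorem PT.id : PT Code.id (fun x => x) := ⟨1, fun x => ⟨_, Eval.id x, by simp⟩⟩

theorem PT.const (a : T) : PT (Code.const a) (fun _ => a) := by
  obtain ⟨k, hk⟩ := PolyB.const a.size
  exact ⟨k, fun x => ⟨_, Eval.const x a, hk x.size⟩⟩

/-- Levels depend only on the earlier flags. -/
theorem lev_congr {F F' : ℕ → Prop} (j s : ℕ) (h : ∀ s' < s, (F s' ↔ F' s')) :
    lev F j s = lev F' j s := by
  induction s with
  | zero => rfl
  | succ s ih =>
    have h1 := ih fun s' hs' => h s' (by omega)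
    have h2 := h s (by omega)
    simp only [lev, h1]
    by_cases hs : s < j ∨ F s
    · rw [if_pos hs, if_pos (hs.imp_right h2.1)]
    · rw [if_neg hs, if_neg fun h3 => hs (h3.imp_right h2.2)]

theorem min_add_iff (x y r : ℕ) : min x (r + 1) + min y (r + 1) ≤ r ↔ x + y ≤ r := by
  omega

theorem min_pos_iff (x r : ℕ) : min x (r + 1) ≤ r ↔ x ≤ r := by omega

/-- The number `N a` is at most `r`, and truncated powers recognise it. -/
theorem trunc_iff (a b r : ℕ) :
    min (2 ^ min (2 ^ a) (r + 1)) (r + 1) + min (2 ^ b) (r + 1) ≤ r ↔ 2 ^ 2 ^ a + 2 ^ b ≤ r := by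
  rw [min_add_iff]
  have hr : r + 1 < 2 ^ (r + 1) := Nat.lt_two_pow_self
  have h1 : 2 ^ a < 2 ^ 2 ^ a := Nat.lt_two_pow_self
  rcases le_total (2 ^ a) (r + 1) with h2 | h2
  · rw [min_eq_left h2]
  · rw [min_eq_right h2]
    obtain ⟨u, hu⟩ : ∃ u, u = 2 ^ (r + 1) := ⟨_, rfl⟩
    obtain ⟨v, hv⟩ : ∃ v, v = 2 ^ a := ⟨_, rfl⟩
    obtain ⟨w, hw⟩ : ∃ w, w = 2 ^ v := ⟨_, rfl⟩
    rw [← hv, ← hw] at h1
    rw [← hv] at h2
    obtain ⟨b', hb'⟩ : ∃ b', b' = 2 ^ b := ⟨_, rfl⟩
    rw [← hu] at hr
    rw [← hu, ← hv, ← hw, ← hb']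
    clear hu hv hw hb'
    omega

theorem N_mono {a b : ℕ} (h : a ≤ b) : N a ≤ N b := by
  unfold N W
  exact Nat.pow_le_pow_right (by omega)
    (Nat.pow_le_pow_right (by omega) (Nat.pow_le_pow_left h 2))

/-- The code of the program built from its data. -/
def SS (q : T) : T :=
  T.node (T.unary 5) (T.node q.left (T.node (T.unary 4) (T.node Code.id.enc (qt q))))

theorem SS_poly : PolyTime SS := by
  have i := PolyTime.id
  exact (PolyTime.const _).node (i.left.node ((PolyTime.const _).node
      ((PolyTime.const _).node qt_polyTime)))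

/-- The code of the main part of the program. -/
def EE (post pre b : T) : T :=
  T.node (T.unary 5) (T.node post (T.node (T.unary 4) (T.node Code.id.enc
    (T.node (T.unary 5) (T.node b pre)))))

/-- The input of the referee. -/
def pre (w : T) : T :=
  vin (2 ^ min (2 ^ (w.left.left.left.len ^ 2)) w.left.left.right.left.len +
      w.left.right.left.len)
    w.left.left.right.right.left.len (nthT w.left.left.right.right.right w.left.right.left.len)
    w.left.right.right

theorem pre_poly (h3 : CAP_stmt) : PolyTime pre := by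
  have i := PolyTime.id
  have hX := i.left.left
  have hz := i.left.right
  have hc := h3 (fun w => w.left.left.left.len ^ 2) (fun w => w.left.left.right.left.len)
    ((PolyNat.len hX.left).pow 2) (PolyNat.len hX.right.left)
  have h1 := (PolyN.pow2 hc).add (PolyNat.toN (PolyNat.len hz.left))
  exact PolyTime.node h1 (((Lk.nthT_poly _ _ hX.right.right.right (PolyNat.len hz.left)).node
    hz.right).node (PolyNat.len hX.right.right.left))

/-- The truncated form of `N (s - 1) + W s`. -/
def tr (s r : ℕ) : ℕ :=
  min (2 ^ min (2 ^ (s - 1) ^ 2) (r + 1)) (r + 1) + min (2 ^ s ^ 2) (r + 1)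

theorem tr_poly (h3 : CAP_stmt) {s r : T → ℕ} (hs : PolyNat s) (hr : PolyNat r) :
    PolyNat (fun x => tr (s x) (r x)) := by
  have hr1 := hr.add (PolyNat.const 1)
  have a1 := h3 _ _ ((hs.sub (PolyNat.const 1)).pow 2) hr1
  exact (h3 _ _ a1 hr1).add (h3 _ _ (hs.pow 2) hr1)

theorem tr_iff (s r : ℕ) : tr s r ≤ r ↔ N (s - 1) + W s ≤ r := by
  unfold tr N W
  exact trunc_iff _ _ _

end PR

open PR

theorem PROG_thm (h1 : FLAGP_stmt) (h2 : LEVP_stmt) (h3 : CAP_stmt) : PROG_stmt := by
  classical
  intro dE
  obtain ⟨FL, hFL, hFlag⟩ := h1 dE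
  have i := PolyTime.id
  -- the parts of `v = node (node (node X z) q) out`
  have hX : PolyTime (fun v : T => v.left.left.left) := i.left.left.left
  have hz : PolyTime (fun v : T => v.left.left.right) := i.left.left.right
  have hq : PolyTime (fun v : T => v.left.right) := i.left.right
  have hs : PolyNat (fun v : T => v.left.left.left.left.len) := PolyNat.len hX.left
  have hr : PolyNat (fun v : T => v.left.left.left.right.left.len) := PolyNat.len hX.right.left
  have hv : PolyNat (fun v : T => v.left.left.left.right.right.left.len) :=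
    PolyNat.len hX.right.right.left
  have hY : PolyTime (fun v : T => v.left.left.left.right.right.right) := hX.right.right.right
  have hfE : PolyTime (fun v : T => v.left.right.right.left) := hq.right.left
  have hj : PolyNat (fun v : T => v.left.right.right.right.len) := PolyNat.len hq.right.right
  have hcE : PolyTime (fun v : T => SS v.left.right) := SS_poly.comp hq
  -- the flags
  obtain ⟨FF, hFFdef⟩ : ∃ FF : T → Prop, FF = fun u : T => FL (T.node (T.node
      u.left.left.right.right.left (SS u.left.left.right)) (T.node (T.unary u.right.len)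
        (T.unary u.left.left.left.left.right.left.len))) := ⟨_, rfl⟩
  have hFF : PolyDec FF := by
    rw [hFFdef]
    exact hFL.comp (((hfE.comp i.left).node (hcE.comp i.left)).node
      ((PolyNat.len i.right).unary.node (hr.comp i.left).unary))
  have hlev := h2 FF _ _ hFF hj hs
  obtain ⟨lv, hlv⟩ : ∃ lv : T → ℕ, lv = fun v => lev (fun s' => FF (T.node v (T.unary s')))
      v.left.right.right.right.len v.left.left.left.left.len := ⟨_, rfl⟩
  have hlevP : PolyNat lv := by rw [hlv]; exact hlev
  -- the test for valid instances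
  obtain ⟨V, hVdef⟩ : ∃ V : T → Prop, V = fun v : T =>
      v.left.right.right.right.len ≤ v.left.left.left.left.len ∧
      tr v.left.left.left.left.len v.left.left.left.right.left.len ≤
        v.left.left.left.right.left.len ∧
      ∀ i < lv v, (nthT v.left.left.left.right.right.right i).size ≤
        v.left.left.left.right.right.left.len := ⟨_, rfl⟩
  have hV : PolyDec V := by
    rw [hVdef]
    refine (PolyDec.le hj hs).and ((PolyDec.le (tr_poly h3 hs hr) hr).and ?_)
    have hb : PolyDec (fun u : T => (nthT u.left.left.left.left.right.right.right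
        u.right.len).size ≤ u.left.left.left.left.right.right.left.len) :=
      PolyDec.le (PolyNat.size (Lk.nthT_poly _ _ (hY.comp i.left) (PolyNat.len i.right)))
        (hv.comp i.left)
    refine (PolyDec.ball hb hlevP).congr fun v => ?_
    simp only [T.left_node, T.right_node, T.len_unary]
  -- the last part of the program
  have hpost : PolyTime (fun v : T => if (¬ V v ∨ (v.left.left.right.left.len < lv v ∧
      v.left.left.right.right.size ≤ v.left.left.left.right.right.left.len ∧
      v.right = T.leaf)) then T.node T.leaf T.leaf else T.leaf) := by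
    refine (PolyTime.ifP (hV.not.or ((PolyDec.lt (PolyNat.len hz.left) hlevP).and
      ((PolyDec.le (PolyNat.size hz.right) hv).and (PolyDec.eq_leaf i.right))))
      (PolyTime.const (T.node T.leaf T.leaf)) PolyTime.leaf).congr fun v => ?_
    split_ifs <;> rfl
  obtain ⟨post, hpostdef⟩ : ∃ post : T → T, post = fun v : T => if (¬ V v ∨
      (v.left.left.right.left.len < lv v ∧
      v.left.left.right.right.size ≤ v.left.left.left.right.right.left.len ∧
      v.right = T.leaf)) then T.node T.leaf T.leaf else T.leaf := ⟨_, rfl⟩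
  rw [← hpostdef] at hpost
  obtain ⟨cpre, kpre, hpre⟩ := pre_poly h3
  obtain ⟨cpost, kpost, hpost'⟩ := hpost
  -- the function `mk`
  have hE : PolyTime (fun y : T => EE cpost.enc cpre.enc y.left.left) :=
    (PolyTime.const _).node ((PolyTime.const _).node ((PolyTime.const _).node
      ((PolyTime.const _).node ((PolyTime.const _).node (i.left.left.node (PolyTime.const _))))))
  refine ⟨fun y => SS (T.node (EE cpost.enc cpre.enc y.left.left)
    (T.node y.left.right y.right)), SS_poly.comp (hE.node (i.left.right.node i.right)), ?_⟩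
  intro b B k hb fE j
  obtain ⟨E, hEdef⟩ : ∃ E : Code, E = Code.comp cpost (Code.pair Code.id (Code.comp b cpre)) :=
    ⟨_, rfl⟩
  obtain ⟨q, hqdef⟩ : ∃ q : T, q = T.node E.enc (T.node fE (T.unary j)) := ⟨_, rfl⟩
  have hEenc : E.enc = EE cpost.enc cpre.enc b.enc := by
    rw [hEdef]; rfl
  have hcenc : (Code.comp E (Code.pair Code.id (Code.const q))).enc = SS q := by
    simp only [Code.enc, SS, qt_eq, hqdef, T.left_node]
  have hPT : PT (Code.comp E (Code.pair Code.id (Code.const q)))
      (fun x => post (T.node (T.node x q) (B (pre (T.node x q))))) := by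
    have e1 : PT E (fun w => post (T.node w (B (pre w)))) := by
      rw [hEdef]
      exact PT.comp ⟨kpost, hpost'⟩ (PT.id.pair (PT.comp ⟨k, hb⟩ ⟨kpre, hpre⟩))
    exact PT.comp (f := fun w => post (T.node w (B (pre w)))) e1 (PT.id.pair (PT.const q))
  refine ⟨Code.comp E (Code.pair Code.id (Code.const q)), ?_, ?_, ?_⟩
  · rw [hcenc]
    simp only [T.left_node, T.right_node]
    rw [hqdef, hEenc]
  · obtain ⟨κ, hκ⟩ := hPT
    exact ⟨κ, fun x => ⟨_, hκ x⟩⟩
  · intro X z
    rw [hcenc]
    have hval : (∃ (y : T) (t : ℕ), Eval (Code.comp E (Code.pair Code.id (Code.const q)))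
        (T.node X z) y t ∧ y ≠ T.leaf) ↔
        post (T.node (T.node (T.node X z) q) (B (pre (T.node (T.node X z) q)))) ≠ T.leaf := by
      obtain ⟨κ, hκ⟩ := hPT
      obtain ⟨t, ht, -⟩ := hκ (T.node X z)
      constructor
      · rintro ⟨y, t', h, hy⟩
        have h5 : post (T.node (T.node (T.node X z) q) (B (pre (T.node (T.node X z) q)))) = y :=
          (ht.det h).1
        rwa [h5]
      · intro h
        exact ⟨_, _, ht, h⟩
    rw [hval]
    obtain ⟨out, hout⟩ : ∃ out : T, out = B (pre (T.node (T.node X z) q)) := ⟨_, rfl⟩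
    rw [← hout]
    have hpq : post (T.node (T.node (T.node X z) q) out) ≠ T.leaf ↔
        (¬ V (T.node (T.node (T.node X z) q) out) ∨
          (z.left.len < lv (T.node (T.node (T.node X z) q) out) ∧ z.right.size ≤ qv X ∧
            out = T.leaf)) := by
      rw [hpostdef]
      simp only [T.left_node, T.right_node, qv]
      split_ifs with h
      · simp only [ne_eq, reduceCtorEq, not_false_eq_true, true_iff]; exact h
      · simp only [ne_eq, not_true_eq_false, false_iff]; exact h
    rw [hpq]
    -- the levels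
    have hlvl : N (qs X - 1) ≤ qr X → lv (T.node (T.node (T.node X z) q) out) =
        lev (Flag dE fE (SS q)) j (qs X) := by
      intro hN
      rw [hlv]
      simp only [T.left_node, T.right_node]
      have hjj : q.right.right.len = j := by rw [hqdef]; simp
      rw [hjj]
      refine lev_congr j _ fun s' hs' => ?_
      rw [hFFdef]
      simp only [T.left_node, T.right_node, T.len_unary]
      have hq1 : q.right.left = fE := by rw [hqdef]; simp
      rw [hq1]
      refine hFlag fE (SS q) s' _ ?_
      refine (N_mono ?_).trans hN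
      change s' < X.left.len at hs'
      change s' ≤ X.left.len - 1
      omega
    have hVal : V (T.node (T.node (T.node X z) q) out) ↔ Valid (Flag dE fE (SS q)) j X := by
      rw [hVdef]
      unfold Valid
      simp only [T.left_node, T.right_node]
      have hjj : q.right.right.len = j := by rw [hqdef]; simp
      rw [hjj, tr_iff]
      refine and_congr Iff.rfl (and_congr_right fun hN => ?_)
      rw [hlvl (by unfold qs qr; omega)]
      rfl
    rw [hVal]
    unfold Acc
    by_cases hval' : Valid (Flag dE fE (SS q)) j X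
    · have hN : N (qs X - 1) + W (qs X) ≤ qr X := hval'.2.1
      rw [hlvl (by omega)]
      have hpre' : out = B (vin (N (qs X) + z.left.len) (qv X) (nthT (qY X) z.left.len)
          z.right) := by
        rw [hout]
        congr 1
        unfold pre
        simp only [T.left_node, T.right_node]
        have hW : min (2 ^ (X.left.len ^ 2)) X.right.left.len = W (qs X) := by
          have : W (qs X) = 2 ^ (X.left.len ^ 2) := rfl
          rw [← this]
          refine min_eq_left ?_
          change W (qs X) ≤ qr X
          omega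
        rw [hW]
        rfl
      rw [hpre']
      rfl
    · simp [hval']

end Pool.Agent.MSD
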