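import Pool.Agent.MSD.Main
import Pool.Agent.MSD.Mart
import Pool.Agent.MSD.Arith
import Pool.Agent.MSD.Sum
import Pool.Agent.MSD.Cap
import Pool.Agent.MSD.Prog
import Pool.Agent.MSD.Incl

/-!
# Q1, or `Σ₂TIME(2^o(m))` has p-measure zero
-/

set_option autoImplicit false

namespace Pool.Agent.MSD

open Pool.Agent.H19 Pool.Agent.H19.T Pool.Agent.PO Pool.Agent.S2L Pool.Agent.RU Pool.Agent.Q2E

theorem top_of (h5 : MPOLY_stmt) (μ : Fm) (hμ : IsUniversal μ) (P : Code → ℕ → Fm)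
    (hP : IsFormalisation μ P) : ReflectionConjecture μ P ∨
      PMeasureZero {A' | ∃ A ∈ Sigma2Subexp, ∀ x ∈ TestSet, (x ∈ A' ↔ x ∈ A)} := by
  by_cases h : ReflectionConjecture μ P
  · exact Or.inl h
  · exact Or.inr (measure_of_xp (PROG_thm FLAGP_thm LEVP_thm CAP_thm) FAIR_thm WIN1_thm WIN2_thm
      h5 Ar.ARITH_thm LEV_thm SIMF_thm (xp_of_not μ P hμ hP h))

end Pool.Agent.MSD
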